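import Pool.Agent.W625.JT.J

set_option autoImplicit false

open Set Filter Topology H535R3

namespace Pool.Agent.W625.JT

/-- Locking in the original coordinates. -/
lemma L_iff {s : ℕ} {L : ℝ → ℝ → ℝ → Prop}
    (hL : ∀ ω B A, L ω B A ↔
        ∀ φ : ℝ → ℝ,
          (∀ t : ℝ, HasDerivAt φ (-Real.sin (φ t) + B + A * Real.cos (ω * t)) t) →
          Tendsto (fun t : ℝ => φ t / (ω * t)) atTop (𝓝 ((s : ℤ) : ℝ)))
    {ω : ℝ} (hω : 0 < ω) (B A : ℝ) :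
    L ω B A ↔ ∃ x, P (B / ω) (A / ω) (1 / ω) x = x + 2 * Real.pi * ((s : ℤ) : ℝ) := by
  rw [hL]
  constructor
  · intro h
    have hφ := fl_sol (B / ω) (A / ω) (1 / ω) 0
    have h1 : ∀ t : ℝ, HasDerivAt (fun t => fl (B / ω) (A / ω) (1 / ω) 0 (ω * t))
        (-Real.sin (fl (B / ω) (A / ω) (1 / ω) 0 (ω * t)) + B + A * Real.cos (ω * t)) t := by
      intro t
      have h2 := HasDerivAt.comp t (hφ (ω * t)) ((hasDerivAt_id t).const_mul ω)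
      refine h2.congr_deriv ?_
      field_simp
      ring
    exact lock_of_sol hω h1 (h _ h1)
  · intro h φ hφ
    have h1 := (mem_LL hω (s:ℤ) B A).2 h φ hφ
    have h2 := h1.div_const ω
    rw [mul_div_cancel_right₀ _ hω.ne'] at h2
    refine h2.congr fun t => ?_
    rw [div_div, mul_comm t ω]

/-- The argument for one side. -/
theorem main_abs {m : ℝ × ℝ × ℝ → ℝ} (hm : Continuous m)
    (hmono : ∀ b b' a ε, b < b' → m (b, a, ε) < m (b', a, ε))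
    {n s : ℕ} {ω0 A0 : ℝ} (hω0 : 0 < ω0) (hA0 : 0 < A0) {Bd : ℝ → ℝ → ℝ → Prop}
    (hBd : ∀ ω, 0 < ω → ∀ B A, Bd ω B A ↔ m (B / ω, A / ω, 1 / ω) = 2 * Real.pi * ((s : ℤ) : ℝ))
    (up : (s : ℤ) < n + 1 → ∀ a0 ε0 : ℝ, 0 < a0 → 0 < ε0 →
      m ((n:ℝ) + 1, a0, ε0) = 2 * Real.pi * ((s : ℤ) : ℝ) → ∀ e < ε0,
      ∃ ε ∈ Ioo e ε0, 2 * Real.pi * ((s : ℤ) : ℝ) < m ((n:ℝ) + 1, a0, ε))
    (notflat : ∀ a0 ε0 : ℝ, 0 < ε0 → ¬ ∀ᶠ a in 𝓝 a0, m ((n:ℝ) + 1, a, ε0) = 2 * Real.pi * ((s : ℤ) : ℝ))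
    (eqc : ∀ a0 ε0 : ℝ, 0 < a0 → 0 < ε0 → m ((n:ℝ) + 1, a0, ε0) = 2 * Real.pi * ((n + 1 : ℤ) : ℝ) →
      ∀ η > 0, ∃ ε ∈ Ioo (ε0 - η) ε0, ∃ a, |a - a0| < η ∧
        m ((n:ℝ) + 1, a, ε) = 2 * Real.pi * ((n + 1 : ℤ) : ℝ))
    (lock : ∀ b a ε : ℝ, m (b, a, ε) = 2 * Real.pi * ((s : ℤ) : ℝ) →
      ∃ x, P b a ε x = x + 2 * Real.pi * ((s : ℤ) : ℝ))
    (h0 : Bd ω0 (((n + 1 : ℕ) : ℝ) * ω0) A0)
    (germ : ∃ ε > (0 : ℝ), ∀ B A : ℝ, |B - ((n + 1 : ℕ) : ℝ) * ω0| < ε → |A - A0| < ε →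
            Bd ω0 B A → ((n + 1 : ℕ) : ℝ) * ω0 ≤ B)
    (no : ∃ ε > (0 : ℝ), ∃ δ > (0 : ℝ), ∀ ω A : ℝ, ω0 < ω → ω < ω0 + δ →
            |((n + 1 : ℕ) : ℝ) * ω - ((n + 1 : ℕ) : ℝ) * ω0| < ε → |A - A0| < ε →
            ¬ Bd ω (((n + 1 : ℕ) : ℝ) * ω) A) : False := by
  set a0 := A0 / ω0 with ha0
  set ε0 := 1 / ω0 with hε0
  have ha0p : 0 < a0 := by positivity
  have hε0p : 0 < ε0 := by positivity
  have hcast : ((n + 1 : ℕ) : ℝ) = (n:ℝ) + 1 := by push_cast; rfl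
  rw [hcast] at h0 germ no
  have hbase : m ((n:ℝ) + 1, a0, ε0) = 2 * Real.pi * ((s : ℤ) : ℝ) := by
    have := (hBd ω0 hω0 _ _).1 h0
    rwa [mul_div_cancel_right₀ _ hω0.ne'] at this
  -- the last condition in scaled form
  obtain ⟨η2, hη2, δ, hδ, hno⟩ := no
  have no' : ∃ η > 0, ∀ ε a, ε0 - η < ε → ε < ε0 → |a - a0| < η →
      m ((n:ℝ) + 1, a, ε) ≠ 2 * Real.pi * ((s : ℤ) : ℝ) := by
    have hc1 : ContinuousAt (fun p : ℝ × ℝ => 1 / p.1) (ε0, a0) := by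
      apply ContinuousAt.div continuousAt_const continuousAt_fst
      exact hε0p.ne'
    have hc2 : ContinuousAt (fun p : ℝ × ℝ => |((n:ℝ) + 1) * (1 / p.1) - ((n:ℝ) + 1) * ω0|) (ε0, a0) := by
      fun_prop
    have hc3 : ContinuousAt (fun p : ℝ × ℝ => |p.2 * (1 / p.1) - A0|) (ε0, a0) := by
      fun_prop
    have e1 : 1 / ε0 = ω0 := by rw [hε0]; field_simp
    have h1 : ∀ᶠ p : ℝ × ℝ in 𝓝 (ε0, a0), 1 / p.1 < ω0 + δ :=
      hc1.eventually_lt_const (by simp only; rw [e1]; linarith)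
    have h2 : ∀ᶠ p : ℝ × ℝ in 𝓝 (ε0, a0), |((n:ℝ) + 1) * (1 / p.1) - ((n:ℝ) + 1) * ω0| < η2 :=
      hc2.eventually_lt_const (by simp only; rw [e1, sub_self, abs_zero]; exact hη2)
    have h3 : ∀ᶠ p : ℝ × ℝ in 𝓝 (ε0, a0), |p.2 * (1 / p.1) - A0| < η2 :=
      hc3.eventually_lt_const (by
        simp only; rw [e1, ha0, div_mul_cancel₀ _ hω0.ne', sub_self, abs_zero]; exact hη2)
    have h4 : ∀ᶠ p : ℝ × ℝ in 𝓝 (ε0, a0), 0 < p.1 :=
      continuous_fst.continuousAt.eventually_const_lt hε0p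
    obtain ⟨η, hη, hη3⟩ := Metric.eventually_nhds_iff.1 ((h1.and h2).and (h3.and h4))
    refine ⟨η, hη, fun ε a hε1 hε2 ha hma => ?_⟩
    obtain ⟨⟨k1, k2⟩, k3, k4⟩ := hη3 (y := (ε, a)) (by
      rw [Prod.dist_eq, max_lt_iff]
      constructor
      · rw [Real.dist_eq]
        show |ε - ε0| < η
        rw [abs_lt]; constructor <;> linarith
      · rw [Real.dist_eq]; exact ha)
    simp only at k1 k2 k3 k4
    have k5 : ω0 < 1 / ε := by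
      rw [← e1]
      exact one_div_lt_one_div_of_lt k4 hε2
    apply hno (1 / ε) (a * (1 / ε)) k5 k1 k2 k3
    rw [hBd (1 / ε) (by positivity)]
    rw [mul_div_cancel_right₀ _ (by positivity), mul_div_cancel_right₀ _ (by positivity), one_div_one_div]
    exact hma
  rcases lt_trichotomy (s : ℤ) (n + 1) with hlt | heq | hgt
  · -- `s < n + 1`
    obtain ⟨η1, hη1, hg⟩ := germ
    refine core hm hmono hbase ⟨η1 / ω0, by positivity, ?_⟩ no'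
      (up hlt a0 ε0 ha0p hε0p hbase) (notflat a0 ε0 hε0p)
    intro b a hb ha hma
    have h1 : |b * ω0 - ((n:ℝ) + 1) * ω0| < η1 := by
      rw [← sub_mul, abs_mul, abs_of_pos hω0]
      rwa [lt_div_iff₀ hω0] at hb
    have h2 : |a * ω0 - A0| < η1 := by
      have : a * ω0 - A0 = (a - a0) * ω0 := by rw [ha0]; field_simp
      rw [this, abs_mul, abs_of_pos hω0]
      rwa [lt_div_iff₀ hω0] at ha
    have h3 := hg (b * ω0) (a * ω0) h1 h2 (by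
      rw [hBd ω0 hω0, mul_div_cancel_right₀ _ hω0.ne', mul_div_cancel_right₀ _ hω0.ne']
      exact hma)
    exact le_of_mul_le_mul_right h3 hω0
  · -- `s = n + 1`
    obtain ⟨η, hη, hn⟩ := no'
    rw [heq] at hbase hn
    obtain ⟨ε, hε, a, ha, h1⟩ := eqc a0 ε0 ha0p hε0p hbase η hη
    exact hn ε a hε.1 hε.2 ha h1
  · -- `s > n + 1`
    obtain ⟨x, hx⟩ := lock _ _ _ hbase
    have h1 : n + 1 < s := by exact_mod_cast hgt
    have h2 := strictly_right hε0p (r := s) (by omega) ha0p.le ⟨x, by push_cast at hx; exact hx⟩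
    have h3 : (n:ℝ) + 1 + 1 ≤ s := by exact_mod_cast h1
    linarith

theorem final (ω₀ : ℝ) (hω₀ : 0 < ω₀) (l : ℕ) (hl : 1 ≤ l) (s : ℕ) (A₀ : ℝ) (hA₀ : 0 < A₀)
    (σ : ℝ) (hσ : σ = 1 ∨ σ = -1) (L : ℝ → ℝ → ℝ → Prop)
    (hL : ∀ ω B A, L ω B A ↔
        ∀ φ : ℝ → ℝ,
          (∀ t : ℝ, HasDerivAt φ (-Real.sin (φ t) + B + A * Real.cos (ω * t)) t) →
          Tendsto (fun t : ℝ => φ t / (ω * t)) atTop (𝓝 ((s : ℤ) : ℝ)))
    (Bd : ℝ → ℝ → ℝ → Prop)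
    (hBd : ∀ ω B A, Bd ω B A ↔ (L ω B A ∧ ∀ B' : ℝ, 0 < σ * (B' - B) → ¬ L ω B' A)) :
    ¬ (Bd ω₀ ((l : ℝ) * ω₀) A₀ ∧
        (∃ ε > (0 : ℝ), ∀ B A : ℝ, |B - (l : ℝ) * ω₀| < ε → |A - A₀| < ε →
            Bd ω₀ B A → (l : ℝ) * ω₀ ≤ B) ∧
        (∃ ε > (0 : ℝ), ∃ δ > (0 : ℝ), ∀ ω A : ℝ, ω₀ < ω → ω < ω₀ + δ →
            |(l : ℝ) * ω - (l : ℝ) * ω₀| < ε → |A - A₀| < ε →
            ¬ Bd ω ((l : ℝ) * ω) A)) := by
  rintro ⟨h0, hgerm, hno⟩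
  obtain ⟨n, rfl⟩ : ∃ n, l = n + 1 := ⟨l - 1, by omega⟩
  have hB : ∀ ω, 0 < ω → ∀ B A, Bd ω B A ↔
      ((∃ x, P (B / ω) (A / ω) (1 / ω) x = x + 2 * Real.pi * ((s : ℤ) : ℝ)) ∧
      ∀ b', 0 < σ * (b' - B / ω) → ¬ ∃ x, P b' (A / ω) (1 / ω) x = x + 2 * Real.pi * ((s : ℤ) : ℝ)) := by
    intro ω hω B A
    rw [hBd, L_iff hL hω]
    apply and_congr_right
    intro _
    constructor
    · intro h b' hb' hx
      apply h (b' * ω)
      · have : σ * (b' * ω - B) = σ * (b' - B / ω) * ω := by field_simp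
        rw [this]; positivity
      · rw [L_iff hL hω, mul_div_cancel_right₀ _ hω.ne']
        exact hx
    · intro h B' hB' hx
      rw [L_iff hL hω] at hx
      apply h (B' / ω) _ hx
      have : σ * (B' / ω - B / ω) = σ * (B' - B) / ω := by field_simp
      rw [this]; positivity
  rcases hσ with rfl | rfl
  · refine main_abs (n := n) (s := s) (Bd := Bd) mn_cont (fun b b' a ε h => mn_lt h) hω₀ hA₀ (fun ω hω B A => ?_)
      (fun hs a0 ε0 ha hε h e he => up_plus ha hε (by positivity) hs h he)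
      (fun a0 ε0 hε => notflat_plus hε) (fun a0 ε0 ha hε h η hη => eq_case_plus ha hε h hη)
      (fun b a ε h => (bd_plus.2 h).1) h0 hgerm hno
    rw [hB ω hω, ← bd_plus]
    apply and_congr_right
    intro _
    constructor
    · intro h b' hb'
      exact h b' (by linarith)
    · intro h b' hb'
      exact h b' (by linarith)
  · refine main_abs (n := n) (s := s) (Bd := Bd) mx_cont (fun b b' a ε h => mx_lt h) hω₀ hA₀ (fun ω hω B A => ?_)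
      (fun hs a0 ε0 ha hε h e he => up_minus ha hε hs h he)
      (fun a0 ε0 hε => notflat_minus hε) (fun a0 ε0 ha hε h η hη => eq_case_minus ha hε h hη)
      (fun b a ε h => (bd_minus.2 h).1) h0 hgerm hno
    rw [hB ω hω, ← bd_minus]
    apply and_congr_right
    intro _
    constructor
    · intro h b' hb'
      exact h b' (by linarith)
    · intro h b' hb'
      exact h b' (by linarith)

end Pool.Agent.W625.JT
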