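import Pool.Agent.W625.JT.Par
import Pool.Agent.H535R3.KM

set_option autoImplicit false

open Set Filter Topology Complex Pool.Agent.W795

namespace Pool.Agent.W625.JT

/-- The linear system `U' = W`, `W' = E U + i (l + 2 μ cos t) W`. -/
def LS (l μ E : ℂ) (Y : ℝ → ℂ × ℂ) : Prop :=
  ∀ t : ℝ, HasDerivAt Y ((Y t).2, E * (Y t).1 + I * (l + 2 * μ * Real.cos t) * (Y t).2) t

noncomputable def J0 : (ℂ × ℂ) →L[ℂ] (ℂ × ℂ) := (ContinuousLinearMap.snd ℂ ℂ ℂ).prod 0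
noncomputable def J1 : (ℂ × ℂ) →L[ℂ] (ℂ × ℂ) :=
  (0 : (ℂ × ℂ) →L[ℂ] ℂ).prod (ContinuousLinearMap.fst ℂ ℂ ℂ)
noncomputable def J2 : (ℂ × ℂ) →L[ℂ] (ℂ × ℂ) :=
  (0 : (ℂ × ℂ) →L[ℂ] ℂ).prod (ContinuousLinearMap.snd ℂ ℂ ℂ)

/-- The coefficient. -/
noncomputable def BB (l μ E : ℂ) (t : ℝ) : (ℂ × ℂ) →L[ℂ] (ℂ × ℂ) :=
  J0 + E • J1 + (I * (l + 2 * μ * Real.cos t)) • J2

lemma J0_apply (x : ℂ × ℂ) : J0 x = (x.2, 0) := by simp [J0]
lemma J1_apply (x : ℂ × ℂ) : J1 x = (0, x.1) := by simp [J1]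
lemma J2_apply (x : ℂ × ℂ) : J2 x = (0, x.2) := by simp [J2]

lemma BB_apply (l μ E : ℂ) (t : ℝ) (x : ℂ × ℂ) :
    BB l μ E t x = (x.2, E * x.1 + I * (l + 2 * μ * Real.cos t) * x.2) := by
  unfold BB
  rw [add_apply, add_apply, smul_apply,
    smul_apply, J0_apply, J1_apply, J2_apply]
  ext <;> simp

lemma BB_cont (l μ E : ℂ) : Continuous (BB l μ E) := by
  unfold BB
  have : Continuous fun t : ℝ => (I * (l + 2 * μ * Real.cos t)) := by
    have h : Continuous fun t : ℝ => ((Real.cos t : ℝ) : ℂ) :=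
      Complex.continuous_ofReal.comp Real.continuous_cos
    fun_prop
  fun_prop

lemma LS_iff {l μ E : ℂ} {Y : ℝ → ℂ × ℂ} :
    LS l μ E Y ↔ ∀ t, HasDerivAt Y (BB l μ E t (Y t)) t := by
  unfold LS
  simp only [BB_apply]

/-- real version of the coefficient -/
noncomputable def BR (l μ E : ℂ) (t : ℝ) : (ℂ × ℂ) →L[ℝ] (ℂ × ℂ) := (BB l μ E t).restrictScalars ℝ

lemma BR_cont (l μ E : ℂ) : Continuous (BR l μ E) :=
  (ContinuousLinearMap.restrictScalarsL ℂ (ℂ × ℂ) (ℂ × ℂ) ℝ ℝ).continuous.comp (BB_cont l μ E)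

lemma exists_LS (l μ E : ℂ) (x : ℂ × ℂ) : ∃ Y, Y 0 = x ∧ LS l μ E Y := by
  obtain ⟨Y, h0, hY⟩ := exists_linear (BR_cont l μ E) x
  exact ⟨Y, h0, LS_iff.2 fun t => hY t⟩

lemma LS.unique {l μ E : ℂ} {Y Z : ℝ → ℂ × ℂ} (hY : LS l μ E Y) (hZ : LS l μ E Z)
    (h : Y 0 = Z 0) : Y = Z :=
  linear_unique (BR_cont l μ E) (fun t => LS_iff.1 hY t) (fun t => LS_iff.1 hZ t) h

lemma LS.add {l μ E : ℂ} {Y Z : ℝ → ℂ × ℂ} (hY : LS l μ E Y) (hZ : LS l μ E Z) :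
    LS l μ E (fun t => Y t + Z t) := by
  rw [LS_iff] at *
  intro t
  rw [map_add]
  exact (hY t).add (hZ t)

lemma LS.smul {l μ E : ℂ} {Y : ℝ → ℂ × ℂ} (hY : LS l μ E Y) (c : ℂ) :
    LS l μ E (fun t => c • Y t) := by
  rw [LS_iff] at *
  intro t
  rw [map_smul]
  exact (hY t).const_smul c

lemma LS.shift {l μ E : ℂ} {Y : ℝ → ℂ × ℂ} (hY : LS l μ E Y) :
    LS l μ E (fun t => Y (t + 2 * Real.pi)) := by
  intro t
  have h := (hY (t + 2 * Real.pi)).comp_add_const t (2 * Real.pi)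
  rw [Real.cos_add_two_pi] at h
  exact h

/-- The solution with data `(1, 0)`. -/
noncomputable def Fa (l μ E : ℂ) : ℝ → ℂ × ℂ := Classical.choose (exists_LS l μ E (1, 0))
/-- The solution with data `(0, 1)`. -/
noncomputable def Fb (l μ E : ℂ) : ℝ → ℂ × ℂ := Classical.choose (exists_LS l μ E (0, 1))

lemma Fa_zero (l μ E : ℂ) : Fa l μ E 0 = (1, 0) := (Classical.choose_spec (exists_LS l μ E (1, 0))).1
lemma Fb_zero (l μ E : ℂ) : Fb l μ E 0 = (0, 1) := (Classical.choose_spec (exists_LS l μ E (0, 1))).1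
lemma Fa_LS (l μ E : ℂ) : LS l μ E (Fa l μ E) := (Classical.choose_spec (exists_LS l μ E (1, 0))).2
lemma Fb_LS (l μ E : ℂ) : LS l μ E (Fb l μ E) := (Classical.choose_spec (exists_LS l μ E (0, 1))).2

lemma LS.rep {l μ E : ℂ} {Y : ℝ → ℂ × ℂ} (hY : LS l μ E Y) (t : ℝ) :
    Y t = (Y 0).1 • Fa l μ E t + (Y 0).2 • Fb l μ E t := by
  have h := hY.unique (((Fa_LS l μ E).smul (Y 0).1).add ((Fb_LS l μ E).smul (Y 0).2)) (by
    simp only [Fa_zero, Fb_zero]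
    ext <;> simp)
  exact congrFun h t

/-- The trace. -/
noncomputable def NN (l μ E : ℂ) : ℂ := (Fa l μ E (2 * Real.pi)).1 + (Fb l μ E (2 * Real.pi)).2

lemma LS.fst {l μ E : ℂ} {Y : ℝ → ℂ × ℂ} (hY : LS l μ E Y) (t : ℝ) :
    HasDerivAt (fun t => (Y t).1) (Y t).2 t := (hY t).fst

lemma LS.snd {l μ E : ℂ} {Y : ℝ → ℂ × ℂ} (hY : LS l μ E Y) (t : ℝ) :
    HasDerivAt (fun t => (Y t).2) (E * (Y t).1 + I * (l + 2 * μ * Real.cos t) * (Y t).2) t :=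
  (hY t).snd

/-- Wronskian. -/
lemma wronsk {l : ℕ} {μ E : ℂ} {Y Z : ℝ → ℂ × ℂ} (hY : LS l μ E Y) (hZ : LS l μ E Z) :
    (Y (2 * Real.pi)).1 * (Z (2 * Real.pi)).2 - (Z (2 * Real.pi)).1 * (Y (2 * Real.pi)).2 =
      (Y 0).1 * (Z 0).2 - (Z 0).1 * (Y 0).2 := by
  have hs : ∀ t : ℝ, HasDerivAt (fun t : ℝ => ((Real.sin t : ℝ) : ℂ)) ((Real.cos t : ℝ) : ℂ) t :=
    fun t => (Real.hasDerivAt_sin t).ofReal_comp
  have hid : ∀ t : ℝ, HasDerivAt (fun t : ℝ => (t : ℂ)) 1 t := fun t => by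
    simpa using (hasDerivAt_id t).ofReal_comp
  have he : ∀ t : ℝ, HasDerivAt (fun t : ℝ => exp (-(I * (l * t + 2 * μ * Real.sin t))))
      (exp (-(I * (l * t + 2 * μ * Real.sin t))) * (-(I * (l * 1 + 2 * μ * Real.cos t)))) t := by
    intro t
    exact ((((hid t).const_mul (l:ℂ)).add ((hs t).const_mul (2 * μ))).const_mul I).neg.cexp
  have hd : ∀ t : ℝ, HasDerivAt (fun t : ℝ => ((Y t).1 * (Z t).2 - (Z t).1 * (Y t).2) *
      exp (-(I * (l * t + 2 * μ * Real.sin t)))) 0 t := by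
    intro t
    have h1 := (((hY.fst t).mul (hZ.snd t)).sub ((hZ.fst t).mul (hY.snd t))).mul (he t)
    refine h1.congr_deriv ?_
    simp only [Pi.sub_apply, Pi.mul_apply]
    ring
  have hc : ∀ t, ((Y t).1 * (Z t).2 - (Z t).1 * (Y t).2) *
      exp (-(I * (l * t + 2 * μ * Real.sin t))) = ((Y 0).1 * (Z 0).2 - (Z 0).1 * (Y 0).2) *
      exp (-(I * (l * (0:ℝ) + 2 * μ * Real.sin 0))) := by
    intro t
    exact is_const_of_deriv_eq_zero (fun t => (hd t).differentiableAt) (fun t => (hd t).deriv) t 0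
  have h2 := hc (2 * Real.pi)
  have e1 : exp (-(I * (l * ((2 * Real.pi : ℝ) : ℂ) + 2 * μ * Real.sin (2 * Real.pi)))) = 1 := by
    rw [Real.sin_two_pi, show -(I * ((l:ℂ) * ((2 * Real.pi : ℝ) : ℂ) + 2 * μ * ((0:ℝ) : ℂ))) =
      ((-(l:ℤ) : ℤ) : ℂ) * (2 * Real.pi * I) by push_cast; ring]
    exact exp_int_mul_two_pi_mul_I _
  rw [e1] at h2
  simpa using h2

lemma det_one (l : ℕ) (μ E : ℂ) :
    (Fa l μ E (2 * Real.pi)).1 * (Fb l μ E (2 * Real.pi)).2 -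
      (Fb l μ E (2 * Real.pi)).1 * (Fa l μ E (2 * Real.pi)).2 = 1 := by
  have h := wronsk (Fa_LS (l:ℂ) μ E) (Fb_LS (l:ℂ) μ E)
  rw [h, Fa_zero, Fb_zero]; simp

/-- `N (0) = 2`. -/
lemma NN_zero (l : ℕ) (μ : ℂ) : NN l μ 0 = 2 := by
  have h1 : Fa l μ 0 = fun _ => (1, 0) := by
    refine (Fa_LS l μ 0).unique ?_ (Fa_zero _ _ _)
    intro t
    refine (hasDerivAt_const t ((1, 0) : ℂ × ℂ)).congr_deriv ?_
    ext <;> simp
  have h2 := det_one l μ 0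
  rw [h1] at h2
  unfold NN
  rw [h1]
  simp only [one_mul, mul_zero, sub_zero] at h2 ⊢
  rw [h2]; norm_num

/-- Growth. -/
lemma growth {l μ E : ℂ} {Y : ℝ → ℂ × ℂ} (hY : LS l μ E Y) {r : ℝ} (hr : ‖E‖ ≤ r ^ 2) (hr0 : 0 ≤ r) :
    ‖((r : ℂ) * (Y (2 * Real.pi)).1, (Y (2 * Real.pi)).2)‖ ≤
      ‖((r : ℂ) * (Y 0).1, (Y 0).2)‖ * Real.exp ((r + (‖l‖ + 2 * ‖μ‖)) * (2 * Real.pi)) := by
  have hd : ∀ t, HasDerivAt (fun t => ((r : ℂ) * (Y t).1, (Y t).2))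
      ((r : ℂ) * (Y t).2, E * (Y t).1 + I * (l + 2 * μ * Real.cos t) * (Y t).2) t :=
    fun t => ((hY.fst t).const_mul (r:ℂ)).prodMk (hY.snd t)
  have h := gronwall_two (δ := ‖((r : ℂ) * (Y 0).1, (Y 0).2)‖) (K := r + (‖l‖ + 2 * ‖μ‖)) (ε := 0)
    (R := 2 * Real.pi) hd le_rfl (fun t _ => by
      have e1 : ‖(r : ℂ) * (Y t).1‖ ≤ ‖((r : ℂ) * (Y t).1, (Y t).2)‖ := norm_fst_le ((r : ℂ) * (Y t).1, (Y t).2)
      have e2 : ‖(Y t).2‖ ≤ ‖((r : ℂ) * (Y t).1, (Y t).2)‖ := norm_snd_le ((r : ℂ) * (Y t).1, (Y t).2)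
      have hn := norm_nonneg ((r : ℂ) * (Y t).1, (Y t).2)
      have hq : ‖I * (l + 2 * μ * (Real.cos t : ℂ))‖ ≤ ‖l‖ + 2 * ‖μ‖ := by
        rw [norm_mul, norm_I, one_mul]
        refine (norm_add_le _ _).trans ?_
        have : ‖2 * μ * (Real.cos t : ℂ)‖ ≤ 2 * ‖μ‖ := by
          rw [norm_mul, norm_mul, Complex.norm_real, Real.norm_eq_abs]
          have h1 := Real.abs_cos_le_one t
          have h2 := norm_nonneg μ
          norm_num
          nlinarith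
        linarith
      have hrn : ‖(r : ℂ)‖ = r := by rw [Complex.norm_real, Real.norm_eq_abs, abs_of_nonneg hr0]
      rw [add_zero]
      refine max_le ?_ ?_
      · show ‖(r : ℂ) * (Y t).2‖ ≤ _
        rw [norm_mul, hrn]
        have := norm_nonneg l
        have := norm_nonneg μ
        nlinarith [norm_nonneg (Y t).2]
      · show ‖E * (Y t).1 + I * (l + 2 * μ * Real.cos t) * (Y t).2‖ ≤ _
        have e3 : ‖E * (Y t).1‖ ≤ r * ‖(r : ℂ) * (Y t).1‖ := by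
          rw [norm_mul, norm_mul, hrn, ← mul_assoc]
          apply mul_le_mul_of_nonneg_right _ (norm_nonneg _)
          nlinarith
        have e4 : ‖I * (l + 2 * μ * Real.cos t) * (Y t).2‖ ≤ (‖l‖ + 2 * ‖μ‖) * ‖(Y t).2‖ := by
          rw [norm_mul]
          exact mul_le_mul_of_nonneg_right hq (norm_nonneg _)
        have e5 : r * ‖(r : ℂ) * (Y t).1‖ ≤ r * ‖((r : ℂ) * (Y t).1, (Y t).2)‖ :=
          mul_le_mul_of_nonneg_left e1 hr0
        have e6 : (‖l‖ + 2 * ‖μ‖) * ‖(Y t).2‖ ≤ (‖l‖ + 2 * ‖μ‖) * ‖((r : ℂ) * (Y t).1, (Y t).2)‖ :=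
          mul_le_mul_of_nonneg_left e2 (by positivity)
        refine (norm_add_le _ _).trans ?_
        linarith) (2 * Real.pi) (by rw [abs_of_pos Real.two_pi_pos])
  rw [gronwallBound_ε0, abs_of_pos Real.two_pi_pos] at h
  exact h

lemma NN_bound (l μ E : ℂ) : ‖NN l μ E‖ ≤
    2 * Real.exp ((Real.sqrt (1 + ‖E‖) + (‖l‖ + 2 * ‖μ‖)) * (2 * Real.pi)) := by
  set r := Real.sqrt (1 + ‖E‖) with hr
  have hr1 : 1 ≤ r := by
    rw [hr]; exact Real.one_le_sqrt.2 (by linarith [norm_nonneg E])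
  have hr2 : r ^ 2 = 1 + ‖E‖ := Real.sq_sqrt (by positivity)
  have hrn : ‖(r : ℂ)‖ = r := by
    rw [Complex.norm_real, Real.norm_eq_abs, abs_of_nonneg (by linarith)]
  have h1 := growth (Fa_LS l μ E) (r := r) (by linarith) (by linarith)
  have h2 := growth (Fb_LS l μ E) (r := r) (by linarith) (by linarith)
  rw [Fa_zero] at h1
  rw [Fb_zero] at h2
  have e1 : ‖(((r : ℂ) * ((1:ℂ), (0:ℂ)).1, ((1:ℂ), (0:ℂ)).2) : ℂ × ℂ)‖ = r := by
    rw [Prod.norm_def]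
    simp [hrn]
    linarith
  have e2 : ‖(((r : ℂ) * ((0:ℂ), (1:ℂ)).1, ((0:ℂ), (1:ℂ)).2) : ℂ × ℂ)‖ = 1 := by
    rw [Prod.norm_def]
    simp
  rw [e1] at h1
  rw [e2, one_mul] at h2
  have f1 : ‖(Fa l μ E (2 * Real.pi)).1‖ ≤ Real.exp ((r + (‖l‖ + 2 * ‖μ‖)) * (2 * Real.pi)) := by
    have := (norm_fst_le ((r : ℂ) * (Fa l μ E (2 * Real.pi)).1, (Fa l μ E (2 * Real.pi)).2)).trans h1
    simp only at this
    rw [norm_mul, hrn] at this
    exact le_of_mul_le_mul_left this (by linarith)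
  have f2 : ‖(Fb l μ E (2 * Real.pi)).2‖ ≤ Real.exp ((r + (‖l‖ + 2 * ‖μ‖)) * (2 * Real.pi)) :=
    (norm_snd_le ((r : ℂ) * (Fb l μ E (2 * Real.pi)).1, (Fb l μ E (2 * Real.pi)).2)).trans h2
  unfold NN
  refine (norm_add_le _ _).trans ?_
  linarith

lemma Fa_diffE (l μ : ℂ) (x : ℝ) : Differentiable ℂ (fun E => Fa l μ E x) := by
  have hc : Continuous fun t : ℝ => J0 + (I * (l + 2 * μ * Real.cos t)) • J2 := by
    have h : Continuous fun t : ℝ => ((Real.cos t : ℝ) : ℂ) :=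
      Complex.continuous_ofReal.comp Real.continuous_cos
    fun_prop
  refine param_diff2 (B1 := fun _ => J1) (Y := fun E => Fa l μ E) hc continuous_const
    (fun E => Fa_zero l μ E) ?_ x
  intro E t
  refine ((LS_iff.1 (Fa_LS l μ E)) t).congr_deriv ?_
  simp only [BB_apply, add_apply, smul_apply, J0_apply,
    J1_apply, J2_apply]
  ext <;> simp
  ring

lemma Fb_diffE (l μ : ℂ) (x : ℝ) : Differentiable ℂ (fun E => Fb l μ E x) := by
  have hc : Continuous fun t : ℝ => J0 + (I * (l + 2 * μ * Real.cos t)) • J2 := by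
    have h : Continuous fun t : ℝ => ((Real.cos t : ℝ) : ℂ) :=
      Complex.continuous_ofReal.comp Real.continuous_cos
    fun_prop
  refine param_diff2 (B1 := fun _ => J1) (Y := fun E => Fb l μ E) hc continuous_const
    (fun E => Fb_zero l μ E) ?_ x
  intro E t
  refine ((LS_iff.1 (Fb_LS l μ E)) t).congr_deriv ?_
  simp only [BB_apply, add_apply, smul_apply, J0_apply,
    J1_apply, J2_apply]
  ext <;> simp
  ring

lemma cc_cont : Continuous fun t : ℝ => (2 * I * (Real.cos t : ℂ)) • J2 := by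
  have h : Continuous fun t : ℝ => ((Real.cos t : ℝ) : ℂ) :=
    Complex.continuous_ofReal.comp Real.continuous_cos
  fun_prop

lemma Fa_diffμ (l E : ℂ) (x : ℝ) : Differentiable ℂ (fun μ => Fa l μ E x) := by
  refine param_diff2 (B0 := fun _ => J0 + E • J1 + (I * l) • J2)
    (B1 := fun t : ℝ => (2 * I * (Real.cos t : ℂ)) • J2) (Y := fun μ => Fa l μ E) continuous_const
    cc_cont (fun μ => Fa_zero l μ E) ?_ x
  intro μ t
  refine ((LS_iff.1 (Fa_LS l μ E)) t).congr_deriv ?_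
  simp only [BB_apply, add_apply, smul_apply, J0_apply,
    J1_apply, J2_apply]
  ext <;> simp
  ring

lemma Fb_diffμ (l E : ℂ) (x : ℝ) : Differentiable ℂ (fun μ => Fb l μ E x) := by
  refine param_diff2 (B0 := fun _ => J0 + E • J1 + (I * l) • J2)
    (B1 := fun t : ℝ => (2 * I * (Real.cos t : ℂ)) • J2) (Y := fun μ => Fb l μ E) continuous_const
    cc_cont (fun μ => Fb_zero l μ E) ?_ x
  intro μ t
  refine ((LS_iff.1 (Fb_LS l μ E)) t).congr_deriv ?_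
  simp only [BB_apply, add_apply, smul_apply, J0_apply,
    J1_apply, J2_apply]
  ext <;> simp
  ring

lemma NN_diffE (l μ : ℂ) : Differentiable ℂ (fun E => NN l μ E) :=
  (Fa_diffE l μ (2 * Real.pi)).fst.add (Fb_diffE l μ (2 * Real.pi)).snd

lemma NN_diffμ (l E : ℂ) : Differentiable ℂ (fun μ => NN l μ E) :=
  (Fa_diffμ l E (2 * Real.pi)).fst.add (Fb_diffμ l E (2 * Real.pi)).snd

end Pool.Agent.W625.JT
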