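import Pool.Agent.W625.JT.A

set_option autoImplicit false

open Set Filter Topology Complex H535R3

namespace Pool.Agent.W625.JT

/-- The solution of the linear system attached to a real solution. -/
noncomputable def UU (l μ ε : ℝ) (φ : ℝ → ℝ) (t : ℝ) : ℂ × ℂ :=
  (exp (((ε / 2 * Cc φ t : ℝ) : ℂ) + I * (((l * t + 2 * μ * Real.sin t - φ t) / 2 : ℝ) : ℂ)),
   ((ε / 2 : ℝ) : ℂ) * exp (((ε / 2 * Cc φ t : ℝ) : ℂ) +
      I * (((l * t + 2 * μ * Real.sin t + φ t) / 2 : ℝ) : ℂ)))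

lemma UU_LS {l μ ε : ℝ} {φ : ℝ → ℝ} (h : Sol l (2 * μ) ε φ) :
    LS l μ ((ε ^ 2 / 4 : ℝ) : ℂ) (UU l μ ε φ) := by
  intro t
  have h1 : HasDerivAt (fun t => ε / 2 * Cc φ t) (ε / 2 * Real.cos (φ t)) t :=
    (Cc_deriv h.cont t).const_mul _
  have h2 : HasDerivAt (fun t => (l * t + 2 * μ * Real.sin t - φ t) / 2)
      ((l * 1 + 2 * μ * Real.cos t - (l + 2 * μ * Real.cos t - ε * Real.sin (φ t))) / 2) t :=
    ((((hasDerivAt_id t).const_mul l).add ((Real.hasDerivAt_sin t).const_mul (2 * μ))).sub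
      (h t)).div_const 2
  have h3 : HasDerivAt (fun t => (l * t + 2 * μ * Real.sin t + φ t) / 2)
      ((l * 1 + 2 * μ * Real.cos t + (l + 2 * μ * Real.cos t - ε * Real.sin (φ t))) / 2) t :=
    ((((hasDerivAt_id t).const_mul l).add ((Real.hasDerivAt_sin t).const_mul (2 * μ))).add
      (h t)).div_const 2
  have k1 := (h1.ofReal_comp.add (h2.ofReal_comp.const_mul I)).cexp
  have k2 := ((h1.ofReal_comp.add (h3.ofReal_comp.const_mul I)).cexp).const_mul ((ε / 2 : ℝ) : ℂ)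
  have e1 : exp (((ε / 2 * Cc φ t : ℝ) : ℂ) + I * (((l * t + 2 * μ * Real.sin t + φ t) / 2 : ℝ) : ℂ)) =
      exp (((ε / 2 * Cc φ t : ℝ) : ℂ) + I * (((l * t + 2 * μ * Real.sin t - φ t) / 2 : ℝ) : ℂ)) *
        ((Real.cos (φ t) : ℂ) + (Real.sin (φ t) : ℂ) * I) := by
    rw [show ((Real.cos (φ t) : ℂ) + (Real.sin (φ t) : ℂ) * I) = exp ((φ t : ℂ) * I) by
      rw [exp_mul_I, ofReal_cos, ofReal_sin], ← Complex.exp_add]
    congr 1; push_cast; ring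
  have e2 : exp (((ε / 2 * Cc φ t : ℝ) : ℂ) + I * (((l * t + 2 * μ * Real.sin t - φ t) / 2 : ℝ) : ℂ)) =
      exp (((ε / 2 * Cc φ t : ℝ) : ℂ) + I * (((l * t + 2 * μ * Real.sin t + φ t) / 2 : ℝ) : ℂ)) *
        ((Real.cos (φ t) : ℂ) - (Real.sin (φ t) : ℂ) * I) := by
    rw [show ((Real.cos (φ t) : ℂ) - (Real.sin (φ t) : ℂ) * I) = exp (((-φ t : ℝ) : ℂ) * I) by
      rw [exp_mul_I, ← ofReal_cos, ← ofReal_sin, Real.cos_neg, Real.sin_neg]; push_cast; ring,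
      ← Complex.exp_add]
    congr 1; push_cast; ring
  refine (k1.prodMk k2).congr_deriv ?_
  ext
  · show _ = ((ε / 2 : ℝ) : ℂ) * exp (((ε / 2 * Cc φ t : ℝ) : ℂ) +
      I * (((l * t + 2 * μ * Real.sin t + φ t) / 2 : ℝ) : ℂ))
    rw [e1]
    simp only [Pi.add_apply]
    push_cast
    ring
  · show _ = ((ε ^ 2 / 4 : ℝ) : ℂ) * exp (((ε / 2 * Cc φ t : ℝ) : ℂ) +
      I * (((l * t + 2 * μ * Real.sin t - φ t) / 2 : ℝ) : ℂ)) + I * ((l : ℂ) + 2 * μ * Real.cos t) *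
        (((ε / 2 : ℝ) : ℂ) * exp (((ε / 2 * Cc φ t : ℝ) : ℂ) +
      I * (((l * t + 2 * μ * Real.sin t + φ t) / 2 : ℝ) : ℂ)))
    rw [e2]
    simp only [Pi.add_apply]
    push_cast
    ring

/-- `(-1) ^ m` as an exponential. -/
lemma exp_pi_int (m : ℤ) : exp (I * (Real.pi * m)) = ((-1 : ℝ) ^ m : ℝ) := by
  rw [show I * ((Real.pi : ℂ) * m) = m * (Real.pi * I) by ring, exp_int_mul, exp_pi_mul_I]
  push_cast; rfl

/-- Trace from an eigenvector. -/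
lemma trace_of_eig {a b c d v1 v2 lam : ℂ} (hdet : a * d - b * c = 1) (hv : v1 ≠ 0)
    (h1 : v1 * a + v2 * b = lam * v1) (h2 : v1 * c + v2 * d = lam * v2) :
    lam * (a + d) = lam ^ 2 + 1 := by
  have h3 : ((lam - a) * (lam - d) - b * c) * v1 = 0 := by
    linear_combination (-(lam - d)) * h1 - b * h2
  rcases mul_eq_zero.1 h3 with h | h
  · linear_combination (-1) * h + hdet
  · exact absurd h hv

lemma fl_two_pi (b a ε x : ℝ) : fl b a ε x (2 * Real.pi) = P b a ε x := rfl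

/-- Trace at a periodic solution. -/
lemma NN_of_fixed {l : ℕ} {μ ε x : ℝ} {r : ℤ} (hx : P l (2 * μ) ε x = x + 2 * Real.pi * r) :
    NN l μ ((ε ^ 2 / 4 : ℝ) : ℂ) =
      (((-1 : ℝ) ^ ((l : ℤ) + r) * (2 * Real.cosh (Kx l (2 * μ) ε x)) : ℝ) : ℂ) := by
  set φ := fl l (2 * μ) ε x with hφ
  have hs : Sol l (2 * μ) ε φ := fl_sol _ _ _ _
  have hφ0 : φ 0 = x := fl_zero _ _ _ _
  have hφ1 : φ (2 * Real.pi) = x + 2 * Real.pi * r := hx
  have hL := UU_LS hs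
  set lam : ℂ := (((-1 : ℝ) ^ ((l : ℤ) + r) * Real.exp (Kx l (2 * μ) ε x) : ℝ) : ℂ) with hlam
  have hK : ε / 2 * Cc φ (2 * Real.pi) = Kx l (2 * μ) ε x := rfl
  have g1 : (UU l μ ε φ (2 * Real.pi)).1 = lam * (UU l μ ε φ 0).1 := by
    show exp _ = lam * exp _
    rw [hK, Cc_zero, Real.sin_two_pi, Real.sin_zero, hφ0, hφ1, hlam]
    rw [ofReal_mul, ← exp_pi_int, ofReal_exp, ← Complex.exp_add, ← Complex.exp_add]
    rw [exp_eq_exp_iff_exists_int]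
    refine ⟨-r, ?_⟩
    push_cast; ring
  have g2 : (UU l μ ε φ (2 * Real.pi)).2 = lam * (UU l μ ε φ 0).2 := by
    show _ * exp _ = lam * (_ * exp _)
    rw [hK, Cc_zero, Real.sin_two_pi, Real.sin_zero, hφ0, hφ1, hlam]
    rw [ofReal_mul, ← exp_pi_int, ofReal_exp, ← Complex.exp_add, mul_left_comm (cexp (_ + _)), ← Complex.exp_add]
    congr 1
    congr 1
    push_cast; ring
  have hr := hL.rep (2 * Real.pi)
  have hr1 := congrArg Prod.fst hr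
  have hr2 := congrArg Prod.snd hr
  simp only [Prod.fst_add, Prod.snd_add, Prod.smul_fst, Prod.smul_snd, smul_eq_mul] at hr1 hr2
  rw [g1] at hr1
  rw [g2] at hr2
  have hv : (UU l μ ε φ 0).1 ≠ 0 := exp_ne_zero _
  have hcast : (((l : ℕ) : ℝ) : ℂ) = (l : ℂ) := by push_cast; rfl
  rw [hcast] at hr1 hr2
  have ht := trace_of_eig (det_one l μ ((ε ^ 2 / 4 : ℝ) : ℂ)) hv hr1.symm hr2.symm
  have hl0 : lam ≠ 0 := by
    rw [hlam, Ne, ofReal_eq_zero]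
    exact mul_ne_zero (zpow_ne_zero _ (by norm_num)) (Real.exp_pos _).ne'
  apply mul_left_cancel₀ hl0
  rw [show NN (l : ℂ) μ ((ε ^ 2 / 4 : ℝ) : ℂ) = _ + _ from rfl, ht, hlam, ← ofReal_mul,
    ← ofReal_pow, ← ofReal_one, ← ofReal_add]
  congr 1
  have hsq : ((-1 : ℝ) ^ ((l : ℤ) + r)) * (-1 : ℝ) ^ ((l : ℤ) + r) = 1 := by
    rw [← mul_zpow]; norm_num
  have hc : 2 * Real.cosh (Kx l (2 * μ) ε x) * Real.exp (Kx l (2 * μ) ε x) =
      Real.exp (Kx l (2 * μ) ε x) ^ 2 + 1 := by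
    rw [Real.cosh_eq]
    have : Real.exp (-(Kx l (2 * μ) ε x)) * Real.exp (Kx l (2 * μ) ε x) = 1 := by
      rw [← Real.exp_add]; simp
    linear_combination this
  linear_combination (Real.exp (Kx l (2 * μ) ε x) ^ 2 -
    2 * Real.cosh (Kx l (2 * μ) ε x) * Real.exp (Kx l (2 * μ) ε x)) * hsq - hc

/-- Real structure of the monodromy. -/
lemma mono_real {l : ℕ} {μ ε : ℝ} (hε : ε ≠ 0) :
    (∀ x : ℝ, exp ((Kx l (2 * μ) ε x : ℂ) + I * (((2 * Real.pi * l - P l (2 * μ) ε x) / 2 : ℝ) : ℂ)) =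
      exp (-(I * (x / 2))) * (Fa l μ ((ε ^ 2 / 4 : ℝ) : ℂ) (2 * Real.pi)).1 +
      ((ε / 2 : ℝ) : ℂ) * exp (I * (x / 2)) * (Fb l μ ((ε ^ 2 / 4 : ℝ) : ℂ) (2 * Real.pi)).1) ∧
    (Fb l μ ((ε ^ 2 / 4 : ℝ) : ℂ) (2 * Real.pi)).2 =
      (starRingEnd ℂ) (Fa l μ ((ε ^ 2 / 4 : ℝ) : ℂ) (2 * Real.pi)).1 ∧
    (Fa l μ ((ε ^ 2 / 4 : ℝ) : ℂ) (2 * Real.pi)).2 =
      ((ε ^ 2 / 4 : ℝ) : ℂ) * (starRingEnd ℂ) (Fb l μ ((ε ^ 2 / 4 : ℝ) : ℂ) (2 * Real.pi)).1 := by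
  set a := (Fa l μ ((ε ^ 2 / 4 : ℝ) : ℂ) (2 * Real.pi)).1 with ha
  set b := (Fb l μ ((ε ^ 2 / 4 : ℝ) : ℂ) (2 * Real.pi)).1 with hb
  set c := (Fa l μ ((ε ^ 2 / 4 : ℝ) : ℂ) (2 * Real.pi)).2 with hc
  set d := (Fb l μ ((ε ^ 2 / 4 : ℝ) : ℂ) (2 * Real.pi)).2 with hd
  have hcast : (((l : ℕ) : ℝ) : ℂ) = (l : ℂ) := by push_cast; rfl
  have key : ∀ x : ℝ,
      exp ((Kx l (2 * μ) ε x : ℂ) + I * (((2 * Real.pi * l - P l (2 * μ) ε x) / 2 : ℝ) : ℂ)) =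
        exp (-(I * (x / 2))) * a + ((ε / 2 : ℝ) : ℂ) * exp (I * (x / 2)) * b ∧
      ((ε / 2 : ℝ) : ℂ) *
        exp ((Kx l (2 * μ) ε x : ℂ) + I * (((2 * Real.pi * l + P l (2 * μ) ε x) / 2 : ℝ) : ℂ)) =
        exp (-(I * (x / 2))) * c + ((ε / 2 : ℝ) : ℂ) * exp (I * (x / 2)) * d := by
    intro x
    set φ := fl l (2 * μ) ε x with hφ
    have hs : Sol l (2 * μ) ε φ := fl_sol _ _ _ _
    have hφ0 : φ 0 = x := fl_zero _ _ _ _
    have hL := UU_LS hs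
    have hr := hL.rep (2 * Real.pi)
    have hr1 := congrArg Prod.fst hr
    have hr2 := congrArg Prod.snd hr
    simp only [Prod.fst_add, Prod.snd_add, Prod.smul_fst, Prod.smul_snd, smul_eq_mul] at hr1 hr2
    rw [hcast, ← ha, ← hb] at hr1
    rw [hcast, ← hc, ← hd] at hr2
    have z1 : (UU l μ ε φ 0).1 = exp (-(I * (x / 2))) := by
      show exp _ = _
      rw [Cc_zero, Real.sin_zero, hφ0]
      congr 1; push_cast; ring
    have z2 : (UU l μ ε φ 0).2 = ((ε / 2 : ℝ) : ℂ) * exp (I * (x / 2)) := by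
      show _ * exp _ = _
      rw [Cc_zero, Real.sin_zero, hφ0]
      congr 2; push_cast; ring
    have z3 : (UU l μ ε φ (2 * Real.pi)).1 = exp ((Kx l (2 * μ) ε x : ℂ) +
        I * (((2 * Real.pi * l - P l (2 * μ) ε x) / 2 : ℝ) : ℂ)) := by
      show exp _ = _
      rw [Real.sin_two_pi]
      congr 1
      show (((ε / 2 * Cc φ (2 * Real.pi) : ℝ)) : ℂ) +
        I * (((l * (2 * Real.pi) + 2 * μ * 0 - P l (2 * μ) ε x) / 2 : ℝ) : ℂ) = _
      unfold Kx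
      rw [← hφ]
      push_cast; ring
    have z4 : (UU l μ ε φ (2 * Real.pi)).2 = ((ε / 2 : ℝ) : ℂ) * exp ((Kx l (2 * μ) ε x : ℂ) +
        I * (((2 * Real.pi * l + P l (2 * μ) ε x) / 2 : ℝ) : ℂ)) := by
      show _ * exp _ = _
      rw [Real.sin_two_pi]
      congr 2
      show (((ε / 2 * Cc φ (2 * Real.pi) : ℝ)) : ℂ) +
        I * (((l * (2 * Real.pi) + 2 * μ * 0 + P l (2 * μ) ε x) / 2 : ℝ) : ℂ) = _
      unfold Kx
      rw [← hφ]
      push_cast; ring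
    rw [z1, z2, z3] at hr1
    rw [z1, z2, z4] at hr2
    exact ⟨hr1, hr2⟩
  have hconj : ∀ x : ℝ, ((ε / 2 : ℝ) : ℂ) *
      (exp (-(I * (x / 2))) * a + ((ε / 2 : ℝ) : ℂ) * exp (I * (x / 2)) * b) =
      exp (I * (x / 2)) * (starRingEnd ℂ) c +
        ((ε / 2 : ℝ) : ℂ) * exp (-(I * (x / 2))) * (starRingEnd ℂ) d := by
    intro x
    obtain ⟨h1, h2⟩ := key x
    have h3 := congrArg (starRingEnd ℂ) h2
    simp only [map_mul, map_add, conj_ofReal] at h3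
    rw [← exp_conj, ← exp_conj, ← exp_conj] at h3
    simp only [map_mul, map_add, map_neg, conj_ofReal, conj_I, map_div₀, map_ofNat] at h3
    rw [← h1]
    rw [show exp (-(-I * ((x : ℂ) / 2))) = exp (I * (x / 2)) by congr 1; ring,
      show exp (-I * ((x : ℂ) / 2)) = exp (-(I * (x / 2))) by congr 1; ring] at h3
    rw [← h3]
    congr 1
    rw [exp_eq_exp_iff_exists_int]
    refine ⟨l, ?_⟩
    push_cast; ring
  have hε' : ((ε / 2 : ℝ) : ℂ) ≠ 0 := by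
    rw [Ne, ofReal_eq_zero]
    exact div_ne_zero hε two_ne_zero
  have k0 := hconj 0
  have k1 := hconj Real.pi
  have ep : exp (I * ((Real.pi : ℂ) / 2)) = I := by
    rw [show I * ((Real.pi : ℂ) / 2) = Real.pi / 2 * I by ring]; exact exp_pi_div_two_mul_I
  have em : exp (-(I * ((Real.pi : ℂ) / 2))) = -I := by
    rw [show -(I * ((Real.pi : ℂ) / 2)) = -(Real.pi / 2 * I) by ring, exp_neg, exp_pi_div_two_mul_I]
    exact inv_I
  rw [ep, em] at k1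
  simp only [ofReal_zero, zero_div, mul_zero, neg_zero, exp_zero, one_mul, mul_one] at k0
  have k1' : ((ε / 2 : ℝ) : ℂ) * (-a + ((ε / 2 : ℝ) : ℂ) * b) =
      (starRingEnd ℂ) c - ((ε / 2 : ℝ) : ℂ) * (starRingEnd ℂ) d := by
    apply mul_left_cancel₀ I_ne_zero
    linear_combination k1
  have hsq : ((ε ^ 2 / 4 : ℝ) : ℂ) = ((ε / 2 : ℝ) : ℂ) * ((ε / 2 : ℝ) : ℂ) := by
    rw [← ofReal_mul]; congr 1; ring
  refine ⟨fun x => (key x).1, ?_, ?_⟩
  · have : a = (starRingEnd ℂ) d := by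
      apply mul_left_cancel₀ hε'
      linear_combination (1 / 2) * k0 - (1 / 2) * k1'
    rw [this, conj_conj]
  · have : (starRingEnd ℂ) c = ((ε ^ 2 / 4 : ℝ) : ℂ) * b := by
      rw [hsq]
      linear_combination -(1 / 2) * k0 - (1 / 2) * k1'
    have h2 := congrArg (starRingEnd ℂ) this
    rw [conj_conj, map_mul, conj_ofReal] at h2
    exact h2

/-- The trace is real. -/
lemma NN_real {l : ℕ} {μ ε : ℝ} (hε : ε ≠ 0) : NN l μ ((ε ^ 2 / 4 : ℝ) : ℂ) =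
    ((2 * (Fa l μ ((ε ^ 2 / 4 : ℝ) : ℂ) (2 * Real.pi)).1.re : ℝ) : ℂ) := by
  obtain ⟨-, h2, -⟩ := mono_real (l := l) (μ := μ) hε
  unfold NN
  rw [h2, add_conj]

/-- Non-elliptic parameters are locked. -/
lemma fixed_of_NN {l : ℕ} {μ ε : ℝ} (hε : ε ≠ 0)
    (hN : 2 ≤ |(NN l μ ((ε ^ 2 / 4 : ℝ) : ℂ)).re|) :
    ∃ (x : ℝ) (r : ℤ), P l (2 * μ) ε x = x + 2 * Real.pi * r := by
  rw [NN_real hε, ofReal_re] at hN
  obtain ⟨h1, h2, h3⟩ := mono_real (l := l) (μ := μ) hε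
  have hdet := det_one l μ ((ε ^ 2 / 4 : ℝ) : ℂ)
  set a := (Fa l μ ((ε ^ 2 / 4 : ℝ) : ℂ) (2 * Real.pi)).1 with ha
  set b := (Fb l μ ((ε ^ 2 / 4 : ℝ) : ℂ) (2 * Real.pi)).1 with hb
  rw [h2, h3] at hdet
  have hn : normSq a - ε ^ 2 / 4 * normSq b = 1 := by
    have e1 : ((normSq a - ε ^ 2 / 4 * normSq b : ℝ) : ℂ) = 1 := by
      rw [ofReal_sub, ofReal_mul, ← mul_conj, ← mul_conj, ← hdet]
      ring
    exact_mod_cast e1
  have ha2 : 1 ≤ a.re ^ 2 := by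
    rw [abs_mul, abs_two] at hN
    have : 1 ≤ |a.re| := by linarith
    rw [← sq_abs]; nlinarith
  have him : a.im ^ 2 ≤ ε ^ 2 / 4 * normSq b := by
    rw [normSq_apply a] at hn
    nlinarith
  set w : ℂ := ((ε / 2 : ℝ) : ℂ) * b with hw
  have hwn : ‖w‖ ^ 2 = ε ^ 2 / 4 * normSq b := by
    rw [hw, norm_mul, mul_pow, Complex.norm_real, Real.norm_eq_abs, sq_abs, ← normSq_eq_norm_sq]
    ring
  have him2 : |a.im| ≤ ‖w‖ := by
    apply abs_le_of_sq_le_sq _ (norm_nonneg _)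
    rw [hwn]; exact him
  set h : ℝ → ℝ := fun x => (a + w * exp (I * x)).im with hh
  have hcont : Continuous h := by
    rw [hh]
    exact continuous_im.comp (continuous_const.add (continuous_const.mul
      (continuous_exp.comp (continuous_const.mul continuous_ofReal))))
  have hx1 : h (Real.pi / 2 - arg w) = a.im + ‖w‖ := by
    rw [hh]
    have : w * exp (I * ((Real.pi / 2 - arg w : ℝ) : ℂ)) = ‖w‖ * I := by
      conv_lhs => rw [← norm_mul_exp_arg_mul_I w]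
      rw [mul_assoc, ← Complex.exp_add]
      rw [norm_mul_exp_arg_mul_I w]
      congr 1
      rw [show (arg w : ℂ) * I + I * ((Real.pi / 2 - arg w : ℝ) : ℂ) = Real.pi / 2 * I by
        push_cast; ring]
      exact exp_pi_div_two_mul_I
    show (a + w * exp (I * ((Real.pi / 2 - arg w : ℝ) : ℂ))).im = _
    rw [this]; simp
  have hx2 : h (-(Real.pi / 2) - arg w) = a.im - ‖w‖ := by
    rw [hh]
    have : w * exp (I * ((-(Real.pi / 2) - arg w : ℝ) : ℂ)) = -(‖w‖ * I) := by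
      conv_lhs => rw [← norm_mul_exp_arg_mul_I w]
      rw [mul_assoc, ← Complex.exp_add]
      rw [norm_mul_exp_arg_mul_I w, ← mul_neg]
      congr 1
      rw [show (arg w : ℂ) * I + I * ((-(Real.pi / 2) - arg w : ℝ) : ℂ) = -(Real.pi / 2 * I) by
        push_cast; ring, exp_neg, exp_pi_div_two_mul_I]
      exact inv_I
    show (a + w * exp (I * ((-(Real.pi / 2) - arg w : ℝ) : ℂ))).im = _
    rw [this]; simp
    ring
  obtain ⟨x, hx⟩ : ∃ x, h x = 0 := by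
    have h4 := abs_le.1 him2
    have := mem_range_of_exists_le_of_exists_ge hcont (c := (0:ℝ))
      ⟨_, (by rw [hx2]; linarith : h (-(Real.pi / 2) - arg w) ≤ 0)⟩
      ⟨_, (by rw [hx1]; linarith : 0 ≤ h (Real.pi / 2 - arg w))⟩
    exact this
  have e2 : exp ((Kx l (2 * μ) ε x : ℂ) + I * (((2 * Real.pi * l - P l (2 * μ) ε x + x) / 2 : ℝ) : ℂ)) =
      a + w * exp (I * x) := by
    have e3 : exp ((Kx l (2 * μ) ε x : ℂ) +
        I * (((2 * Real.pi * l - P l (2 * μ) ε x + x) / 2 : ℝ) : ℂ)) =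
        exp ((Kx l (2 * μ) ε x : ℂ) + I * (((2 * Real.pi * l - P l (2 * μ) ε x) / 2 : ℝ) : ℂ)) *
        exp (I * (x / 2)) := by
      rw [← Complex.exp_add]; congr 1; push_cast; ring
    have e4 : exp (-(I * ((x : ℂ) / 2))) * exp (I * (x / 2)) = 1 := by
      rw [← Complex.exp_add]; simp
    have e5 : exp (I * ((x : ℂ) / 2)) * exp (I * (x / 2)) = exp (I * x) := by
      rw [← Complex.exp_add]; congr 1; ring
    rw [e3, h1 x, hw]
    linear_combination a * e4 + ((ε / 2 : ℝ) : ℂ) * b * e5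
  have e6 : Real.exp (Kx l (2 * μ) ε x) * Real.sin ((2 * Real.pi * l - P l (2 * μ) ε x + x) / 2) = 0 := by
    rw [← hx]
    show _ = (a + w * exp (I * x)).im
    rw [← e2, exp_im]
    simp [Complex.mul_re, Complex.mul_im]
  have e7 : Real.sin ((2 * Real.pi * l - P l (2 * μ) ε x + x) / 2) = 0 := by
    rcases mul_eq_zero.1 e6 with h | h
    · exact absurd h (Real.exp_pos _).ne'
    · exact h
  obtain ⟨m, hm⟩ := Real.sin_eq_zero_iff.1 e7
  refine ⟨x, l - m, ?_⟩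
  push_cast
  linarith

end Pool.Agent.W625.JT
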