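import Pool.Agent.W625.JT.B

set_option autoImplicit false

open Set Filter Topology Complex ComplexConjugate H535R3

namespace Pool.Agent.W625.JT

/-- One-sided vanishing. -/
lemma onesided {b : ℕ → ℂ} {r : ℕ → ℝ} {m : ℝ} {E : ℂ} (hE : E.im ≠ 0)
    (hrec : ∀ x : ℕ, E * b (x + 1) = r (x + 1) * b (x + 1) +
      m * (x * b x + (x + 2) * b (x + 2)))
    {C : ℝ} (hb : ∀ x : ℕ, (x : ℝ) ^ 2 * ‖b x‖ ≤ C) (x : ℕ) : b (x + 1) = 0 := by
  set T : ℕ → ℝ := fun n => (n : ℝ) * (n + 1) * (conj (b n) * b (n + 1)).im with hT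
  have hC : 0 ≤ C := by simpa using hb 0
  have hS : ∀ n : ℕ, E.im * ∑ k ∈ Finset.range n, ((k : ℝ) + 1) * normSq (b (k + 1)) = m * T n := by
    intro n
    induction n with
    | zero => simp [hT]
    | succ n ih =>
      rw [Finset.sum_range_succ, mul_add, ih]
      have h1 := congrArg (fun z => (z * conj (b (n + 1))).im) (hrec n)
      have e1 : (E * b (n + 1) * conj (b (n + 1))).im = E.im * normSq (b (n + 1)) := by
        rw [mul_assoc, mul_conj, im_mul_ofReal]
      have e2 : ((r (n + 1) * b (n + 1) + m * (n * b n + (n + 2) * b (n + 2))) * conj (b (n + 1))).im =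
          m * (-((n:ℝ) * (conj (b n) * b (n + 1)).im) + ((n:ℝ) + 2) * (conj (b (n + 1)) * b (n + 2)).im) := by
        simp only [add_mul, mul_assoc, mul_conj, add_im, mul_im, mul_re, conj_re, conj_im, ofReal_re,
          ofReal_im, natCast_re, natCast_im, add_re, re_ofNat, im_ofNat]
        ring
      rw [e1, e2] at h1
      show m * ((n : ℝ) * (n + 1) * (conj (b n) * b (n + 1)).im) + _ =
        m * (((n + 1 : ℕ) : ℝ) * (((n + 1 : ℕ) : ℝ) + 1) * (conj (b (n + 1)) * b (n + 1 + 1)).im)
      push_cast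
      rw [show n + 1 + 1 = n + 2 from rfl]
      linear_combination ((n:ℝ) + 1) * h1
  have hTb : ∀ n : ℕ, (n : ℝ) * |T n| ≤ C ^ 2 := by
    intro n
    have h1 := hb n
    have h2 := hb (n + 1)
    push_cast at h2
    have h3 : |(conj (b n) * b (n + 1)).im| ≤ ‖b n‖ * ‖b (n + 1)‖ := by
      refine (abs_im_le_norm _).trans ?_
      rw [norm_mul, norm_conj]
    have h4 : |T n| ≤ (n : ℝ) * (n + 1) * (‖b n‖ * ‖b (n + 1)‖) := by
      rw [hT]
      simp only
      rw [abs_mul, abs_of_nonneg (by positivity : (0:ℝ) ≤ (n : ℝ) * (n + 1))]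
      exact mul_le_mul_of_nonneg_left h3 (by positivity)
    have h5 : ((n : ℝ) ^ 2 * ‖b n‖) * (((n : ℝ) + 1) ^ 2 * ‖b (n + 1)‖) ≤ C * C :=
      mul_le_mul h1 h2 (by positivity) hC
    have hn : (0:ℝ) ≤ n := Nat.cast_nonneg n
    calc (n : ℝ) * |T n| ≤ n * ((n : ℝ) * (n + 1) * (‖b n‖ * ‖b (n + 1)‖)) :=
          mul_le_mul_of_nonneg_left h4 hn
      _ ≤ (n + 1) * ((n : ℝ) * (n * (n + 1)) * (‖b n‖ * ‖b (n + 1)‖)) := by
          rcases Nat.eq_zero_or_pos n with h | h
          · subst h; simp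
          · have h6 : (1:ℝ) ≤ n := by exact_mod_cast h
            have h7 : 0 ≤ (n : ℝ) * n * (n + 1) * (‖b n‖ * ‖b (n + 1)‖) := by positivity
            nlinarith
      _ = ((n : ℝ) ^ 2 * ‖b n‖) * (((n : ℝ) + 1) ^ 2 * ‖b (n + 1)‖) := by ring
      _ ≤ C ^ 2 := by rw [pow_two C]; exact h5
  by_contra hne
  have hpos : 0 < |E.im| * normSq (b (x + 1)) := mul_pos (abs_pos.2 hE) (normSq_pos.2 hne)
  obtain ⟨N, hN⟩ := exists_nat_gt (|m| * C ^ 2 / (|E.im| * normSq (b (x + 1))))
  set M := max N (x + 1) with hM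
  have hMN : (N : ℝ) ≤ M := by exact_mod_cast le_max_left _ _
  have hMx : x < M := lt_of_lt_of_le (Nat.lt_succ_self x) (le_max_right _ _)
  have h1 : normSq (b (x + 1)) ≤ ∑ k ∈ Finset.range M, ((k : ℝ) + 1) * normSq (b (k + 1)) := by
    have h2 : ((x : ℝ) + 1) * normSq (b (x + 1)) ≤
        ∑ k ∈ Finset.range M, ((k : ℝ) + 1) * normSq (b (k + 1)) :=
      Finset.single_le_sum (f := fun k : ℕ => ((k : ℝ) + 1) * normSq (b (k + 1)))
        (fun k _ => mul_nonneg (by positivity) (normSq_nonneg _)) (Finset.mem_range.2 hMx)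
    have h3 := normSq_nonneg (b (x + 1))
    have h4 : (0:ℝ) ≤ x := Nat.cast_nonneg x
    nlinarith
  have h2 : |E.im| * normSq (b (x + 1)) ≤ |m| * |T M| := by
    rw [← abs_mul m, ← hS M, abs_mul]
    apply mul_le_mul_of_nonneg_left _ (abs_nonneg _)
    exact h1.trans (le_abs_self _)
  have hM0 : (0:ℝ) < M := by
    have : 0 < M := by omega
    exact_mod_cast this
  have h3 : (M : ℝ) * (|E.im| * normSq (b (x + 1))) ≤ |m| * C ^ 2 := by
    calc (M : ℝ) * (|E.im| * normSq (b (x + 1))) ≤ M * (|m| * |T M|) :=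
          mul_le_mul_of_nonneg_left h2 hM0.le
      _ = |m| * (M * |T M|) := by ring
      _ ≤ |m| * C ^ 2 := mul_le_mul_of_nonneg_left (hTb M) (abs_nonneg _)
  rw [div_lt_iff₀ hpos] at hN
  have h4 : (N:ℝ) * (|E.im| * normSq (b (x + 1))) ≤ M * (|E.im| * normSq (b (x + 1))) :=
    mul_le_mul_of_nonneg_right hMN hpos.le
  linarith

/-- Fourier coefficient of a derivative. -/
lemma cf_deriv {G G' : ℝ → ℂ} (hG : ∀ t, HasDerivAt G (G' t) t) (hc : Continuous G')
    (hper : ∀ t, G (t + 2 * Real.pi) = G t) (k : ℤ) : cf G' k = I * k * cf G k := by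
  have hcont : Continuous G := continuous_iff_continuousAt.2 fun t => (hG t).continuousAt
  have he : ∀ t : ℝ, HasDerivAt (fun t : ℝ => exp (-(I * k * t))) (exp (-(I * k * t)) * (-(I * k * 1))) t := by
    intro t
    have hid : HasDerivAt (fun t : ℝ => (t : ℂ)) 1 t := by simpa using (hasDerivAt_id t).ofReal_comp
    exact ((hid.const_mul (I * k)).neg).cexp
  have hec : Continuous fun t : ℝ => exp (-(I * k * t)) := by fun_prop
  have h1 : ∫ t in (-Real.pi)..Real.pi, (G' t * exp (-(I * k * t)) +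
      G t * (exp (-(I * k * t)) * (-(I * k * 1)))) = 0 := by
    rw [intervalIntegral.integral_eq_sub_of_hasDerivAt (f := fun t => G t * exp (-(I * k * t)))
      (fun t _ => (hG t).mul (he t))
      (Continuous.intervalIntegrable (by fun_prop) _ _)]
    have e1 : G Real.pi = G (-Real.pi) := by
      rw [← hper (-Real.pi)]; congr 1; ring
    have e2 : exp (-(I * k * (Real.pi : ℝ))) = exp (-(I * k * ((-Real.pi : ℝ) : ℂ))) := by
      rw [← exp_per k (-Real.pi)]; congr 3; push_cast; ring
    rw [e1, e2, sub_self]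
  rw [intervalIntegral.integral_add (Continuous.intervalIntegrable (by fun_prop) _ _)
    (Continuous.intervalIntegrable (by fun_prop) _ _)] at h1
  have h2 : ∫ t in (-Real.pi)..Real.pi, G t * (exp (-(I * k * t)) * (-(I * k * 1))) =
      -(I * k) * ∫ t in (-Real.pi)..Real.pi, G t * exp (-(I * k * t)) := by
    rw [← intervalIntegral.integral_const_mul]
    congr 1
    funext t; ring
  unfold cf
  rw [h2] at h1
  linear_combination ((1 / (2 * Real.pi) : ℝ) : ℂ) * h1

/-- Bound for a Fourier coefficient. -/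
lemma cf_bound2 {G : ℝ → ℂ} (hc : Continuous G) : ∃ C, ∀ k : ℤ, ‖cf G k‖ ≤ C := by
  obtain ⟨C, hC⟩ := (isCompact_Icc (a := -Real.pi) (b := Real.pi)).exists_bound_of_continuousOn
    hc.continuousOn
  refine ⟨C, fun k => ?_⟩
  unfold cf
  have hpi := Real.pi_pos
  have h1 : ‖∫ t in (-Real.pi)..Real.pi, G t * exp (-(I * k * t))‖ ≤ C * |Real.pi - (-Real.pi)| := by
    apply intervalIntegral.norm_integral_le_of_norm_le_const
    intro t ht
    rw [uIoc_of_le (by linarith)] at ht
    have e1 : ‖exp (-(I * k * t))‖ = 1 := by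
      rw [norm_exp]; simp
    rw [norm_mul, e1, mul_one]
    exact hC t ⟨ht.1.le, ht.2⟩
  rw [norm_mul, Complex.norm_real, Real.norm_eq_abs, abs_of_pos (by positivity)]
  have e2 : |Real.pi - (-Real.pi)| = 2 * Real.pi := by
    rw [abs_of_pos (by linarith)]; ring
  rw [e2] at h1
  calc 1 / (2 * Real.pi) * ‖∫ t in (-Real.pi)..Real.pi, G t * exp (-(I * k * t))‖ ≤
      1 / (2 * Real.pi) * (C * (2 * Real.pi)) := mul_le_mul_of_nonneg_left h1 (by positivity)
    _ = C := by field_simp

lemma cf_lin {G H : ℝ → ℂ} (hG : Continuous G) (hH : Continuous H) (c d : ℂ) (k : ℤ) :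
    cf (fun t => c * G t + d * H t) k = c * cf G k + d * cf H k := by
  unfold cf
  have : ∫ t in (-Real.pi)..Real.pi, (c * G t + d * H t) * exp (-(I * k * t)) =
      c * (∫ t in (-Real.pi)..Real.pi, G t * exp (-(I * k * t))) +
      d * (∫ t in (-Real.pi)..Real.pi, H t * exp (-(I * k * t))) := by
    rw [← intervalIntegral.integral_const_mul, ← intervalIntegral.integral_const_mul,
      ← intervalIntegral.integral_add (Continuous.intervalIntegrable (by fun_prop) _ _)
        (Continuous.intervalIntegrable (by fun_prop) _ _)]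
    congr 1
    funext t; ring
  rw [this]; ring

lemma cf_exp (G : ℝ → ℂ) (m k : ℤ) : cf (fun t => exp (I * m * t) * G t) k = cf G (k - m) := by
  unfold cf
  congr 2
  funext t
  rw [mul_assoc, mul_left_comm, ← Complex.exp_add]
  congr 2
  push_cast; ring

/-- The recursion. -/
lemma cf_recU {l : ℕ} {μ : ℝ} {E : ℂ} {Y : ℝ → ℂ × ℂ} (hY : LS l μ E Y)
    (hper : ∀ t, Y (t + 2 * Real.pi) = Y t) (k : ℤ) :
    E * cf (fun t => (Y t).1) k = (k : ℂ) * (l - k) * cf (fun t => (Y t).1) k +
      μ * (((k : ℂ) - 1) * cf (fun t => (Y t).1) (k - 1) +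
        ((k : ℂ) + 1) * cf (fun t => (Y t).1) (k + 1)) := by
  have hYc : Continuous Y := continuous_iff_continuousAt.2 fun t => (hY t).continuousAt
  have h1c : Continuous fun t => (Y t).1 := continuous_fst.comp hYc
  have h2c : Continuous fun t => (Y t).2 := continuous_snd.comp hYc
  have hW : ∀ k : ℤ, cf (fun t => (Y t).2) k = I * k * cf (fun t => (Y t).1) k :=
    cf_deriv (fun t => hY.fst t) h2c (fun t => by rw [hper])
  have hcc : Continuous fun t : ℝ => ((Real.cos t : ℝ) : ℂ) :=
    Complex.continuous_ofReal.comp Real.continuous_cos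
  have h3 := cf_deriv (fun t => hY.snd t) (by fun_prop) (fun t => by rw [hper]) k
  have h4 : (fun t : ℝ => E * (Y t).1 + I * ((l:ℂ) + 2 * μ * Real.cos t) * (Y t).2) =
      fun t : ℝ => E * (Y t).1 + I * ((fun t : ℝ => (l:ℂ) * (Y t).2 + μ * ((fun t : ℝ =>
        1 * (exp (I * (1:ℤ) * t) * (Y t).2) + 1 * (exp (I * (-1:ℤ) * t) * (Y t).2)) t)) t) := by
    funext t
    have hcos : ((Real.cos t : ℝ) : ℂ) = (exp (I * (1:ℤ) * t) + exp (I * (-1:ℤ) * t)) / 2 := by
      rw [ofReal_cos, Complex.cos]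
      congr 2
      · congr 1; push_cast; ring
      · congr 1; push_cast; ring
    simp only
    rw [hcos]; ring
  rw [h4, cf_lin h1c (by fun_prop), cf_lin h2c (by fun_prop), cf_lin (by fun_prop) (by fun_prop),
    cf_exp, cf_exp, hW, hW, hW] at h3
  rw [show k - (-1) = k + 1 by ring] at h3
  push_cast at h3
  linear_combination h3 - ((k:ℂ) ^ 2 - l * k) * cf (fun t => (Y t).1) k * (I_mul_I) * 0 +
    (k * (l - k) * cf (fun t => (Y t).1) k + μ * ((k - 1) * cf (fun t => (Y t).1) (k - 1) +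
      (k + 1) * cf (fun t => (Y t).1) (k + 1))) * (I_mul_I) * (-1) * 1

/-- All zeros of `N - 2` are real. -/
theorem real_zero {l : ℕ} {μ : ℝ} {E : ℂ} (h : NN l μ E = 2) : E.im = 0 := by
  by_contra hE
  have hdet := det_one l μ E
  have htr : (Fa l μ E (2 * Real.pi)).1 + (Fb l μ E (2 * Real.pi)).2 = 2 := h
  obtain ⟨v1, v2, hv, e1, e2⟩ : ∃ v1 v2 : ℂ, (v1 ≠ 0 ∨ v2 ≠ 0) ∧
      v1 * (Fa l μ E (2 * Real.pi)).1 + v2 * (Fb l μ E (2 * Real.pi)).1 = v1 ∧
      v1 * (Fa l μ E (2 * Real.pi)).2 + v2 * (Fb l μ E (2 * Real.pi)).2 = v2 := by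
    set a := (Fa l μ E (2 * Real.pi)).1
    set b := (Fb l μ E (2 * Real.pi)).1
    set c := (Fa l μ E (2 * Real.pi)).2
    set d := (Fb l μ E (2 * Real.pi)).2
    by_cases hb : b = 0 ∧ a = 1
    · refine ⟨0, 1, Or.inr one_ne_zero, ?_, ?_⟩
      · rw [hb.1]; ring
      · rw [hb.2] at htr
        linear_combination htr
    · refine ⟨b, 1 - a, ?_, by ring, ?_⟩
      · by_contra hcon
        push Not at hcon
        exact hb ⟨hcon.1, by linear_combination -hcon.2⟩
      · linear_combination htr - hdet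
  set Y : ℝ → ℂ × ℂ := fun t => v1 • Fa l μ E t + v2 • Fb l μ E t with hYd
  have hY : LS l μ E Y := ((Fa_LS l μ E).smul v1).add ((Fb_LS l μ E).smul v2)
  have hY0 : Y 0 = (v1, v2) := by
    rw [hYd]; simp only [Fa_zero, Fb_zero]; ext <;> simp
  have hY1 : Y (2 * Real.pi) = (v1, v2) := by
    rw [hYd]
    ext
    · simpa using e1
    · simpa using e2
  have hper : ∀ t, Y (t + 2 * Real.pi) = Y t := by
    have := hY.shift.unique hY (by simp only [zero_add]; rw [hY1, hY0])
    exact fun t => congrFun this t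
  have hYc : Continuous Y := continuous_iff_continuousAt.2 fun t => (hY t).continuousAt
  have h1c : Continuous fun t => (Y t).1 := continuous_fst.comp hYc
  have h2c : Continuous fun t => (Y t).2 := continuous_snd.comp hYc
  have hcc : Continuous fun t : ℝ => ((Real.cos t : ℝ) : ℂ) :=
    Complex.continuous_ofReal.comp Real.continuous_cos
  have hW : ∀ k : ℤ, cf (fun t => (Y t).2) k = I * k * cf (fun t => (Y t).1) k :=
    cf_deriv (fun t => hY.fst t) h2c (fun t => by rw [hper])
  have hrec := cf_recU hY hper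
  have hWc : Continuous (fun t : ℝ => E * (Y t).1 + I * ((l:ℂ) + 2 * μ * Real.cos t) * (Y t).2) := by
    fun_prop
  obtain ⟨C, hC⟩ := cf_bound2 hWc
  have hdec : ∀ k : ℤ, (k : ℝ) ^ 2 * ‖cf (fun t => (Y t).1) k‖ ≤ C := by
    intro k
    have h3 := cf_deriv (fun t => hY.snd t) hWc (fun t => by rw [hper]) k
    have h4 := hC k
    rw [h3, hW] at h4
    rw [norm_mul, norm_mul, norm_mul, norm_mul, norm_I, one_mul, norm_intCast] at h4
    rw [← sq_abs, pow_two, mul_assoc]
    exact h4
  set u : ℤ → ℂ := fun k => cf (fun t => (Y t).1) k with hu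
  have hp : ∀ x : ℕ, u (x + 1) = 0 := by
    intro x
    have := onesided (b := fun n : ℕ => u n) (r := fun n : ℕ => (n : ℝ) * (l - n)) (m := μ) hE
      (fun x => by
        have := hrec ((x:ℤ) + 1)
        rw [show (x:ℤ) + 1 - 1 = x by ring, show (x:ℤ) + 1 + 1 = x + 2 by ring] at this
        simp only [hu]
        push_cast at this ⊢
        linear_combination this) (C := C) (fun x => by
        have := hdec x
        push_cast at this
        exact this) x
    simpa using this
  have hm : ∀ x : ℕ, u (-((x:ℤ) + 1)) = 0 := by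
    intro x
    have := onesided (b := fun n : ℕ => u (-(n:ℤ))) (r := fun n : ℕ => -(n : ℝ) * (l + n))
      (m := -μ) hE
      (fun x => by
        have := hrec (-((x:ℤ) + 1))
        rw [show -((x:ℤ) + 1) - 1 = -(x + 2) by ring, show -((x:ℤ) + 1) + 1 = -x by ring] at this
        simp only [hu]
        push_cast at this ⊢
        linear_combination this) (C := C) (fun x => by
        have := hdec (-(x:ℤ))
        push_cast at this
        rw [neg_sq] at this
        exact this) x
    simpa using this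
  have h0 : u 0 = 0 := by
    have h5 := hrec 0
    have h6 := hp 0
    have h7 := hm 0
    simp only [hu] at h6 h7
    norm_num at h5 h6 h7
    rw [h6, h7] at h5
    have hE0 : E ≠ 0 := fun h => hE (by rw [h]; rfl)
    simp only [mul_zero, neg_zero, add_zero] at h5
    rcases mul_eq_zero.1 h5 with h | h
    · exact absurd h hE0
    · exact h
  have hall : ∀ k : ℤ, u k = 0 := by
    intro k
    rcases lt_trichotomy k 0 with h | h | h
    · have := hm (-k - 1).toNat
      rwa [show -((((-k - 1).toNat : ℕ) : ℤ) + 1) = k by omega] at this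
    · rw [h]; exact h0
    · have := hp (k - 1).toNat
      rwa [show (((k - 1).toNat : ℕ) : ℤ) + 1 = k by omega] at this
  have hU : ∀ t, (Y t).1 = 0 := by
    intro t
    have hz : cf (fun t => (Y t).1) = fun _ => 0 := funext hall
    have := cf_expand h1c (fun t => by rw [hper]) (by rw [hz]; exact summable_zero) t
    rw [hz] at this
    simp only [zero_mul] at this
    exact this.unique hasSum_zero
  have hU2 : ∀ t, (Y t).2 = 0 := by
    intro t
    have h8 := hY.fst t
    have h9 : (fun t => (Y t).1) = fun _ => 0 := funext hU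
    rw [h9] at h8
    exact h8.unique (hasDerivAt_const t (0:ℂ))
  have a1 := hU 0
  have a2 := hU2 0
  rw [hY0] at a1 a2
  rcases hv with h | h
  · exact h a1
  · exact h a2

end Pool.Agent.W625.JT
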