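import Pool.Agent.W625.JT.C
import Pool.Agent.H24R2.JP.Had

set_option autoImplicit false

open Set Filter Topology Complex Polynomial

namespace Pool.Agent.W625.JT

lemma conc_lin {a b : ℝ} {r : ℂ} (hr : r.im = 0) (h : ∀ x ∈ Icc a b, (x : ℂ) ≠ r) :
    ConcaveOn ℝ (Icc a b) (fun x : ℝ => Real.log ‖(x : ℂ) - r‖) := by
  have e : ∀ x : ℝ, Real.log ‖(x : ℂ) - r‖ = Real.log (x - r.re) := by
    intro x
    have : (x : ℂ) - r = ((x - r.re : ℝ) : ℂ) := by
      apply Complex.ext <;> simp [hr]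
    rw [this, Complex.norm_real, Real.norm_eq_abs, Real.log_abs]
  have hne : ∀ x ∈ Icc a b, x ≠ r.re := by
    intro x hx hxr
    apply h x hx
    apply Complex.ext
    · simp [hxr]
    · simp [hr]
  refine ⟨convex_Icc a b, ?_⟩
  intro x hx y hy α β hα hβ hαβ
  simp only [e, smul_eq_mul]
  have e2 : α * x + β * y - r.re = α * (x - r.re) + β * (y - r.re) := by
    linear_combination r.re * hαβ
  rw [e2]
  by_cases hc : a < r.re
  · have hb : b < r.re := by
      by_contra hb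
      exact hne r.re ⟨hc.le, not_lt.1 hb⟩ rfl
    exact strictConcaveOn_log_Iio.concaveOn.2 (by simp only [mem_Iio]; linarith [hx.2])
      (by simp only [mem_Iio]; linarith [hy.2]) hα hβ hαβ
  · have ha : r.re < a := by
      rcases lt_or_eq_of_le (not_lt.1 hc) with h1 | h1
      · exact h1
      · exact absurd h1.symm (hne a ⟨le_rfl, hx.1.trans hx.2⟩)
    exact strictConcaveOn_log_Ioi.concaveOn.2 (by simp only [mem_Ioi]; linarith [hx.1])
      (by simp only [mem_Ioi]; linarith [hy.1]) hα hβ hαβ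

lemma conc_prod {a b : ℝ} (s : Multiset ℂ) (h : ∀ r ∈ s, r.im = 0 ∧ ∀ x ∈ Icc a b, (x : ℂ) ≠ r) :
    ConcaveOn ℝ (Icc a b) (fun x : ℝ => Real.log ‖(s.map fun r => (x : ℂ) - r).prod‖) := by
  induction s using Multiset.induction_on with
  | empty =>
    simp only [Multiset.map_zero, Multiset.prod_zero, norm_one, Real.log_one]
    exact concaveOn_const _ (convex_Icc a b)
  | cons r s ih =>
    have h1 := h r (Multiset.mem_cons_self r s)
    have ih' := ih fun r hr => h r (Multiset.mem_cons_of_mem hr)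
    refine ((conc_lin h1.1 h1.2).add ih').congr ?_
    intro x hx
    show Real.log ‖(x : ℂ) - r‖ + Real.log ‖(s.map fun r => (x : ℂ) - r).prod‖ = _
    simp only [Multiset.map_cons, Multiset.prod_cons, norm_mul]
    rw [Real.log_mul]
    · exact norm_ne_zero_iff.2 (sub_ne_zero.2 (h1.2 x hx))
    · apply norm_ne_zero_iff.2
      rw [Ne, Multiset.prod_eq_zero_iff, Multiset.mem_map]
      rintro ⟨t, ht, ht2⟩
      exact (h t (Multiset.mem_cons_of_mem ht)).2 x hx (sub_eq_zero.1 ht2)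

lemma conc_poly {a b : ℝ} {p : ℂ[X]} (hp : p ≠ 0) (h1 : ∀ z, p.eval z = 0 → z.im = 0)
    (h2 : ∀ x ∈ Icc a b, p.eval (x : ℂ) ≠ 0) :
    ConcaveOn ℝ (Icc a b) (fun x : ℝ => Real.log ‖p.eval (x : ℂ)‖) := by
  have hs := (IsAlgClosed.splits p).eq_prod_roots
  have hr : ∀ r ∈ p.roots, r.im = 0 ∧ ∀ x ∈ Icc a b, (x : ℂ) ≠ r := by
    intro r hr
    have h3 : p.eval r = 0 := (mem_roots'.1 hr).2
    refine ⟨h1 r h3, fun x hx hxr => h2 x hx ?_⟩
    rw [hxr]; exact h3
  have hc := conc_prod p.roots hr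
  refine (hc.add (concaveOn_const (Real.log ‖p.leadingCoeff‖) (convex_Icc a b))).congr ?_
  intro x hx
  show Real.log ‖(p.roots.map fun r => (x : ℂ) - r).prod‖ + Real.log ‖p.leadingCoeff‖ = _
  have e : p.eval (x : ℂ) = p.leadingCoeff * (p.roots.map fun r => (x : ℂ) - r).prod := by
    conv_lhs => rw [hs]
    rw [eval_mul, eval_C, eval_multiset_prod, Multiset.map_map]
    simp
  simp only
  rw [e, norm_mul, Real.log_mul, add_comm]
  · exact norm_ne_zero_iff.2 (leadingCoeff_ne_zero.2 hp)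
  · intro h0
    apply h2 x hx
    rw [e, norm_eq_zero.1 h0, mul_zero]

lemma conc_lim {s : Set ℝ} {g : ℕ → ℝ → ℝ} {g' : ℝ → ℝ} (h : ∀ n, ConcaveOn ℝ s (g n))
    (hl : ∀ x ∈ s, Tendsto (fun n => g n x) atTop (𝓝 (g' x))) : ConcaveOn ℝ s g' := by
  refine ⟨(h 0).1, ?_⟩
  intro x hx y hy α β hα hβ hαβ
  have hz := (h 0).1 hx hy hα hβ hαβ
  exact le_of_tendsto_of_tendsto (((hl x hx).const_smul α).add ((hl y hy).const_smul β)) (hl _ hz)
    (Eventually.of_forall fun n => (h n).2 hx hy hα hβ hαβ)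

/-- Log concavity between the zeros. -/
theorem log_conc {f : ℂ → ℂ} {K a b : ℝ} (hf : Differentiable ℂ f) (h0 : f 0 ≠ 0)
    (hsym : ∀ x, f ((starRingEnd ℂ) x) = (starRingEnd ℂ) (f x))
    (hb : ∀ x, ‖f x‖ ≤ Real.exp (K * (1 + ‖x‖) ^ (3 / 4 : ℝ)))
    (hz : ∀ x, f x = 0 → x.im = 0) (hab : ∀ x ∈ Icc a b, f (x : ℂ) ≠ 0) :
    ConcaveOn ℝ (Icc a b) (fun x : ℝ => Real.log ‖f (x : ℂ)‖) := by
  obtain ⟨P, hP1, hP2⟩ := Pool.Agent.H24R2.JP.had f K hf h0 hsym hb
  have hev : ∀ N x, aeval x (P N) = ((P N).map (algebraMap ℝ ℂ)).eval x := by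
    intro N x
    rw [eval_map_algebraMap]
  have hP0 : ∀ N, (P N).map (algebraMap ℝ ℂ) ≠ 0 := by
    intro N hN
    apply h0
    apply hP1 N
    rw [hev, hN, eval_zero]
  apply conc_lim (g := fun N (x : ℝ) => Real.log ‖((P N).map (algebraMap ℝ ℂ)).eval (x : ℂ)‖)
  · intro N
    refine conc_poly (hP0 N) ?_ ?_
    · intro z hz1
      exact hz z (hP1 N z (by rw [hev, hz1]))
    · intro x hx hx1
      exact hab x hx (hP1 N x (by rw [hev, hx1]))
  · intro x hx
    have h1 : Tendsto (fun N => aeval (x : ℂ) (P N)) atTop (𝓝 (f x)) := by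
      exact (hP2.tendstoLocallyUniformlyOn (s := univ)).tendsto_at (mem_univ _)
    simp only [hev] at h1
    exact (Real.continuousAt_log (norm_ne_zero_iff.2 (hab x hx))).tendsto.comp h1.norm

/-- Log concavity, arbitrary base point. -/
theorem log_conc_at {f : ℂ → ℂ} {K a b E : ℝ} (hf : Differentiable ℂ f) (h0 : f E ≠ 0)
    (hsym : ∀ x, f ((starRingEnd ℂ) x) = (starRingEnd ℂ) (f x)) (hK : 0 ≤ K)
    (hb : ∀ x, ‖f x‖ ≤ Real.exp (K * (1 + ‖x‖) ^ (3 / 4 : ℝ)))
    (hz : ∀ x, f x = 0 → x.im = 0) (hab : ∀ x ∈ Icc a b, f (x : ℂ) ≠ 0) :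
    ConcaveOn ℝ (Icc a b) (fun x : ℝ => Real.log ‖f (x : ℂ)‖) := by
  have h := log_conc (f := fun z => f (z + E)) (K := K * (1 + |E|) ^ (3 / 4 : ℝ)) (a := a - E)
    (b := b - E) (hf.comp (differentiable_id.add_const _)) (by simpa using h0)
    (fun x => by
      rw [← hsym]; congr 1; rw [map_add, conj_ofReal])
    (fun x => by
      refine (hb (x + E)).trans (Real.exp_le_exp.2 ?_)
      rw [mul_assoc, ← Real.mul_rpow (by positivity) (by positivity)]
      apply mul_le_mul_of_nonneg_left _ hK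
      apply Real.rpow_le_rpow (by positivity) _ (by norm_num)
      have h1 := norm_add_le x (E : ℂ)
      rw [Complex.norm_real, Real.norm_eq_abs] at h1
      nlinarith [norm_nonneg x, abs_nonneg E])
    (fun x hx => by
      have := hz _ hx
      simpa using this)
    (fun x hx => by
      have := hab (x + E) ⟨by linarith [hx.1], by linarith [hx.2]⟩
      push_cast at this
      exact this)
  refine ⟨convex_Icc a b, ?_⟩
  intro x hx y hy α β hα hβ hαβ
  have h2 := h.2 (x := x - E) (y := y - E) ⟨by linarith [hx.1], by linarith [hx.2]⟩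
    ⟨by linarith [hy.1], by linarith [hy.2]⟩ hα hβ hαβ
  have e1 : ∀ x : ℝ, ((x - E : ℝ) : ℂ) + E = x := by intro x; push_cast; ring
  have e2 : ((α • (x - E) + β • (y - E) : ℝ) : ℂ) + E = ((α • x + β • y : ℝ) : ℂ) := by
    simp only [smul_eq_mul]
    have : (α : ℂ) + β = 1 := by exact_mod_cast hαβ
    push_cast
    linear_combination (-(E : ℂ)) * this
  simp only [e1, e2] at h2
  exact h2

/-- `1 - N / 2`. -/
noncomputable def ff (l : ℕ) (μ : ℝ) (E : ℂ) : ℂ := 1 - NN l μ E / 2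

lemma ff_diff (l : ℕ) (μ : ℝ) : Differentiable ℂ (ff l μ) :=
  (differentiable_const _).sub ((NN_diffE l μ).div_const 2)

lemma ff_zero (l : ℕ) (μ : ℝ) : ff l μ 0 = 0 := by
  unfold ff; rw [NN_zero]; norm_num

lemma ff_real_zero {l : ℕ} {μ : ℝ} {E : ℂ} (h : ff l μ E = 0) : E.im = 0 := by
  unfold ff at h
  exact real_zero (l := l) (μ := μ) (by linear_combination (-2) * h)

lemma ff_bound (l : ℕ) (μ : ℝ) : ∃ K : ℝ, 0 ≤ K ∧
    ∀ E, ‖ff l μ E‖ ≤ Real.exp (K * (1 + ‖E‖) ^ (3 / 4 : ℝ)) := by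
  set Q : ℝ := ‖(l : ℂ)‖ + 2 * ‖(μ : ℂ)‖ with hQ
  have hQ0 : 0 ≤ Q := by positivity
  refine ⟨1 + 2 * Real.pi * (1 + Q), by positivity, fun E => ?_⟩
  set R : ℝ := (1 + ‖E‖) ^ (3 / 4 : ℝ) with hR
  have h1 : (1:ℝ) ≤ 1 + ‖E‖ := by linarith [norm_nonneg E]
  have hR1 : 1 ≤ R := Real.one_le_rpow h1 (by norm_num)
  have hr : Real.sqrt (1 + ‖E‖) ≤ R := by
    rw [Real.sqrt_eq_rpow]
    exact Real.rpow_le_rpow_of_exponent_le h1 (by norm_num)
  have hN := NN_bound l μ E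
  rw [← hQ] at hN
  have hpi := Real.pi_pos
  set X := Real.exp ((Real.sqrt (1 + ‖E‖) + Q) * (2 * Real.pi)) with hX
  have hX1 : 1 ≤ X := Real.one_le_exp (by positivity)
  have h2 : ‖ff l μ E‖ ≤ 1 + X := by
    unfold ff
    refine (norm_sub_le _ _).trans ?_
    rw [norm_one, norm_div]
    have : ‖(2:ℂ)‖ = 2 := by simp
    rw [this]
    linarith
  have h3 : 1 + X ≤ Real.exp (1 + (Real.sqrt (1 + ‖E‖) + Q) * (2 * Real.pi)) := by
    rw [Real.exp_add, ← hX]
    have := Real.add_one_le_exp (1:ℝ)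
    nlinarith
  refine h2.trans (h3.trans (Real.exp_le_exp.2 ?_))
  have h4 : (Real.sqrt (1 + ‖E‖) + Q) * (2 * Real.pi) ≤ (R + Q * R) * (2 * Real.pi) := by
    apply mul_le_mul_of_nonneg_right _ (by positivity)
    nlinarith
  nlinarith

lemma ff_sym (l : ℕ) (μ : ℝ) (E : ℂ) : ff l μ ((starRingEnd ℂ) E) = (starRingEnd ℂ) (ff l μ E) := by
  have hN : Differentiable ℂ (fun E => NN l μ E) := NN_diffE l μ
  have hG : Differentiable ℂ (fun E => (starRingEnd ℂ) (NN l μ ((starRingEnd ℂ) E))) := by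
    intro z
    have := (hN ((starRingEnd ℂ) z)).conj_conj
    rw [conj_conj] at this
    exact this
  have heq : (fun E => NN l μ E) = fun E => (starRingEnd ℂ) (NN l μ ((starRingEnd ℂ) E)) := by
    apply AnalyticOnNhd.eq_of_frequently_eq (z₀ := (1:ℂ)) (fun z _ => hN.analyticAt z)
      (fun z _ => hG.analyticAt z)
    have ht : Tendsto (fun n : ℕ => ((1 + 1 / ((n:ℝ) + 1) : ℝ) : ℂ)) atTop (𝓝[≠] (1:ℂ)) := by
      rw [tendsto_nhdsWithin_iff]
      constructor
      · have h1 : Tendsto (fun n : ℕ => (1 + 1 / ((n:ℝ) + 1) : ℝ)) atTop (𝓝 (1 + 0)) :=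
          tendsto_const_nhds.add tendsto_one_div_add_atTop_nhds_zero_nat
        rw [add_zero] at h1
        have h2 := (Complex.continuous_ofReal.tendsto 1).comp h1
        rw [ofReal_one] at h2
        exact h2
      · refine Eventually.of_forall fun n => ?_
        show ((1 + 1 / ((n:ℝ) + 1) : ℝ) : ℂ) ≠ 1
        have h3 : (0:ℝ) < 1 / ((n:ℝ) + 1) := by positivity
        intro h4
        have h5 : (1 + 1 / ((n:ℝ) + 1) : ℝ) = 1 := by exact_mod_cast h4
        linarith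
    apply ht.frequently
    refine Frequently.of_forall fun n => ?_
    set y : ℝ := 1 + 1 / ((n:ℝ) + 1) with hy
    have hy0 : 0 < y := by positivity
    have hE : (y : ℂ) = (((2 * Real.sqrt y) ^ 2 / 4 : ℝ) : ℂ) := by
      congr 1
      rw [mul_pow, Real.sq_sqrt hy0.le]; ring
    rw [conj_ofReal, hE, NN_real (by positivity), conj_ofReal]
  have h := congrFun heq ((starRingEnd ℂ) E)
  simp only [conj_conj] at h
  unfold ff
  rw [h, map_sub, map_div₀, map_one, map_ofNat]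

/-- Log concavity for `ff`. -/
theorem ff_conc {l : ℕ} {μ a b E : ℝ} (h0 : ff l μ E ≠ 0) (hab : ∀ x ∈ Icc a b, ff l μ (x : ℂ) ≠ 0) :
    ConcaveOn ℝ (Icc a b) (fun x : ℝ => Real.log ‖ff l μ (x : ℂ)‖) := by
  obtain ⟨K, hK0, hK⟩ := ff_bound l μ
  exact log_conc_at (ff_diff l μ) h0 (ff_sym l μ) hK0 hK (fun x hx => ff_real_zero hx) hab

end Pool.Agent.W625.JT
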