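import Pool.Agent.W625.JT.D

set_option autoImplicit false

open Set Filter Topology Complex ComplexConjugate H535R3

namespace Pool.Agent.W625.JT

/-- Generalisation of `rot_of_outer`. -/
lemma rot_of_outer2 {n : ℕ} {m0 : ℤ} {μ ε : ℝ} {c : ℤ → ℝ}
    (h : P (n + 1) (2 * μ) ε (Real.pi / 2) = Real.pi / 2 + 2 * Real.pi * ((1 - n + 2 * m0 : ℤ) : ℝ))
    (hr : RRec n μ (ε / 2) c) (hb : ∃ C, ∀ k, |c k| ≤ C) (h0 : c (-1) ≠ 0) (x : ℝ) :
    P (n + 1) (2 * μ) ε x = x + 2 * Real.pi * ((1 - n + 2 * m0 : ℤ) : ℝ) := by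
  obtain ⟨c', hr', hb', j, hj⟩ := flip_exists hr h0 hb
  rw [← neg_div] at hr'
  obtain ⟨D, -, hD⟩ := decay hr' hb' 3
  have hs := summables hD
  have hs' := summable_c hs
  have hsol := HH_sol hr' hs
  obtain ⟨t1, ht1⟩ := HH_ne hs' hj
  obtain ⟨-, hK, m, hm⟩ := of_LSol hsol (HH_real c') (by simpa using HH_per c' 0) ht1
  have h1 := P_neg (n + 1) (2 * μ) ε (-(Real.pi / 2))
  have e1 : -(Real.pi / 2) + Real.pi = Real.pi / 2 := by ring
  rw [e1, hm, hK] at h1
  have hpi := Real.pi_pos
  have h2 : P (n + 1) (2 * μ) ε (-(Real.pi / 2)) < P (n + 1) (2 * μ) ε (Real.pi / 2) :=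
    P_mono _ _ _ (by linarith)
  have h3 : P (n + 1) (2 * μ) ε (Real.pi / 2) < P (n + 1) (2 * μ) ε (-(Real.pi / 2) + 2 * Real.pi * (1 : ℤ)) :=
    P_mono _ _ _ (by push_cast; linarith)
  rw [P_add] at h3
  rw [h1.1, h] at h2 h3
  push_cast at h2 h3
  have h4 : (1 - (n:ℝ) + 2 * m) < (1 - n + 2 * m0) + 1 := by
    by_contra hcon
    push Not at hcon
    nlinarith
  have h5 : (1 - n + 2 * m0 : ℝ) - 1 < (1 - (n:ℝ) + 2 * m) := by
    by_contra hcon
    push Not at hcon
    nlinarith
  have h6 : m = m0 := by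
    have h7 : (1 - (n:ℤ) + 2 * m) < (1 - n + 2 * m0) + 1 := by exact_mod_cast h4
    have h8 : (1 - n + 2 * m0 : ℤ) - 1 < (1 - (n:ℤ) + 2 * m) := by exact_mod_cast h5
    omega
  have h8 : P (n + 1) (2 * μ) ε (-(Real.pi / 2)) =
      -(Real.pi / 2) + 2 * Real.pi * ((1 - n + 2 * m0 : ℤ) : ℝ) := by
    rw [h1.1, h6]; push_cast; ring
  have hsin : Real.sin ((-(Real.pi / 2) - Real.pi / 2) / 2) ≠ 0 := by
    rw [show (-(Real.pi / 2) - Real.pi / 2) / 2 = -(Real.pi / 2) by ring, Real.sin_neg,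
      Real.sin_pi_div_two]
    norm_num
  rcases dich h h8 hsin with ⟨h9, -⟩ | ⟨h9, -⟩
  · exact h9 x
  · exact absurd (Kx_sym h) h9

/-- Negative Fourier coefficients of boundary values vanish. -/
lemma pos_freq {h : ℂ → ℂ} (hh : Differentiable ℂ h) {k : ℤ} (hk : k < 0) :
    cf (fun t : ℝ => h (exp (I * t))) k = 0 := by
  obtain ⟨m, hm⟩ : ∃ m : ℕ, k = -((m:ℤ) + 1) := ⟨(-k - 1).toNat, by omega⟩
  have h1 : (∮ z in C(0, 1), h z * z ^ m) = 0 :=
    circleIntegral_eq_zero_of_differentiable_on_off_countable zero_le_one countable_empty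
      (by have := hh.continuous; fun_prop) (fun z _ => by
        have := hh z; fun_prop)
  rw [circleIntegral] at h1
  have h2 : ∫ t in (0:ℝ)..(2 * Real.pi), h (exp (I * t)) * exp (-(I * k * t)) = 0 := by
    have h3 : (fun t : ℝ => deriv (circleMap 0 1) t • (h (circleMap 0 1 t) * (circleMap 0 1 t) ^ m)) =
        fun t : ℝ => I * (h (exp (I * t)) * exp (-(I * k * t))) := by
      funext t
      rw [deriv_circleMap]
      simp only [circleMap, ofReal_one, one_mul, zero_add, smul_eq_mul]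
      rw [show (t:ℂ) * I = I * t by ring, show exp (-(I * k * t)) = exp (I * t) * exp (I * t) ^ m by
        rw [← Complex.exp_nat_mul, ← Complex.exp_add]
        congr 1
        rw [hm]; push_cast; ring]
      ring
    rw [h3, intervalIntegral.integral_const_mul] at h1
    rcases mul_eq_zero.1 h1 with h4 | h4
    · exact absurd h4 I_ne_zero
    · exact h4
  have hper : Function.Periodic (fun t : ℝ => h (exp (I * t)) * exp (-(I * k * t))) (2 * Real.pi) := by
    intro t
    simp only
    rw [exp_per]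
    congr 2
    rw [show I * ((t + 2 * Real.pi : ℝ) : ℂ) = I * t + 2 * Real.pi * I by push_cast; ring,
      Complex.exp_add, exp_two_pi_mul_I, mul_one]
  have h5 := hper.intervalIntegral_add_eq (-Real.pi) 0
  rw [show -Real.pi + 2 * Real.pi = Real.pi by ring, zero_add, h2] at h5
  unfold cf
  rw [h5, mul_zero]

/-- Parseval. -/
lemma parseval {U W : ℝ → ℂ} (hU : ∀ t, HasDerivAt U (W t) t) (hWc : Continuous W)
    (hper : ∀ t, U (t + 2 * Real.pi) = U t) (hs : Summable fun k => ‖cf U k‖) :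
    HasSum (fun k : ℤ => 2 * Real.pi * (k * ‖cf U k‖ ^ 2))
      (∫ t in (-Real.pi)..Real.pi, (conj (U t) * W t).im) := by
  have hUc : Continuous U := continuous_iff_continuousAt.2 fun t => (hU t).continuousAt
  obtain ⟨C, hC⟩ := (isCompact_Icc (a := -Real.pi) (b := Real.pi)).exists_bound_of_continuousOn
    hWc.continuousOn
  have hpi := Real.pi_pos
  have h1 : HasSum (fun k : ℤ => ∫ t in (-Real.pi)..Real.pi, conj (cf U k) * (W t * exp (-(I * k * t))))
      (∫ t in (-Real.pi)..Real.pi, conj (U t) * W t) := by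
    refine intervalIntegral.hasSum_integral_of_dominated_convergence
      (bound := fun k _ => ‖cf U k‖ * C) ?_ ?_ ?_ ?_ ?_
    · intro k
      exact (by fun_prop : Continuous fun t : ℝ =>
        conj (cf U k) * (W t * exp (-(I * k * t)))).aestronglyMeasurable
    · intro k
      refine Eventually.of_forall fun t ht => ?_
      rw [uIoc_of_le (by linarith)] at ht
      rw [norm_mul, norm_mul, norm_conj]
      have : ‖exp (-(I * k * t))‖ = 1 := by rw [norm_exp]; simp
      rw [this, mul_one]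
      exact mul_le_mul_of_nonneg_left (hC t ⟨ht.1.le, ht.2⟩) (norm_nonneg _)
    · exact Eventually.of_forall fun t _ => hs.mul_right C
    · exact intervalIntegrable_const
    · refine Eventually.of_forall fun t _ => ?_
      have h2 := cf_expand hUc hper hs.of_norm t
      have h3 := Complex.hasSum_conj'.2 h2
      have h4 := h3.mul_right (W t)
      refine h4.congr_fun fun k => ?_
      rw [map_mul, ← exp_conj]
      have : exp (conj (I * k * t)) = exp (-(I * k * t)) := by
        congr 1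
        simp only [map_mul, conj_I, conj_ofReal, map_intCast]
        ring
      rw [this]; ring
  have h2 : HasSum (fun k : ℤ => I * ((2 * Real.pi * (k * ‖cf U k‖ ^ 2) : ℝ) : ℂ))
      (∫ t in (-Real.pi)..Real.pi, conj (U t) * W t) := by
    refine h1.congr_fun fun k => ?_
    rw [intervalIntegral.integral_const_mul]
    have h3 := cf_deriv hU hWc hper k
    have h4 : ∫ t in (-Real.pi)..Real.pi, W t * exp (-(I * k * t)) = 2 * Real.pi * cf W k := by
      unfold cf
      have : (Real.pi : ℂ) ≠ 0 := by exact_mod_cast Real.pi_ne_zero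
      push_cast
      field_simp
    rw [h4, h3]
    have h5 : conj (cf U k) * cf U k = ((‖cf U k‖ ^ 2 : ℝ) : ℂ) := by
      rw [mul_comm, mul_conj, normSq_eq_norm_sq]
    push_cast at h5 ⊢
    rw [← h5]; ring
  have h3 := Complex.hasSum_im h2
  have h4 := Complex.imCLM.intervalIntegral_comp_comm (μ := MeasureTheory.volume)
    ((by fun_prop : Continuous fun t : ℝ => conj (U t) * W t).intervalIntegrable (-Real.pi) Real.pi)
  simp only [Complex.imCLM_apply] at h4
  rw [h4]
  refine h3.congr_fun fun k => ?_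
  rw [I_mul_im, ofReal_re]

/-- Decay for periodic solutions. -/
lemma LS_dec {l : ℕ} {μ : ℝ} {E : ℂ} {Y : ℝ → ℂ × ℂ} (hY : LS l μ E Y)
    (hper : ∀ t, Y (t + 2 * Real.pi) = Y t) : Summable fun k : ℤ => ‖cf (fun t => (Y t).1) k‖ := by
  have hYc : Continuous Y := continuous_iff_continuousAt.2 fun t => (hY t).continuousAt
  have h1c : Continuous fun t => (Y t).1 := continuous_fst.comp hYc
  have h2c : Continuous fun t => (Y t).2 := continuous_snd.comp hYc
  have hcc : Continuous fun t : ℝ => ((Real.cos t : ℝ) : ℂ) :=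
    Complex.continuous_ofReal.comp Real.continuous_cos
  have hW : ∀ k : ℤ, cf (fun t => (Y t).2) k = I * k * cf (fun t => (Y t).1) k :=
    cf_deriv (fun t => hY.fst t) h2c (fun t => by rw [hper])
  have hWc : Continuous (fun t : ℝ => E * (Y t).1 + I * ((l:ℂ) + 2 * μ * Real.cos t) * (Y t).2) := by
    fun_prop
  obtain ⟨C, hC⟩ := cf_bound2 hWc
  obtain ⟨C0, hC0⟩ := cf_bound2 h1c
  have hdec : ∀ k : ℤ, (k : ℝ) ^ 2 * ‖cf (fun t => (Y t).1) k‖ ≤ C := by
    intro k
    have h3 := cf_deriv (fun t => hY.snd t) hWc (fun t => by rw [hper]) k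
    have h4 := hC k
    rw [h3, hW] at h4
    rw [norm_mul, norm_mul, norm_mul, norm_mul, norm_I, one_mul, norm_intCast] at h4
    rw [← sq_abs, pow_two, mul_assoc]
    exact h4
  refine Summable.of_nonneg_of_le (fun _ => norm_nonneg _) (fun k => ?_)
    (summable_inv_sq.mul_left (2 * (C0 + C)))
  have h5 := hdec k
  have h6 := hC0 k
  have h7 : (0:ℝ) < (1 + |(k:ℝ)|) ^ 2 := by positivity
  rw [mul_one_div, le_div_iff₀ h7]
  have h8 : (1 + |(k:ℝ)|) ^ 2 ≤ 2 * (1 + (k:ℝ) ^ 2) := by
    nlinarith [sq_nonneg (1 - |(k:ℝ)|), sq_abs (k:ℝ)]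
  have h9 := norm_nonneg (cf (fun t => (Y t).1) k)
  calc ‖cf (fun t => (Y t).1) k‖ * (1 + |(k:ℝ)|) ^ 2 ≤
      ‖cf (fun t => (Y t).1) k‖ * (2 * (1 + (k:ℝ) ^ 2)) := mul_le_mul_of_nonneg_left h8 h9
    _ = 2 * (‖cf (fun t => (Y t).1) k‖ + (k:ℝ) ^ 2 * ‖cf (fun t => (Y t).1) k‖) := by ring
    _ ≤ 2 * (C0 + C) := by linarith

/-- Krein positivity at the symmetric orbit through `π/2`. -/
theorem krein {n : ℕ} {m : ℤ} {μ ε : ℝ} (hμ : μ ≠ 0) (hε : ε ≠ 0)
    (h : P (n + 1) (2 * μ) ε (Real.pi / 2) = Real.pi / 2 + 2 * Real.pi * ((1 - n + 2 * m : ℤ) : ℝ))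
    (hne : ¬ ∀ x, P (n + 1) (2 * μ) ε x = x + 2 * Real.pi * ((1 - n + 2 * m : ℤ) : ℝ)) :
    0 < ε * ∫ t in (0:ℝ)..(2 * Real.pi), Real.exp (ε * Cc (fl (n + 1) (2 * μ) ε (Real.pi / 2)) t) *
      Real.sin (fl (n + 1) (2 * μ) ε (Real.pi / 2) t) := by
  obtain ⟨c, hr, hb, hG⟩ := fourier_data2 h
  have h0 : c (-1) = 0 := by
    by_contra h0
    exact hne (rot_of_outer2 h hr hb h0)
  obtain ⟨-, hrep⟩ := poly_rep hμ hr hG h0
  set φ := fl (n + 1) (2 * μ) ε (Real.pi / 2) with hφ
  have hs : Sol ((n + 1 : ℕ) : ℝ) (2 * μ) ε φ := by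
    push_cast; exact fl_sol _ _ _ _
  have hφ0 : φ 0 = Real.pi / 2 := fl_zero _ _ _ _
  have hφ1 : φ (2 * Real.pi) = Real.pi / 2 + 2 * Real.pi * ((1 - n + 2 * m : ℤ) : ℝ) := h
  have hY := UU_LS hs
  set Y := UU ((n + 1 : ℕ) : ℝ) μ ε φ with hYd
  have hC0 : Cc φ (2 * Real.pi) = 0 := (Cc_per h).1
  have hY1 : Y (2 * Real.pi) = Y 0 := by
    rw [hYd]
    unfold UU
    rw [hC0, Cc_zero, Real.sin_two_pi, Real.sin_zero, hφ0, hφ1]
    ext
    · simp only
      rw [exp_eq_exp_iff_exists_int]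
      refine ⟨n - m, ?_⟩
      push_cast; ring
    · simp only
      congr 1
      rw [exp_eq_exp_iff_exists_int]
      refine ⟨1 + m, ?_⟩
      push_cast; ring
  have hper : ∀ t, Y (t + 2 * Real.pi) = Y t := by
    have := hY.shift.unique hY (by simp only [zero_add]; exact hY1)
    exact fun t => congrFun this t
  have hcast : (((n + 1 : ℕ) : ℝ) : ℂ) = ((n + 1 : ℕ) : ℂ) := by push_cast; rfl
  rw [hcast] at hY
  have hsum := LS_dec hY hper
  have hYc : Continuous Y := continuous_iff_continuousAt.2 fun t => (hY t).continuousAt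
  have h2c : Continuous fun t => (Y t).2 := continuous_snd.comp hYc
  have hpars := parseval (fun t => hY.fst t) h2c (fun t => by rw [hper]) hsum
  -- vanishing of the negative coefficients
  set hf : ℂ → ℂ := fun z => exp (-(I * (Real.pi / 4))) * (exp (μ * z) *
    ∑ k ∈ Finset.range (n + 1), (c k : ℂ) * z ^ (n - k)) with hhf
  have hfd : Differentiable ℂ hf := by
    rw [hhf]; fun_prop
  have hU : (fun t => (Y t).1) = fun t : ℝ => hf (exp (I * t)) := by
    funext t
    have h1 := congrArg conj (hrep t)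
    rw [map_sum] at h1
    have h2 : ∑ k ∈ Finset.range (n + 1), (c k : ℂ) * exp (I * t) ^ (n - k) =
        exp (I * n * t) * conj (GG n μ ε φ t) := by
      rw [h1, Finset.mul_sum]
      apply Finset.sum_congr rfl
      intro k hk
      rw [map_mul, conj_ofReal, ← exp_conj, mul_left_comm, ← Complex.exp_add,
        ← Complex.exp_nat_mul]
      congr 2
      have hk2 : k ≤ n := by rw [Finset.mem_range] at hk; omega
      rw [Nat.cast_sub hk2]
      simp only [map_mul, conj_I, conj_ofReal, map_natCast]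
      ring
    rw [hhf]
    simp only
    rw [h2, hYd, GG, ← exp_conj]
    unfold UU
    simp only
    rw [← Complex.exp_add, ← Complex.exp_add, ← Complex.exp_add]
    congr 1
    unfold gg
    simp only [map_add, map_mul, conj_I, conj_ofReal]
    have e3 : exp (I * t) = Real.cos t + I * Real.sin t := by
      rw [mul_comm, exp_mul_I]; push_cast; ring
    rw [e3]
    push_cast
    ring
  have hneg : ∀ k : ℤ, k < 0 → cf (fun t => (Y t).1) k = 0 := by
    intro k hk
    rw [hU]
    exact pos_freq hfd hk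
  -- some positive coefficient
  have hpos : ∃ k : ℤ, 0 < k ∧ cf (fun t => (Y t).1) k ≠ 0 := by
    by_contra hcon
    push Not at hcon
    have hW0 : ∀ t, (Y t).2 = 0 := by
      intro t
      have h1c : Continuous fun t => (Y t).1 := continuous_fst.comp hYc
      have hconst : ∀ t, (Y t).1 = cf (fun t => (Y t).1) 0 := by
        intro t
        have h1 := cf_expand h1c (fun t => by rw [hper]) hsum.of_norm t
        have h2 := hasSum_single (f := fun k : ℤ => cf (fun t => (Y t).1) k * exp (I * k * t)) 0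
          (fun k hk => by
            rcases lt_or_gt_of_ne hk with h3 | h3
            · rw [hneg k h3, zero_mul]
            · rw [hcon k h3, zero_mul])
        have h3 := h1.unique h2
        simpa using h3
      have h8 := hY.fst t
      have h9 : (fun t => (Y t).1) = fun _ => cf (fun t => (Y t).1) 0 := funext hconst
      rw [h9] at h8
      exact h8.unique (hasDerivAt_const t _)
    have h1 := hW0 0
    rw [hYd] at h1
    unfold UU at h1
    simp only at h1
    rcases mul_eq_zero.1 h1 with h2 | h2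
    · rw [ofReal_eq_zero] at h2
      exact hε (by linarith)
    · exact exp_ne_zero _ h2
  obtain ⟨k, hk0, hk⟩ := hpos
  have hposint : 0 < ∫ t in (-Real.pi)..Real.pi, (conj (Y t).1 * (Y t).2).im := by
    have hnn : ∀ k : ℤ, 0 ≤ 2 * Real.pi * (k * ‖cf (fun t => (Y t).1) k‖ ^ 2) := by
      intro k
      rcases lt_or_ge k 0 with h3 | h3
      · rw [hneg k h3]; simp
      · have : (0:ℝ) ≤ k := by exact_mod_cast h3
        positivity
    have h4 : 2 * Real.pi * (k * ‖cf (fun t => (Y t).1) k‖ ^ 2) ≤ _ :=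
      le_hasSum hpars k (fun j _ => hnn j)
    refine lt_of_lt_of_le ?_ h4
    have h5 : (0:ℝ) < k := by exact_mod_cast hk0
    have h6 := norm_pos_iff.2 hk
    positivity
  have him : ∀ t, (conj (Y t).1 * (Y t).2).im = ε / 2 * (Real.exp (ε * Cc φ t) * Real.sin (φ t)) := by
    intro t
    have e1 : conj (Y t).1 * (Y t).2 = ((ε / 2 : ℝ) : ℂ) *
        exp (((ε * Cc φ t : ℝ) : ℂ) + (φ t : ℂ) * I) := by
      rw [hYd]
      unfold UU
      simp only
      rw [← exp_conj, mul_left_comm, ← Complex.exp_add]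
      congr 2
      simp only [map_add, map_mul, conj_I, conj_ofReal]
      push_cast
      ring
    rw [e1, im_ofReal_mul, exp_im]
    simp
  have hfin : ∫ t in (-Real.pi)..Real.pi, (conj (Y t).1 * (Y t).2).im =
      ε / 2 * ∫ t in (0:ℝ)..(2 * Real.pi), Real.exp (ε * Cc φ t) * Real.sin (φ t) := by
    simp_rw [him]
    rw [intervalIntegral.integral_const_mul]
    congr 1
    apply shift_int
    intro t
    have h5 := him (t + 2 * Real.pi)
    rw [hper, him] at h5
    have h6 : ε / 2 ≠ 0 := div_ne_zero hε two_ne_zero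
    exact (mul_left_cancel₀ h6 h5).symm
  rw [hfin] at hposint
  linarith

end Pool.Agent.W625.JT
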