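import Pool.Agent.W625.JT.E

set_option autoImplicit false

open Set Filter Topology H535R3

namespace Pool.Agent.W625.JT

lemma Cc_congr {φ ψ : ℝ → ℝ} (h : ∀ t, Real.cos (φ t) = Real.cos (ψ t)) (t : ℝ) : Cc φ t = Cc ψ t := by
  unfold Cc
  congr 1
  funext s; exact h s

/-- The two conclusions transported along `x ↦ x + 2 π m`. -/
lemma transport {b a ε x : ℝ} (m : ℤ) (h : Cc (fl b a ε x) (2 * Real.pi) = 0 ∧
    0 < ∫ t in (0:ℝ)..(2 * Real.pi), Real.exp (ε * Cc (fl b a ε x) t) * Real.sin (fl b a ε x t)) :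
    Cc (fl b a ε (x + 2 * Real.pi * m)) (2 * Real.pi) = 0 ∧
    0 < ∫ t in (0:ℝ)..(2 * Real.pi), Real.exp (ε * Cc (fl b a ε (x + 2 * Real.pi * m)) t) *
      Real.sin (fl b a ε (x + 2 * Real.pi * m) t) := by
  have e1 : ∀ t, fl b a ε (x + 2 * Real.pi * m) t = fl b a ε x t + m * (2 * Real.pi) := by
    intro t; rw [fl_add]; ring
  have e2 : ∀ t, Cc (fl b a ε (x + 2 * Real.pi * m)) t = Cc (fl b a ε x) t := by
    apply Cc_congr
    intro t; rw [e1, Real.cos_add_int_mul_two_pi]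
  constructor
  · rw [e2]; exact h.1
  · simp_rw [e2, e1, Real.sin_add_int_mul_two_pi]
    exact h.2

/-- Krein positivity at a one-sided periodic orbit. -/
theorem krein_gen {n : ℕ} {r : ℤ} {μ ε x0 : ℝ} (hμ : 0 < μ) (hε : 0 < ε) (hr : Even ((n:ℤ) + 1 + r))
    (hx : P (n + 1) (2 * μ) ε x0 = x0 + 2 * Real.pi * r)
    (hone : (∀ x, x + 2 * Real.pi * r ≤ P (n + 1) (2 * μ) ε x) ∨
      (∀ x, P (n + 1) (2 * μ) ε x ≤ x + 2 * Real.pi * r))
    (hne : ¬ ∀ x, P (n + 1) (2 * μ) ε x = x + 2 * Real.pi * r) :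
    Cc (fl (n + 1) (2 * μ) ε x0) (2 * Real.pi) = 0 ∧
    0 < ∫ t in (0:ℝ)..(2 * Real.pi), Real.exp (ε * Cc (fl (n + 1) (2 * μ) ε x0) t) *
      Real.sin (fl (n + 1) (2 * μ) ε x0 t) := by
  obtain ⟨m, hm⟩ : ∃ m : ℤ, r = 1 - n + 2 * m := by
    obtain ⟨k, hk⟩ := hr
    exact ⟨k - 1, by omega⟩
  have hrefl := P_reflect hx
  have hsin : Real.sin ((Real.pi - x0 - x0) / 2) = 0 := by
    by_contra hs
    rcases dich hx hrefl hs with ⟨h1, -⟩ | ⟨-, ⟨y, hy⟩, ⟨z, hz⟩⟩
    · exact hne h1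
    · rcases hone with h2 | h2
      · exact absurd (h2 z) (not_le.2 hz)
      · exact absurd (h2 y) (not_le.2 hy)
  obtain ⟨k, hk⟩ := Real.sin_eq_zero_iff.1 hsin
  have hx0 : x0 = Real.pi / 2 - k * Real.pi := by linarith
  -- the case of `π/2`
  have case1 : ∀ e : ℝ, e ≠ 0 → P (n + 1) (2 * μ) e (Real.pi / 2) = Real.pi / 2 + 2 * Real.pi * r →
      (¬ ∀ x, P (n + 1) (2 * μ) e x = x + 2 * Real.pi * r) →
      Cc (fl (n + 1) (2 * μ) e (Real.pi / 2)) (2 * Real.pi) = 0 ∧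
      0 < e * ∫ t in (0:ℝ)..(2 * Real.pi), Real.exp (e * Cc (fl (n + 1) (2 * μ) e (Real.pi / 2)) t) *
        Real.sin (fl (n + 1) (2 * μ) e (Real.pi / 2) t) := by
    intro e he h1 h2
    refine ⟨(Cc_per h1).1, ?_⟩
    rw [hm] at h1 h2
    exact krein hμ.ne' he h1 h2
  rcases Int.even_or_odd k with ⟨j, hj⟩ | ⟨j, hj⟩
  · have hx0' : x0 = Real.pi / 2 + 2 * Real.pi * ((-j : ℤ) : ℝ) := by
      rw [hx0, hj]; push_cast; ring
    have h1 : P (n + 1) (2 * μ) ε (Real.pi / 2) = Real.pi / 2 + 2 * Real.pi * r := by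
      have := hx
      rw [hx0', P_add] at this
      linarith
    obtain ⟨h2, h3⟩ := case1 ε hε.ne' h1 hne
    have h4 := (mul_pos_iff_of_pos_left hε).1 h3
    rw [hx0']
    exact transport (-j) ⟨h2, h4⟩
  · have hx0' : x0 = -(Real.pi / 2) + 2 * Real.pi * ((-j : ℤ) : ℝ) := by
      rw [hx0, hj]; push_cast; ring
    have h1 : P (n + 1) (2 * μ) ε (-(Real.pi / 2)) = -(Real.pi / 2) + 2 * Real.pi * r := by
      have := hx
      rw [hx0', P_add] at this
      linarith
    have hneg : ∀ x, P (n + 1) (2 * μ) (-ε) (x + Real.pi) = P (n + 1) (2 * μ) ε x + Real.pi := by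
      intro x
      have := (P_neg (n + 1) (2 * μ) ε x).1
      linarith
    have h2 : P (n + 1) (2 * μ) (-ε) (Real.pi / 2) = Real.pi / 2 + 2 * Real.pi * r := by
      have := hneg (-(Real.pi / 2))
      rw [show -(Real.pi / 2) + Real.pi = Real.pi / 2 by ring, h1] at this
      rw [this]; ring
    have h3 : ¬ ∀ x, P (n + 1) (2 * μ) (-ε) x = x + 2 * Real.pi * r := by
      intro hall
      apply hne
      intro x
      have := hneg x
      rw [hall] at this
      linarith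
    obtain ⟨h4, h5⟩ := case1 (-ε) (neg_ne_zero.2 hε.ne') h2 h3
    have hfl : ∀ t, fl (n + 1) (2 * μ) (-ε) (Real.pi / 2) t =
        fl (n + 1) (2 * μ) ε (-(Real.pi / 2)) t + Real.pi := by
      intro t
      have h6 := (fl_sol (n + 1) (2 * μ) ε (-(Real.pi / 2))).add_pi.eq_fl
      simp only [fl_zero] at h6
      rw [show -(Real.pi / 2) + Real.pi = Real.pi / 2 by ring] at h6
      exact (congrFun h6 t).symm
    have hCc : ∀ t, Cc (fl (n + 1) (2 * μ) (-ε) (Real.pi / 2)) t =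
        -(Cc (fl (n + 1) (2 * μ) ε (-(Real.pi / 2))) t) := by
      intro t
      unfold Cc
      simp_rw [hfl, Real.cos_add_pi]
      rw [intervalIntegral.integral_neg]
    rw [hx0']
    apply transport
    constructor
    · rw [hCc] at h4; linarith
    · simp_rw [hCc, hfl, Real.sin_add_pi] at h5
      have e1 : (fun t => Real.exp (-ε * -(Cc (fl (n + 1) (2 * μ) ε (-(Real.pi / 2))) t)) *
          -Real.sin (fl (n + 1) (2 * μ) ε (-(Real.pi / 2)) t)) =
          fun t => -(Real.exp (ε * (Cc (fl (n + 1) (2 * μ) ε (-(Real.pi / 2))) t)) *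
          Real.sin (fl (n + 1) (2 * μ) ε (-(Real.pi / 2)) t)) := by
        funext t
        rw [neg_mul_neg]; ring
      rw [e1, intervalIntegral.integral_neg, neg_mul_neg] at h5
      exact (mul_pos_iff_of_pos_left hε).1 h5

lemma Cc_abs {φ : ℝ → ℝ} {t : ℝ} (ht : t ∈ Icc 0 (2 * Real.pi)) : |Cc φ t| ≤ 2 * Real.pi := by
  have h := intervalIntegral.norm_integral_le_of_norm_le_const (a := (0:ℝ)) (b := t) (C := 1)
    (f := fun s => Real.cos (φ s)) (fun s _ => by
      rw [Real.norm_eq_abs]; exact Real.abs_cos_le_one _)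
  rw [Real.norm_eq_abs, sub_zero, one_mul, abs_of_nonneg ht.1] at h
  exact h.trans ht.2

lemma cont_fl (b a : ℝ) {t : ℝ} (ht : t ∈ Icc 0 (2 * Real.pi)) :
    Continuous fun p : ℝ × ℝ => fl b a p.1 p.2 t := by
  rw [continuous_iff_continuousAt]
  rintro ⟨ε, x⟩
  rw [ContinuousAt, tendsto_iff_dist_tendsto_zero]
  have hb : Tendsto (fun p : ℝ × ℝ => dist x p.2 * Real.exp ((|ε| + 1) * t) +
       |p.1 - ε| / (|ε| + 1) * (Real.exp ((|ε| + 1) * t) - 1)) (𝓝 (ε, x)) (𝓝 0) := by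
    have hc : Continuous (fun p : ℝ × ℝ => dist x p.2 * Real.exp ((|ε| + 1) * t) +
       |p.1 - ε| / (|ε| + 1) * (Real.exp ((|ε| + 1) * t) - 1)) := by fun_prop
    have := hc.tendsto (ε, x)
    simpa using this
  refine squeeze_zero (fun _ => dist_nonneg) (fun p => ?_) hb
  rw [dist_comm]
  have h := fl_dist b a ε x b a p.1 p.2 t ht
  have hK : ((KK ε : NNReal) : ℝ) = |ε| + 1 := rfl
  rw [gronwallBound_of_K_ne_0 (by rw [hK]; positivity), hK, sub_zero, zero_add] at h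
  simpa using h

lemma cont_Cc (b a : ℝ) {t : ℝ} (ht : t ∈ Icc 0 (2 * Real.pi)) :
    Continuous fun p : ℝ × ℝ => Cc (fl b a p.1 p.2) t := by
  unfold Cc
  refine intervalIntegral.continuous_of_dominated_interval (bound := fun _ => 1) ?_ ?_ ?_ ?_
  · intro p
    exact (Real.continuous_cos.comp (fl_sol b a p.1 p.2).cont).aestronglyMeasurable
  · intro p
    refine Eventually.of_forall fun s _ => ?_
    rw [Real.norm_eq_abs]; exact Real.abs_cos_le_one _
  · exact intervalIntegrable_const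
  · refine Eventually.of_forall fun s hs => ?_
    rw [uIoc_of_le ht.1] at hs
    exact Real.continuous_cos.comp (cont_fl b a ⟨hs.1.le, hs.2.trans ht.2⟩)

/-- The integrand of the comparison formula. -/
noncomputable def Jf (b a ε : ℝ) (p : ℝ × ℝ) (u : ℝ) : ℝ :=
  Real.sin (fl b a p.1 p.2 u) * Real.cos ((fl b a p.1 p.2 u - fl b a ε p.2 u) / 2) *
    Real.exp (ε / 2 * (Cc (fl b a ε p.2) u + Cc (fl b a p.1 p.2) u))

lemma Cc_cont {φ : ℝ → ℝ} (h : Continuous φ) : Continuous (Cc φ) :=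
  continuous_iff_continuousAt.2 fun t => (Cc_deriv h t).continuousAt

lemma Jf_cont (b a ε : ℝ) (p : ℝ × ℝ) : Continuous (Jf b a ε p) := by
  have h1 := (fl_sol b a p.1 p.2).cont
  have h2 := (fl_sol b a ε p.2).cont
  have h3 := Cc_cont h1
  have h4 := Cc_cont h2
  unfold Jf
  fun_prop

/-- Comparison formula. -/
lemma push_formula (b a ε ε' x : ℝ) :
    Real.sin ((P b a ε' x - P b a ε x) / 2) *
      Real.exp (ε / 2 * (Cc (fl b a ε x) (2 * Real.pi) + Cc (fl b a ε' x) (2 * Real.pi))) =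
    -((ε' - ε) / 2) * ∫ u in (0:ℝ)..(2 * Real.pi), Jf b a ε (ε', x) u := by
  have hd : ∀ t, HasDerivAt (fun t => Real.sin ((fl b a ε' x t - fl b a ε x t) / 2) *
      Real.exp (ε / 2 * (Cc (fl b a ε x) t + Cc (fl b a ε' x) t)))
      (-((ε' - ε) / 2) * Jf b a ε (ε', x) t) t := by
    intro t
    have h1 := fl_sol b a ε x t
    have h2 := fl_sol b a ε' x t
    have c1 := Cc_deriv (fl_sol b a ε x).cont t
    have c2 := Cc_deriv (fl_sol b a ε' x).cont t
    have h3 := (((h2.sub h1).div_const 2).sin).mul (((c1.add c2).const_mul (ε / 2)).exp)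
    refine h3.congr_deriv ?_
    unfold Jf
    simp only [Pi.sub_apply, Pi.add_apply]
    set φ := fl b a ε x t
    set ψ := fl b a ε' x t
    have e1 : Real.sin ψ - Real.sin φ = 2 * Real.sin ((ψ - φ) / 2) * Real.cos ((ψ + φ) / 2) :=
      Real.sin_sub_sin ψ φ
    have e2 : Real.cos ψ + Real.cos φ = 2 * Real.cos ((ψ + φ) / 2) * Real.cos ((ψ - φ) / 2) :=
      Real.cos_add_cos ψ φ
    set X := Real.exp (ε / 2 * (Cc (fl b a ε x) t + Cc (fl b a ε' x) t))
    linear_combination (-(ε / 2) * Real.cos ((ψ - φ) / 2) * X) * e1 +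
      (Real.sin ((ψ - φ) / 2) * X * (ε / 2)) * e2
  have h1 := intervalIntegral.integral_eq_sub_of_hasDerivAt (a := (0:ℝ)) (b := 2 * Real.pi)
    (fun t _ => hd t) ((continuous_const.mul (Jf_cont b a ε (ε', x))).intervalIntegrable _ _)
  rw [intervalIntegral.integral_const_mul] at h1
  rw [h1]
  simp only [fl_zero, sub_self, zero_div, Real.sin_zero, zero_mul, sub_zero]
  rfl

/-- Pushing in the direction of `ε`. -/
lemma push_eps {b a ε x0 : ℝ} (hpos : 0 < ∫ t in (0:ℝ)..(2 * Real.pi),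
      Real.exp (ε * Cc (fl b a ε x0) t) * Real.sin (fl b a ε x0 t)) :
    ∀ᶠ p : ℝ × ℝ in 𝓝 (ε, x0), (p.1 < ε → P b a ε p.2 < P b a p.1 p.2) ∧
      (ε < p.1 → P b a p.1 p.2 < P b a ε p.2) := by
  have hJc : Continuous fun p : ℝ × ℝ => ∫ u in (0:ℝ)..(2 * Real.pi), Jf b a ε p u := by
    refine intervalIntegral.continuous_of_dominated_interval
      (bound := fun _ => Real.exp (|ε| / 2 * (2 * Real.pi + 2 * Real.pi))) ?_ ?_ ?_ ?_
    · intro p
      exact (Jf_cont b a ε p).aestronglyMeasurable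
    · intro p
      refine Eventually.of_forall fun s hs => ?_
      rw [uIoc_of_le Real.two_pi_pos.le] at hs
      have hs' : s ∈ Icc 0 (2 * Real.pi) := ⟨hs.1.le, hs.2⟩
      unfold Jf
      rw [Real.norm_eq_abs, abs_mul, abs_mul, abs_of_pos (Real.exp_pos _)]
      have h1 : |Real.sin (fl b a p.1 p.2 s)| * |Real.cos ((fl b a p.1 p.2 s - fl b a ε p.2 s) / 2)| ≤
          1 := mul_le_one₀ (Real.abs_sin_le_one _) (abs_nonneg _) (Real.abs_cos_le_one _)
      have h2 : ε / 2 * (Cc (fl b a ε p.2) s + Cc (fl b a p.1 p.2) s) ≤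
          |ε| / 2 * (2 * Real.pi + 2 * Real.pi) := by
        refine (le_abs_self _).trans ?_
        rw [abs_mul, abs_div, abs_two]
        apply mul_le_mul_of_nonneg_left _ (by positivity)
        exact (abs_add_le _ _).trans (add_le_add (Cc_abs hs') (Cc_abs hs'))
      calc _ ≤ 1 * Real.exp (|ε| / 2 * (2 * Real.pi + 2 * Real.pi)) :=
            mul_le_mul h1 (Real.exp_le_exp.2 h2) (Real.exp_pos _).le zero_le_one
        _ = _ := one_mul _
    · exact intervalIntegrable_const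
    · refine Eventually.of_forall fun s hs => ?_
      rw [uIoc_of_le Real.two_pi_pos.le] at hs
      have hs' : s ∈ Icc 0 (2 * Real.pi) := ⟨hs.1.le, hs.2⟩
      have h1 := cont_fl b a hs'
      have h2 : Continuous fun p : ℝ × ℝ => fl b a ε p.2 s :=
        h1.comp (f := fun p : ℝ × ℝ => (ε, p.2)) (by fun_prop)
      have h3 := cont_Cc b a hs'
      have h4 : Continuous fun p : ℝ × ℝ => Cc (fl b a ε p.2) s :=
        h3.comp (f := fun p : ℝ × ℝ => (ε, p.2)) (by fun_prop)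
      unfold Jf
      fun_prop
  have hJ0 : 0 < ∫ u in (0:ℝ)..(2 * Real.pi), Jf b a ε (ε, x0) u := by
    have : Jf b a ε (ε, x0) = fun t => Real.exp (ε * Cc (fl b a ε x0) t) * Real.sin (fl b a ε x0 t) := by
      funext t
      unfold Jf
      simp only [sub_self, zero_div, Real.cos_zero, mul_one]
      rw [mul_comm]
      congr 2
      ring
    rw [this]; exact hpos
  have h1 : ∀ᶠ p : ℝ × ℝ in 𝓝 (ε, x0), 0 < ∫ u in (0:ℝ)..(2 * Real.pi), Jf b a ε p u :=
    hJc.continuousAt.eventually_const_lt hJ0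
  have hPc : Continuous fun p : ℝ × ℝ => |P b a p.1 p.2 - P b a ε p.2| := by
    have e1 : Continuous fun p : ℝ × ℝ => P b a p.1 p.2 :=
      continuous_P.comp (f := fun p : ℝ × ℝ => (b, a, p.1, p.2)) (by fun_prop)
    have e2 : Continuous fun p : ℝ × ℝ => P b a ε p.2 :=
      continuous_P.comp (f := fun p : ℝ × ℝ => (b, a, ε, p.2)) (by fun_prop)
    fun_prop
  have h2 : ∀ᶠ p : ℝ × ℝ in 𝓝 (ε, x0), |P b a p.1 p.2 - P b a ε p.2| < 2 * Real.pi := by
    refine hPc.continuousAt.eventually_lt_const ?_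
    simp only [sub_self, abs_zero]
    exact Real.two_pi_pos
  filter_upwards [h1, h2] with p hp1 hp2
  have hf := push_formula b a ε p.1 p.2
  rw [abs_lt] at hp2
  have hE := Real.exp_pos (ε / 2 * (Cc (fl b a ε p.2) (2 * Real.pi) + Cc (fl b a p.1 p.2) (2 * Real.pi)))
  constructor
  · intro hlt
    by_contra hcon
    push Not at hcon
    have h3 : Real.sin ((P b a p.1 p.2 - P b a ε p.2) / 2) ≤ 0 :=
      Real.sin_nonpos_of_nonpos_of_neg_pi_le (by linarith) (by linarith)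
    have h4 : 0 < -((p.1 - ε) / 2) * ∫ u in (0:ℝ)..(2 * Real.pi), Jf b a ε (p.1, p.2) u :=
      mul_pos (by linarith) hp1
    rw [← hf] at h4
    nlinarith
  · intro hlt
    by_contra hcon
    push Not at hcon
    have h3 : 0 ≤ Real.sin ((P b a p.1 p.2 - P b a ε p.2) / 2) :=
      Real.sin_nonneg_of_nonneg_of_le_pi (by linarith) (by linarith)
    have h4 : -((p.1 - ε) / 2) * (∫ u in (0:ℝ)..(2 * Real.pi), Jf b a ε (p.1, p.2) u) < 0 :=
      mul_neg_of_neg_of_pos (by linarith) hp1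
    rw [← hf] at h4
    nlinarith

end Pool.Agent.W625.JT
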