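import Pool.Agent.W625.JT.F

set_option autoImplicit false

open Set Filter Topology H535R3

namespace Pool.Agent.W625.JT

lemma zero_b2 (a ε : ℝ) : ∃ y, y ≤ P 0 a ε y := by
  obtain ⟨y, hy⟩ := zero_b (-a) ε
  have h := fl_flip 0 a ε (-y) (2 * Real.pi)
  rw [neg_neg, neg_zero] at h
  refine ⟨-y, ?_⟩
  have h2 : P 0 (-a) ε y = -(P 0 a ε (-y)) := h
  rw [h2] at hy
  linarith

/-- No identity monodromy with number smaller than `n + 1`. -/
lemma not_ident_lt {n : ℕ} {r : ℤ} {μ ε : ℝ} (hμ : 0 < μ) (hε : 0 < ε) (hr : r < n + 1) :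
    ¬ ∀ x, P (n + 1) (2 * μ) ε x = x + 2 * Real.pi * r := by
  intro hall
  rcases lt_or_ge r 1 with h1 | h1
  · obtain ⟨y, hy⟩ := zero_b2 (2 * μ) ε
    have h2 : P 0 (2 * μ) ε y < P (n + 1) (2 * μ) ε y := P_lt_of_b (by positivity)
    rw [hall] at h2
    have h3 : (r:ℝ) ≤ 0 := by
      have : r ≤ 0 := by omega
      exact_mod_cast this
    have := Real.pi_pos
    nlinarith
  · obtain ⟨k, hk⟩ := Int.eq_ofNat_of_zero_le (by omega : 0 ≤ r)
    subst hk
    have h2 := ident_axis (r := k) (by exact_mod_cast h1) hε (by positivity : 0 < 2 * μ)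
      (b := (n:ℝ) + 1) (by intro x; rw [hall]; push_cast; rfl)
    have h3 : n + 1 = k := by exact_mod_cast h2
    have h4 : (k:ℤ) < n + 1 := hr
    omega

/-- A one-sided fixed point has `K = 0`. -/
lemma one_sided_K {b a ε x0 : ℝ} {r : ℤ} (hx : P b a ε x0 = x0 + 2 * Real.pi * r)
    (hone : (∀ x, x + 2 * Real.pi * r ≤ P b a ε x) ∨ (∀ x, P b a ε x ≤ x + 2 * Real.pi * r)) :
    Kx b a ε x0 = 0 := by
  have hrefl := P_reflect hx
  by_cases hs : Real.sin ((Real.pi - x0 - x0) / 2) = 0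
  · obtain ⟨k, hk⟩ := Real.sin_eq_zero_iff.1 hs
    have hx0 : x0 = Real.pi / 2 - k * Real.pi := by linarith
    have htr : ∀ (y : ℝ) (m : ℤ), Kx b a ε (y + 2 * Real.pi * m) = Kx b a ε y := by
      intro y m
      unfold Kx
      congr 1
      apply Cc_congr
      intro t
      rw [fl_add, show fl b a ε y t + 2 * Real.pi * m = fl b a ε y t + m * (2 * Real.pi) by ring,
        Real.cos_add_int_mul_two_pi]
    rcases Int.even_or_odd k with ⟨j, hj⟩ | ⟨j, hj⟩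
    · have hx0' : x0 = Real.pi / 2 + 2 * Real.pi * ((-j : ℤ) : ℝ) := by
        rw [hx0, hj]; push_cast; ring
      have h1 : P b a ε (Real.pi / 2) = Real.pi / 2 + 2 * Real.pi * r := by
        have := hx
        rw [hx0', P_add] at this
        linarith
      rw [hx0', htr]
      exact Kx_sym h1
    · have hx0' : x0 = -(Real.pi / 2) + 2 * Real.pi * ((-j : ℤ) : ℝ) := by
        rw [hx0, hj]; push_cast; ring
      have h1 : P b a ε (-(Real.pi / 2)) = -(Real.pi / 2) + 2 * Real.pi * r := by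
        have := hx
        rw [hx0', P_add] at this
        linarith
      obtain ⟨h2, h3⟩ := P_neg b a ε (-(Real.pi / 2))
      rw [show -(Real.pi / 2) + Real.pi = Real.pi / 2 by ring] at h2 h3
      rw [hx0', htr, h3]
      apply Kx_sym (m := r)
      linarith
  · rcases dich hx hrefl hs with ⟨h1, -⟩ | ⟨-, ⟨y, hy⟩, ⟨z, hz⟩⟩
    · -- identity
      have e1 := K_add_zero (h1 x0) (h1 (x0 + 1)) (by
        rw [show (x0 - (x0 + 1)) / 2 = -(1 / 2) by ring, Real.sin_neg]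
        have : 0 < Real.sin (1 / 2) := Real.sin_pos_of_pos_of_lt_pi (by norm_num)
          (by linarith [Real.pi_gt_three])
        linarith)
      have e2 := K_add_zero (h1 x0) (h1 (x0 + 2)) (by
        rw [show (x0 - (x0 + 2)) / 2 = -1 by ring, Real.sin_neg]
        have : 0 < Real.sin 1 := Real.sin_pos_of_pos_of_lt_pi (by norm_num)
          (by linarith [Real.pi_gt_three])
        linarith)
      have e3 := K_add_zero (h1 (x0 + 1)) (h1 (x0 + 2)) (by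
        rw [show (x0 + 1 - (x0 + 2)) / 2 = -(1 / 2) by ring, Real.sin_neg]
        have : 0 < Real.sin (1 / 2) := Real.sin_pos_of_pos_of_lt_pi (by norm_num)
          (by linarith [Real.pi_gt_three])
        linarith)
      linarith
    · rcases hone with h2 | h2
      · exact absurd (h2 z) (not_le.2 hz)
      · exact absurd (h2 y) (not_le.2 hy)

/-- The time `2π` map in terms of `E = ε ^ 2 / 4`. -/
noncomputable def QQ (n : ℕ) (μ E x : ℝ) : ℝ := P (n + 1) (2 * μ) (2 * Real.sqrt E) x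

lemma QQ_cont (n : ℕ) (μ : ℝ) : Continuous fun p : ℝ × ℝ => QQ n μ p.1 p.2 :=
  continuous_P.comp (f := fun p : ℝ × ℝ => ((n:ℝ) + 1, 2 * μ, 2 * Real.sqrt p.1, p.2)) (by fun_prop)

lemma QQ_zero (n : ℕ) (μ x : ℝ) : QQ n μ 0 x = x + 2 * Real.pi * (n + 1) := by
  unfold QQ; rw [Real.sqrt_zero, mul_zero, P_zero]

/-- The real discriminant. -/
noncomputable def gr (n : ℕ) (μ E : ℝ) : ℝ := (ff (n + 1) μ (E : ℂ)).re

lemma gr_cast (n : ℕ) (μ E : ℝ) : ((gr n μ E : ℝ) : ℂ) = ff (n + 1) μ (E : ℂ) := by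
  have h := ff_sym (n + 1) μ (E : ℂ)
  rw [Complex.conj_ofReal] at h
  exact Complex.conj_eq_iff_re.1 h.symm

lemma gr_cont (n : ℕ) (μ : ℝ) : Continuous (gr n μ) :=
  Complex.continuous_re.comp ((ff_diff (n + 1) μ).continuous.comp Complex.continuous_ofReal)

lemma gr_zero (n : ℕ) (μ : ℝ) : gr n μ 0 = 0 := by
  unfold gr; rw [Complex.ofReal_zero, ff_zero]; rfl

lemma sq4 {E : ℝ} (hE : 0 < E) : (2 * Real.sqrt E) ^ 2 / 4 = E := by
  rw [mul_pow, Real.sq_sqrt hE.le]; ring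

lemma gr_fixed {n : ℕ} {μ E x : ℝ} {r : ℤ} (hE : 0 < E) (hx : QQ n μ E x = x + 2 * Real.pi * r) :
    (Even ((n:ℤ) + 1 + r) → gr n μ E = 1 - Real.cosh (Kx (n + 1) (2 * μ) (2 * Real.sqrt E) x)) ∧
    (¬ Even ((n:ℤ) + 1 + r) → gr n μ E = 1 + Real.cosh (Kx (n + 1) (2 * μ) (2 * Real.sqrt E) x)) := by
  have hx' : P ((n + 1 : ℕ) : ℝ) (2 * μ) (2 * Real.sqrt E) x = x + 2 * Real.pi * r := by
    push_cast; exact hx
  have h := NN_of_fixed hx'
  rw [sq4 hE] at h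
  push_cast at h
  have hg : gr n μ E = 1 - (NN ((n:ℂ) + 1) μ E).re / 2 := by
    unfold gr ff
    rw [Complex.sub_re, Complex.one_re, Complex.div_ofNat_re]
    push_cast
    rfl
  have hre : (NN ((n:ℂ) + 1) μ E).re = (-1 : ℝ) ^ ((n:ℤ) + 1 + r) *
      (2 * Real.cosh (Kx (n + 1) (2 * μ) (2 * Real.sqrt E) x)) := by
    have h2 : NN ((n:ℂ) + 1) μ E = (((-1 : ℝ) ^ ((n:ℤ) + 1 + r) *
      (2 * Real.cosh (Kx (n + 1) (2 * μ) (2 * Real.sqrt E) x)) : ℝ) : ℂ) := by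
      rw [h]; push_cast; rfl
    rw [h2, Complex.ofReal_re]
  rw [hg, hre]
  constructor
  · intro he
    rw [he.neg_one_zpow]; ring
  · intro he
    rw [(Int.not_even_iff_odd.1 he).neg_one_zpow]; ring

lemma fixed_of_gr {n : ℕ} {μ E : ℝ} (hE : 0 < E) (h : gr n μ E ≤ 0 ∨ 2 ≤ gr n μ E) :
    ∃ (x : ℝ) (r : ℤ), QQ n μ E x = x + 2 * Real.pi * r := by
  have hg : gr n μ E = 1 - (NN ((n + 1 : ℕ) : ℂ) μ E).re / 2 := by
    unfold gr ff
    rw [Complex.sub_re, Complex.one_re, Complex.div_ofNat_re]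
  have hs : 2 * Real.sqrt E ≠ 0 := by
    have := Real.sqrt_pos.2 hE
    positivity
  have h1 := fixed_of_NN (l := n + 1) (μ := μ) (ε := 2 * Real.sqrt E) hs (by
    rw [sq4 hE]
    rcases h with h | h
    · refine le_trans ?_ (le_abs_self _)
      linarith
    · refine le_trans ?_ (neg_le_abs _)
      linarith)
  obtain ⟨x, r, hx⟩ := h1
  refine ⟨x, r, ?_⟩
  unfold QQ
  push_cast at hx
  exact hx

lemma entire_eq {F : ℂ → ℂ} (hF : Differentiable ℂ F) {c : ℂ} {a b : ℝ} (hab : a < b)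
    (h : ∀ x : ℝ, x ∈ Ioo a b → F x = c) (z : ℂ) : F z = c := by
  have hm : (a + b) / 2 ∈ Ioo a b := ⟨by linarith, by linarith⟩
  have heq : F = fun _ => c := by
    apply AnalyticOnNhd.eq_of_frequently_eq (z₀ := (((a + b) / 2 : ℝ) : ℂ))
      (fun z _ => hF.analyticAt z) (fun z _ => analyticAt_const)
    have ht : Tendsto (fun x : ℝ => (x : ℂ)) (𝓝[≠] ((a + b) / 2)) (𝓝[≠] (((a + b) / 2 : ℝ) : ℂ)) := by
      rw [tendsto_nhdsWithin_iff]
      constructor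
      · exact (Complex.continuous_ofReal.tendsto _).mono_left nhdsWithin_le_nhds
      · filter_upwards [self_mem_nhdsWithin] with x hx
        intro h2
        rw [mem_singleton_iff, Complex.ofReal_inj] at h2
        exact hx h2
    apply ht.frequently
    apply Eventually.frequently
    have : Ioo a b ∈ 𝓝[≠] ((a + b) / 2) := mem_nhdsWithin_of_mem_nhds (Ioo_mem_nhds hm.1 hm.2)
    filter_upwards [this] with x hx
    exact h x hx
  rw [heq]

lemma not_two {n : ℕ} {μ a b : ℝ} (hab : a < b) (h : ∀ x ∈ Ioo a b, gr n μ x = 2) : False := by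
  have h1 := entire_eq (ff_diff (n + 1) μ) (c := 2) hab (fun x hx => by
    rw [← gr_cast, h x hx]; norm_num) 0
  rw [ff_zero] at h1
  norm_num at h1

lemma gr_conc {n : ℕ} {μ a b : ℝ} (h : ∀ x ∈ Icc a b, 0 < gr n μ x) (hab : a ≤ b) :
    ConcaveOn ℝ (Icc a b) (fun x : ℝ => Real.log (gr n μ x)) := by
  have h1 : ∀ x ∈ Icc a b, ff (n + 1) μ (x : ℂ) ≠ 0 := by
    intro x hx h0
    have := h x hx
    rw [← gr_cast] at h0
    have h2 : gr n μ x = 0 := by exact_mod_cast h0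
    linarith
  refine (ff_conc (h1 a ⟨le_rfl, hab⟩) h1).congr ?_
  intro x hx
  simp only
  rw [← gr_cast, Complex.norm_real, Real.norm_eq_abs, abs_of_pos (h x hx)]

lemma quasi {n : ℕ} {μ a b y : ℝ} (h : ∀ x ∈ Icc a b, 0 < gr n μ x) (hy : y ∈ Icc a b)
    (ha : 2 ≤ gr n μ a) (hb : 2 ≤ gr n μ b) : 2 ≤ gr n μ y := by
  have hab : a ≤ b := hy.1.trans hy.2
  have h1 := (gr_conc h hab).min_le_of_mem_Icc ⟨le_rfl, hab⟩ ⟨hab, le_rfl⟩ hy
  have h2 : Real.log 2 ≤ min (Real.log (gr n μ a)) (Real.log (gr n μ b)) :=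
    le_min (Real.log_le_log (by norm_num) ha) (Real.log_le_log (by norm_num) hb)
  exact (Real.log_le_log_iff (by norm_num) (h y hy)).1 (h2.trans h1)

lemma no_flat {n : ℕ} {μ a b m : ℝ} (h : ∀ x ∈ Icc a b, 0 < gr n μ x) (ham : a < m) (hmb : m < b)
    (ha : 2 ≤ gr n μ a) (hb : 2 ≤ gr n μ b) (hm : gr n μ m = 2) : False := by
  apply not_two (n := n) (μ := μ) ham
  intro y hy
  have hyI : y ∈ Icc a b := ⟨hy.1.le, by linarith [hy.2]⟩
  apply le_antisymm _ (quasi h hyI ha hb)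
  have h1 := (gr_conc h (by linarith)).left_le_of_le_right (x := y) (y := b) (z := m) hyI
    ⟨by linarith, le_rfl⟩ (by
      rw [openSegment_eq_Ioo (by linarith [hy.2])]
      exact ⟨hy.2, hmb⟩) (by
      rw [hm]
      exact Real.log_le_log (by norm_num) hb)
  rw [hm] at h1
  exact (Real.log_le_log_iff (h y hyI) (by norm_num)).1 h1

lemma sign_pos {n : ℕ} {μ : ℝ} {S : Set ℝ} (hS : IsPreconnected S) {r : ℤ}
    (hno : ∀ E ∈ S, ∀ x, QQ n μ E x ≠ x + 2 * Real.pi * r) {E1 x1 : ℝ} (hE1 : E1 ∈ S)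
    (hx1 : x1 + 2 * Real.pi * r < QQ n μ E1 x1) : ∀ E ∈ S, ∀ x, x + 2 * Real.pi * r < QQ n μ E x := by
  intro E hE x
  by_contra hcon
  push Not at hcon
  obtain ⟨p, hp, hp2⟩ := (hS.prod isPreconnected_univ).intermediate_value₂ (a := (E1, x1))
    (b := (E, x)) ⟨hE1, mem_univ _⟩ ⟨hE, mem_univ _⟩
    (f := fun p : ℝ × ℝ => p.2 + 2 * Real.pi * r) (g := fun p : ℝ × ℝ => QQ n μ p.1 p.2)
    (by fun_prop) (QQ_cont n μ).continuousOn hx1.le hcon
  exact hno p.1 hp.1 p.2 hp2.symm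

lemma sign_neg {n : ℕ} {μ : ℝ} {S : Set ℝ} (hS : IsPreconnected S) {r : ℤ}
    (hno : ∀ E ∈ S, ∀ x, QQ n μ E x ≠ x + 2 * Real.pi * r) {E1 x1 : ℝ} (hE1 : E1 ∈ S)
    (hx1 : QQ n μ E1 x1 < x1 + 2 * Real.pi * r) : ∀ E ∈ S, ∀ x, QQ n μ E x < x + 2 * Real.pi * r := by
  intro E hE x
  by_contra hcon
  push Not at hcon
  obtain ⟨p, hp, hp2⟩ := (hS.prod isPreconnected_univ).intermediate_value₂ (a := (E1, x1))
    (b := (E, x)) ⟨hE1, mem_univ _⟩ ⟨hE, mem_univ _⟩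
    (f := fun p : ℝ × ℝ => QQ n μ p.1 p.2) (g := fun p : ℝ × ℝ => p.2 + 2 * Real.pi * r)
    (QQ_cont n μ).continuousOn (by fun_prop) hx1.le hcon
  exact hno p.1 hp.1 p.2 hp2

lemma lim_ge {n : ℕ} {μ : ℝ} {F : Filter ℝ} [F.NeBot] {e : ℝ} (hF : F ≤ 𝓝 e) {c x : ℝ}
    (h : ∀ᶠ E in F, x + c < QQ n μ E x) : x + c ≤ QQ n μ e x := by
  have hc : Continuous fun E => QQ n μ E x := (QQ_cont n μ).comp (f := fun E => (E, x)) (by fun_prop)
  exact ge_of_tendsto ((hc.tendsto e).mono_left hF) (h.mono fun _ h => h.le)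

lemma lim_le {n : ℕ} {μ : ℝ} {F : Filter ℝ} [F.NeBot] {e : ℝ} (hF : F ≤ 𝓝 e) {c x : ℝ}
    (h : ∀ᶠ E in F, QQ n μ E x < x + c) : QQ n μ e x ≤ x + c := by
  have hc : Continuous fun E => QQ n μ E x := (QQ_cont n μ).comp (f := fun E => (E, x)) (by fun_prop)
  exact le_of_tendsto ((hc.tendsto e).mono_left hF) (h.mono fun _ h => h.le)

end Pool.Agent.W625.JT
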