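import Pool.Agent.W625.JT.G

set_option autoImplicit false

open Set Filter Topology H535R3

namespace Pool.Agent.W625.JT

lemma eps_pos {E : ℝ} (hE : 0 < E) : 0 < 2 * Real.sqrt E := by
  have := Real.sqrt_pos.2 hE
  positivity

/-- Pushing at a periodic type point, in terms of `E`. -/
lemma push_E2 {n : ℕ} {μ e x : ℝ} {r : ℤ} (hμ : 0 < μ) (he : 0 < e) (hr : r < n + 1)
    (hev : Even ((n:ℤ) + 1 + r)) (hx : QQ n μ e x = x + 2 * Real.pi * r)
    (hone : (∀ x, x + 2 * Real.pi * r ≤ QQ n μ e x) ∨ (∀ x, QQ n μ e x ≤ x + 2 * Real.pi * r)) :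
    ∀ᶠ p : ℝ × ℝ in 𝓝 (e, x), (p.1 < e → QQ n μ e p.2 < QQ n μ p.1 p.2) ∧
      (e < p.1 → QQ n μ p.1 p.2 < QQ n μ e p.2) := by
  obtain ⟨-, hpos⟩ := krein_gen hμ (eps_pos he) hev hx hone (not_ident_lt hμ (eps_pos he) hr)
  have h1 := push_eps hpos
  have hc : Continuous fun p : ℝ × ℝ => (2 * Real.sqrt p.1, p.2) := by fun_prop
  have h2 := (hc.tendsto (e, x)).eventually h1
  filter_upwards [h2] with p hp
  refine ⟨fun h => ?_, fun h => hp.2 ?_⟩
  · rcases lt_or_ge 0 p.1 with h0 | h0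
    · exact hp.1 (by
        have := Real.sqrt_lt_sqrt h0.le h
        show 2 * Real.sqrt p.1 < 2 * Real.sqrt e
        linarith)
    · exact hp.1 (by
        show 2 * Real.sqrt p.1 < 2 * Real.sqrt e
        rw [Real.sqrt_eq_zero_of_nonpos h0]
        have := Real.sqrt_pos.2 he
        linarith)
  · have := Real.sqrt_lt_sqrt he.le h
    show 2 * Real.sqrt e < 2 * Real.sqrt p.1
    linarith

lemma push_E {n : ℕ} {μ e x : ℝ} {r : ℤ} (hμ : 0 < μ) (he : 0 < e) (hr : r < n + 1)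
    (hev : Even ((n:ℤ) + 1 + r)) (hx : QQ n μ e x = x + 2 * Real.pi * r)
    (hone : (∀ x, x + 2 * Real.pi * r ≤ QQ n μ e x) ∨ (∀ x, QQ n μ e x ≤ x + 2 * Real.pi * r)) :
    ∀ᶠ E in 𝓝 e, (E < e → x + 2 * Real.pi * r < QQ n μ E x) ∧
      (e < E → QQ n μ E x < x + 2 * Real.pi * r) := by
  have h1 := push_E2 hμ he hr hev hx hone
  have hc : Continuous fun E : ℝ => (E, x) := by fun_prop
  have h2 := (hc.tendsto e).eventually h1
  filter_upwards [h2] with E hE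
  rw [← hx]
  exact hE

lemma gr_even {n : ℕ} {μ E x : ℝ} {r : ℤ} (hE : 0 < E) (hev : Even ((n:ℤ) + 1 + r))
    (hx : QQ n μ E x = x + 2 * Real.pi * r) : gr n μ E ≤ 0 := by
  rw [(gr_fixed hE hx).1 hev]
  have := Real.one_le_cosh (Kx (n + 1) (2 * μ) (2 * Real.sqrt E) x)
  linarith

lemma gr_odd {n : ℕ} {μ E x : ℝ} {r : ℤ} (hE : 0 < E) (hev : ¬ Even ((n:ℤ) + 1 + r))
    (hx : QQ n μ E x = x + 2 * Real.pi * r) : 2 ≤ gr n μ E := by
  rw [(gr_fixed hE hx).2 hev]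
  have := Real.one_le_cosh (Kx (n + 1) (2 * μ) (2 * Real.sqrt E) x)
  linarith

lemma int_of_real {r s : ℤ} {y : ℝ} (h : y + 2 * Real.pi * r ≤ y + 2 * Real.pi * s) : r ≤ s := by
  have hpi := Real.two_pi_pos
  have : (r:ℝ) ≤ s := by
    by_contra hc
    push Not at hc
    nlinarith
  exact_mod_cast this

/-- Data of the left side. -/
structure LeftD (n : ℕ) (μ E0 e1 : ℝ) : Prop where
  nn : 0 ≤ e1
  lt : e1 < E0
  z : gr n μ e1 = 0
  pos : ∀ E ∈ Ioc e1 E0, 0 < gr n μ E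

lemma leftD_exists {n : ℕ} {μ E0 : ℝ} (hE0 : 0 < E0) (hg : 2 ≤ gr n μ E0) : ∃ e1, LeftD n μ E0 e1 := by
  have hcpt : IsCompact (Icc 0 E0 ∩ gr n μ ⁻¹' {0}) :=
    isCompact_Icc.inter_right (isClosed_singleton.preimage (gr_cont n μ))
  obtain ⟨e1, he1, hmax⟩ := hcpt.exists_isGreatest ⟨0, ⟨le_rfl, hE0.le⟩, gr_zero n μ⟩
  have hz : gr n μ e1 = 0 := he1.2
  refine ⟨e1, he1.1.1, ?_, hz, ?_⟩
  · rcases he1.1.2.lt_or_eq with h | h
    · exact h
    · rw [h] at hz; linarith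
  · intro E hE
    by_contra hcon
    push Not at hcon
    obtain ⟨z, hz1, hz2⟩ := intermediate_value_Icc hE.2 (gr_cont n μ).continuousOn
      (show (0:ℝ) ∈ Icc (gr n μ E) (gr n μ E0) from ⟨hcon, by linarith⟩)
    have := hmax ⟨⟨by linarith [hz1.1, hE.1, he1.1.1], hz1.2⟩, hz2⟩
    linarith [hz1.1, hE.1]

/-- `D_{s-1} > 0` and `D_{s+1} < 0` on the left component. -/
lemma left_signs {n : ℕ} {μ E0 e1 x0 : ℝ} {s : ℤ} (hodd : ¬ Even ((n:ℤ) + 1 + s))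
    (hL : LeftD n μ E0 e1) (hx0 : QQ n μ E0 x0 = x0 + 2 * Real.pi * s) :
    (∀ E ∈ Ioc e1 E0, ∀ x, x + 2 * Real.pi * ((s - 1 : ℤ) : ℝ) < QQ n μ E x) ∧
    (∀ E ∈ Ioc e1 E0, ∀ x, QQ n μ E x < x + 2 * Real.pi * ((s + 1 : ℤ) : ℝ)) := by
  have hpi := Real.pi_pos
  have hE : E0 ∈ Ioc e1 E0 := ⟨hL.lt, le_rfl⟩
  constructor
  · refine sign_pos isPreconnected_Ioc (fun E hE x hx => ?_) hE (x1 := x0) (by
      rw [hx0]; push_cast; nlinarith)
    have hE' : 0 < E := lt_of_le_of_lt hL.nn hE.1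
    have h1 := gr_even hE' (by
      rw [Int.not_even_iff_odd] at hodd
      obtain ⟨k, hk⟩ := hodd
      exact ⟨k, by omega⟩) hx
    exact absurd (hL.pos E hE) (not_lt.2 h1)
  · refine sign_neg isPreconnected_Ioc (fun E hE x hx => ?_) hE (x1 := x0) (by
      rw [hx0]; push_cast; nlinarith)
    have hE' : 0 < E := lt_of_le_of_lt hL.nn hE.1
    have h1 := gr_even hE' (by
      rw [Int.not_even_iff_odd] at hodd
      obtain ⟨k, hk⟩ := hodd
      exact ⟨k + 1, by omega⟩) hx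
    exact absurd (hL.pos E hE) (not_lt.2 h1)

theorem claim1 {n : ℕ} {μ E0 e1 x0 : ℝ} {s : ℤ} (hμ : 0 < μ) (hs : s < n + 1)
    (hodd : ¬ Even ((n:ℤ) + 1 + s)) (hL : LeftD n μ E0 e1)
    (hx0 : QQ n μ E0 x0 = x0 + 2 * Real.pi * s) {E1 : ℝ} (hE1 : E1 ∈ Ioo e1 E0)
    (hlt : gr n μ E1 < 2) (x : ℝ) : x + 2 * Real.pi * s < QQ n μ E1 x := by
  by_contra hcon
  push Not at hcon
  have hE00 : 0 < E0 := lt_of_le_of_lt hL.nn hL.lt
  have hg0 : 2 ≤ gr n μ E0 := gr_odd hE00 hodd hx0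
  have ha : ∀ E ∈ Ioc e1 E1, gr n μ E < 2 := by
    intro E hE
    by_contra h2
    push Not at h2
    have := quasi (a := E) (b := E0) (y := E1)
      (fun y hy => hL.pos y ⟨by linarith [hE.1, hy.1], hy.2⟩) ⟨hE.2, hE1.2.le⟩ h2 hg0
    linarith
  have hb : ∀ E ∈ Ioc e1 E1, ∀ (x : ℝ) (r : ℤ), QQ n μ E x ≠ x + 2 * Real.pi * r := by
    intro E hE x r hx
    have hE' : 0 < E := lt_of_le_of_lt hL.nn hE.1
    by_cases he : Even ((n:ℤ) + 1 + r)
    · have h1 := gr_even hE' he hx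
      have h2 := hL.pos E ⟨hE.1, by linarith [hE.2, hE1.2]⟩
      linarith
    · have h1 := gr_odd hE' he hx
      have h2 := ha E hE
      linarith
  have hE1m : E1 ∈ Ioc e1 E1 := ⟨hE1.1, le_rfl⟩
  have hc : QQ n μ E1 x < x + 2 * Real.pi * s := lt_of_le_of_ne hcon (hb E1 hE1m x s)
  have hc' := sign_neg isPreconnected_Ioc (fun E hE x => hb E hE x s) hE1m hc
  have hc0 : ∀ y, QQ n μ e1 y ≤ y + 2 * Real.pi * s := fun y =>
    lim_le (F := 𝓝[>] e1) nhdsWithin_le_nhds (by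
      filter_upwards [Ioc_mem_nhdsGT hE1.1] with E hE
      exact hc' E hE y)
  have hd' := (left_signs hodd hL hx0).1
  have hd0 : ∀ y, y + 2 * Real.pi * ((s - 1 : ℤ) : ℝ) ≤ QQ n μ e1 y := fun y =>
    lim_ge (F := 𝓝[>] e1) nhdsWithin_le_nhds (by
      filter_upwards [Ioc_mem_nhdsGT hL.lt] with E hE
      exact hd' E hE y)
  rcases hL.nn.eq_or_lt with h0 | h0
  · have h1 := hc0 0
    rw [← h0, QQ_zero] at h1
    have h2 : ((n + 1 : ℤ)) ≤ s := int_of_real (y := 0) (by push_cast; exact h1)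
    omega
  · obtain ⟨y, r, hy⟩ := fixed_of_gr h0 (Or.inl hL.z.le)
    have hev : Even ((n:ℤ) + 1 + r) := by
      by_contra he
      have := gr_odd h0 he hy
      rw [hL.z] at this
      linarith
    have h1 : r ≤ s := by
      have := hc0 y
      rw [hy] at this
      exact int_of_real this
    have h2 : s - 1 ≤ r := by
      have := hd0 y
      rw [hy] at this
      exact int_of_real this
    have h3 : r = s - 1 := by
      rcases eq_or_lt_of_le h1 with h4 | h4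
      · rw [h4] at hev; exact absurd hev hodd
      · omega
    subst h3
    have h5 := push_E hμ h0 (by omega) hev hy (Or.inl hd0)
    have h6 : ∀ᶠ E in 𝓝[>] e1, (E < e1 → y + 2 * Real.pi * ((s - 1 : ℤ) : ℝ) < QQ n μ E y) ∧
      (e1 < E → QQ n μ E y < y + 2 * Real.pi * ((s - 1 : ℤ) : ℝ)) := h5.filter_mono nhdsWithin_le_nhds
    obtain ⟨E, hE, hE2⟩ := (h6.and (Ioc_mem_nhdsGT hL.lt)).exists
    have h7 := hE.2 hE2.1
    have h8 := hd' E hE2 y
    linarith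

/-- Right side, bounded case. -/
theorem claim2a {n : ℕ} {μ E0 e2 x0 : ℝ} {s : ℤ} (hμ : 0 < μ) (hs : s < n + 1)
    (hodd : ¬ Even ((n:ℤ) + 1 + s)) (hE00 : 0 < E0) (he2 : E0 < e2) (hz : gr n μ e2 = 0)
    (hpos : ∀ E ∈ Ico E0 e2, 0 < gr n μ E)
    (hx0 : QQ n μ E0 x0 = x0 + 2 * Real.pi * s) {E1 : ℝ} (hE1 : E1 ∈ Ioo E0 e2)
    (hlt : gr n μ E1 < 2) (x : ℝ) : QQ n μ E1 x < x + 2 * Real.pi * s := by
  by_contra hcon
  push Not at hcon
  have hpi := Real.pi_pos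
  have hg0 : 2 ≤ gr n μ E0 := gr_odd hE00 hodd hx0
  have ha : ∀ E ∈ Ico E1 e2, gr n μ E < 2 := by
    intro E hE
    by_contra h2
    push Not at h2
    have := quasi (a := E0) (b := E) (y := E1)
      (fun y hy => hpos y ⟨hy.1, by linarith [hE.2, hy.2]⟩) ⟨hE1.1.le, hE.1⟩ hg0 h2
    linarith
  have hb : ∀ E ∈ Ico E1 e2, ∀ (x : ℝ) (r : ℤ), QQ n μ E x ≠ x + 2 * Real.pi * r := by
    intro E hE x r hx
    have hE' : 0 < E := by linarith [hE.1, hE1.1]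
    by_cases he : Even ((n:ℤ) + 1 + r)
    · have h1 := gr_even hE' he hx
      have h2 := hpos E ⟨by linarith [hE.1, hE1.1], hE.2⟩
      linarith
    · have h1 := gr_odd hE' he hx
      have h2 := ha E hE
      linarith
  have hE1m : E1 ∈ Ico E1 e2 := ⟨le_rfl, hE1.2⟩
  have hc : x + 2 * Real.pi * s < QQ n μ E1 x := lt_of_le_of_ne hcon (hb E1 hE1m x s).symm
  have hc' := sign_pos isPreconnected_Ico (fun E hE x => hb E hE x s) hE1m hc
  have hc0 : ∀ y, y + 2 * Real.pi * s ≤ QQ n μ e2 y := fun y =>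
    lim_ge (F := 𝓝[<] e2) nhdsWithin_le_nhds (by
      filter_upwards [Ico_mem_nhdsLT hE1.2] with E hE
      exact hc' E hE y)
  have hd' : ∀ E ∈ Ico E0 e2, ∀ x, QQ n μ E x < x + 2 * Real.pi * ((s + 1 : ℤ) : ℝ) := by
    refine sign_neg isPreconnected_Ico (fun E hE x hx => ?_) (E1 := E0) ⟨le_rfl, he2⟩ (x1 := x0) (by
      rw [hx0]; push_cast; nlinarith)
    have hE' : 0 < E := by linarith [hE.1]
    have h1 := gr_even hE' (by
      rw [Int.not_even_iff_odd] at hodd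
      obtain ⟨k, hk⟩ := hodd
      exact ⟨k + 1, by omega⟩) hx
    exact absurd (hpos E hE) (not_lt.2 h1)
  have hd0 : ∀ y, QQ n μ e2 y ≤ y + 2 * Real.pi * ((s + 1 : ℤ) : ℝ) := fun y =>
    lim_le (F := 𝓝[<] e2) nhdsWithin_le_nhds (by
      filter_upwards [Ico_mem_nhdsLT he2] with E hE
      exact hd' E hE y)
  have h0 : 0 < e2 := by linarith
  obtain ⟨y, r, hy⟩ := fixed_of_gr h0 (Or.inl hz.le)
  have hev : Even ((n:ℤ) + 1 + r) := by
    by_contra he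
    have := gr_odd h0 he hy
    rw [hz] at this
    linarith
  have h1 : s ≤ r := by
    have := hc0 y
    rw [hy] at this
    exact int_of_real this
  have h2 : r ≤ s + 1 := by
    have := hd0 y
    rw [hy] at this
    exact int_of_real this
  have h3 : r = s + 1 := by
    rcases eq_or_lt_of_le h1 with h4 | h4
    · rw [← h4] at hev; exact absurd hev hodd
    · omega
  subst h3
  rcases lt_or_eq_of_le (by omega : s + 1 ≤ n + 1) with h4 | h4
  · have h5 := push_E hμ h0 h4 hev hy (Or.inr hd0)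
    have h6 : ∀ᶠ E in 𝓝[<] e2, (E < e2 → y + 2 * Real.pi * ((s + 1 : ℤ) : ℝ) < QQ n μ E y) ∧
      (e2 < E → QQ n μ E y < y + 2 * Real.pi * ((s + 1 : ℤ) : ℝ)) := h5.filter_mono nhdsWithin_le_nhds
    obtain ⟨E, hE, hE2⟩ := (h6.and (Ico_mem_nhdsLT he2)).exists
    have h7 := hE.1 hE2.2
    have h8 := hd' E hE2 y
    linarith
  · -- number `n + 1`
    rw [h4] at hy hd'
    have h5 : MM n (Real.sqrt e2) ≤ μ := by
      by_contra h6
      push Not at h6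
      have h7 := below hμ (eps_pos h0) (by
        rw [show 2 * Real.sqrt e2 / 2 = Real.sqrt e2 by ring]; exact h6) y
      have h8 : P (n + 1) (2 * μ) (2 * Real.sqrt e2) y = y + 2 * Real.pi * ((n + 1 : ℤ) : ℝ) := hy
      rw [h8] at h7
      exact lt_irrefl _ h7
    have h6 : MM n (Real.sqrt E0) ≤ μ :=
      (MM_mono (Real.sqrt_pos.2 hE00) (Real.sqrt_le_sqrt he2.le)).trans h5
    have h7 : (((n:ℝ) + 1, 2 * μ) : ℝ × ℝ) ∈ Ls ((n:ℤ) + 1) (2 * Real.sqrt E0) := by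
      rw [axis_iff n (by positivity) (eps_pos hE00)]
      rw [show 2 * Real.sqrt E0 / 2 = Real.sqrt E0 by ring]
      linarith
    obtain ⟨z, hz1⟩ := h7
    have h8 := hd' E0 ⟨le_rfl, he2⟩ z
    have h9 : QQ n μ E0 z = z + 2 * Real.pi * ((n + 1 : ℤ) : ℝ) := hz1
    linarith

/-- Right side, unbounded case. -/
theorem claim2b {n : ℕ} {μ E0 x0 : ℝ} {s : ℤ} (hμ : 0 < μ) (hs0 : 0 ≤ s)
    (hodd : ¬ Even ((n:ℤ) + 1 + s)) (hE00 : 0 < E0)
    (hpos : ∀ E ∈ Ici E0, 0 < gr n μ E)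
    (hx0 : QQ n μ E0 x0 = x0 + 2 * Real.pi * s) {E1 : ℝ} (hE1 : E0 < E1)
    (hlt : gr n μ E1 < 2) (x : ℝ) : QQ n μ E1 x < x + 2 * Real.pi * s := by
  by_contra hcon
  push Not at hcon
  have hpi := Real.pi_pos
  have hg0 : 2 ≤ gr n μ E0 := gr_odd hE00 hodd hx0
  have ha : ∀ E ∈ Ici E1, gr n μ E < 2 := by
    intro E hE
    by_contra h2
    push Not at h2
    have := quasi (a := E0) (b := E) (y := E1)
      (fun y hy => hpos y hy.1) ⟨hE1.le, hE⟩ hg0 h2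
    linarith
  have hb : ∀ E ∈ Ici E1, ∀ (x : ℝ) (r : ℤ), QQ n μ E x ≠ x + 2 * Real.pi * r := by
    intro E hE x r hx
    have hE2 : E1 ≤ E := hE
    have hE' : 0 < E := by linarith
    by_cases he : Even ((n:ℤ) + 1 + r)
    · have h1 := gr_even hE' he hx
      have h2 := hpos E (by show E0 ≤ E; linarith)
      linarith
    · have h1 := gr_odd hE' he hx
      have h2 := ha E hE
      linarith
  have hc : x + 2 * Real.pi * s < QQ n μ E1 x :=
    lt_of_le_of_ne hcon (hb E1 (mem_Ici.2 le_rfl) x s).symm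
  have hc' := sign_pos isPreconnected_Ici (fun E hE x => hb E hE x s) (mem_Ici.2 le_rfl) hc
  set M : ℝ := (n + 1 + 2 * μ) + 1 with hM
  have hM0 : 0 < M := by positivity
  set E2 : ℝ := max E1 (M ^ 2) with hE2
  have h1 := hc' E2 (mem_Ici.2 (le_max_left _ _)) (Real.pi / 2)
  have h2 : M ≤ Real.sqrt E2 := by
    rw [← Real.sqrt_sq hM0.le]
    exact Real.sqrt_le_sqrt (le_max_right _ _)
  have h3 : QQ n μ E2 (Real.pi / 2) < Real.pi / 2 := trap (by positivity) (by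
    rw [hM] at h2
    linarith)
  have h4 : (0:ℝ) ≤ s := by exact_mod_cast hs0
  have h5 : 0 ≤ 2 * Real.pi * s := by positivity
  linarith

lemma right_data {n : ℕ} {μ E0 x0 : ℝ} {s : ℤ} (hμ : 0 < μ) (hs0 : 0 ≤ s) (hs : s < n + 1)
    (hodd : ¬ Even ((n:ℤ) + 1 + s)) (hE00 : 0 < E0) (hx0 : QQ n μ E0 x0 = x0 + 2 * Real.pi * s) :
    ∃ e2, E0 < e2 ∧ (∀ E ∈ Ico E0 e2, 0 < gr n μ E) ∧
      ∀ E ∈ Ioo E0 e2, gr n μ E < 2 → ∀ x, QQ n μ E x < x + 2 * Real.pi * s := by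
  have hg0 : 2 ≤ gr n μ E0 := gr_odd hE00 hodd hx0
  by_cases h : ∃ E, E0 ≤ E ∧ gr n μ E = 0
  · obtain ⟨E', hE', hz'⟩ := h
    have hcpt : IsCompact (Icc E0 E' ∩ gr n μ ⁻¹' {0}) :=
      isCompact_Icc.inter_right (isClosed_singleton.preimage (gr_cont n μ))
    obtain ⟨e2, he2, hmin⟩ := hcpt.exists_isLeast ⟨E', ⟨hE', le_rfl⟩, hz'⟩
    have hz : gr n μ e2 = 0 := he2.2
    have hlt : E0 < e2 := by
      rcases he2.1.1.lt_or_eq with h | h
      · exact h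
      · rw [← h] at hz; linarith
    have hpos : ∀ E ∈ Ico E0 e2, 0 < gr n μ E := by
      intro E hE
      by_contra hcon
      push Not at hcon
      obtain ⟨z, hz1, hz2⟩ := intermediate_value_Icc' hE.1 (gr_cont n μ).continuousOn
        (show (0:ℝ) ∈ Icc (gr n μ E) (gr n μ E0) from ⟨hcon, by linarith⟩)
      have := hmin ⟨⟨hz1.1, by linarith [hz1.2, hE.2, he2.1.2]⟩, hz2⟩
      linarith [hz1.2, hE.2]
    exact ⟨e2, hlt, hpos, fun E hE hl x => claim2a hμ hs hodd hE00 hlt hz hpos hx0 hE hl x⟩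
  · have hpos : ∀ E ∈ Ici E0, 0 < gr n μ E := by
      intro E hE
      by_contra hcon
      push Not at hcon
      obtain ⟨z, hz1, hz2⟩ := intermediate_value_Icc' hE (gr_cont n μ).continuousOn
        (show (0:ℝ) ∈ Icc (gr n μ E) (gr n μ E0) from ⟨hcon, by linarith⟩)
      exact h ⟨z, hz1.1, hz2⟩
    exact ⟨E0 + 1, by linarith, fun E hE => hpos E hE.1, fun E hE hl x =>
      claim2b hμ hs0 hodd hE00 hpos hx0 hE.1 hl x⟩

/-- Odd type, touching from above. -/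
theorem odd_plus {n : ℕ} {μ E0 x0 : ℝ} {s : ℤ} (hμ : 0 < μ) (hs0 : 0 ≤ s) (hs : s < n + 1)
    (hodd : ¬ Even ((n:ℤ) + 1 + s)) (hE00 : 0 < E0) (hx0 : QQ n μ E0 x0 = x0 + 2 * Real.pi * s)
    (hall : ∀ x, x + 2 * Real.pi * s ≤ QQ n μ E0 x) :
    ∃ e1, 0 ≤ e1 ∧ e1 < E0 ∧ ∀ E ∈ Ioo e1 E0, ∀ x, x + 2 * Real.pi * s < QQ n μ E x := by
  have hg0 : 2 ≤ gr n μ E0 := gr_odd hE00 hodd hx0
  obtain ⟨e1, hL⟩ := leftD_exists hE00 hg0
  obtain ⟨e2, he2, hpos2, hneg⟩ := right_data hμ hs0 hs hodd hE00 hx0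
  refine ⟨e1, hL.nn, hL.lt, fun E hE x => claim1 hμ hs hodd hL hx0 hE ?_ x⟩
  by_contra hcon
  push Not at hcon
  have hg2 : gr n μ E0 = 2 := by
    rw [(gr_fixed hE00 hx0).2 hodd, one_sided_K hx0 (Or.inl hall), Real.cosh_zero]
    norm_num
  have h1 : ∀ E' ∈ Ioo E0 e2, gr n μ E' < 2 := by
    intro E' hE'
    by_contra h2
    push Not at h2
    refine no_flat (n := n) (μ := μ) (a := E) (b := E') (m := E0) ?_ hE.2 hE'.1 hcon h2 hg2
    intro y hy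
    rcases le_total y E0 with h3 | h3
    · exact hL.pos y ⟨by linarith [hy.1, hE.1], h3⟩
    · exact hpos2 y ⟨h3, by linarith [hy.2, hE'.2]⟩
  have h2 : ∀ y, QQ n μ E0 y ≤ y + 2 * Real.pi * s := fun y =>
    lim_le (F := 𝓝[>] E0) nhdsWithin_le_nhds (by
      filter_upwards [Ioo_mem_nhdsGT he2] with E' hE'
      exact hneg E' hE' (h1 E' hE') y)
  exact not_ident_lt hμ (eps_pos hE00) hs fun x => le_antisymm (h2 x) (hall x)

/-- Odd type, touching from below. -/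
theorem odd_minus {n : ℕ} {μ E0 x0 : ℝ} {s : ℤ} (hμ : 0 < μ) (hs : s < n + 1)
    (hodd : ¬ Even ((n:ℤ) + 1 + s)) (hE00 : 0 < E0) (hx0 : QQ n μ E0 x0 = x0 + 2 * Real.pi * s)
    {e' : ℝ} (he' : e' < E0) :
    ∃ E ∈ Ioo e' E0, 0 < E ∧ ∃ x, x + 2 * Real.pi * s < QQ n μ E x := by
  have hg0 : 2 ≤ gr n μ E0 := gr_odd hE00 hodd hx0
  obtain ⟨e1, hL⟩ := leftD_exists hE00 hg0
  set a := max e' e1 with ha
  have haE : a < E0 := max_lt he' hL.lt
  by_cases h : ∃ E ∈ Ioo a E0, gr n μ E < 2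
  · obtain ⟨E, hE, hlt⟩ := h
    have hE1 : E ∈ Ioo e1 E0 := ⟨lt_of_le_of_lt (le_max_right _ _) hE.1, hE.2⟩
    exact ⟨E, ⟨lt_of_le_of_lt (le_max_left _ _) hE.1, hE.2⟩, lt_of_le_of_lt hL.nn hE1.1, 0,
      claim1 hμ hs hodd hL hx0 hE1 hlt 0⟩
  · push Not at h
    obtain ⟨E, hE, hne⟩ : ∃ E ∈ Ioo a E0, gr n μ E ≠ 2 := by
      by_contra hcon
      push Not at hcon
      exact not_two haE hcon
    have hE1 : E ∈ Ioo e1 E0 := ⟨lt_of_le_of_lt (le_max_right _ _) hE.1, hE.2⟩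
    have hE1' : E ∈ Ioc e1 E0 := ⟨hE1.1, hE1.2.le⟩
    have hEp : 0 < E := lt_of_le_of_lt hL.nn hE1.1
    have hgt : 2 < gr n μ E := lt_of_le_of_ne (h E hE) hne.symm
    obtain ⟨y, r, hy⟩ := fixed_of_gr hEp (Or.inr hgt.le)
    have hr : ¬ Even ((n:ℤ) + 1 + r) := by
      intro hev
      have := gr_even hEp hev hy
      linarith
    obtain ⟨hl1, hl2⟩ := left_signs hodd hL hx0
    have h1 := hl1 E hE1' y
    have h2 := hl2 E hE1' y
    rw [hy] at h1 h2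
    have h3 : s - 1 < r := by
      by_contra hc
      push Not at hc
      have : (r:ℝ) ≤ ((s - 1 : ℤ) : ℝ) := by exact_mod_cast hc
      have := Real.pi_pos
      nlinarith
    have h4 : r < s + 1 := by
      by_contra hc
      push Not at hc
      have : ((s + 1 : ℤ) : ℝ) ≤ r := by exact_mod_cast hc
      have := Real.pi_pos
      nlinarith
    have h5 : r = s := by omega
    subst h5
    refine ⟨E, ⟨lt_of_le_of_lt (le_max_left _ _) hE.1, hE.2⟩, hEp, ?_⟩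
    by_contra hcon
    push Not at hcon
    have h6 := one_sided_K hy (Or.inr hcon)
    have h7 := (gr_fixed hEp hy).2 hr
    rw [h6, Real.cosh_zero] at h7
    linarith

end Pool.Agent.W625.JT
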