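import Pool.Agent.W625.JT.H

set_option autoImplicit false

open Set Filter Topology H535R3

namespace Pool.Agent.W625.JT

lemma QQ_add (n : ℕ) (μ E x : ℝ) (m : ℤ) :
    QQ n μ E (x + 2 * Real.pi * m) = QQ n μ E x + 2 * Real.pi * m := P_add _ _ _ _ _

/-- Even type, touching from above. -/
theorem even_plus {n : ℕ} {μ e : ℝ} {s : ℤ} (hμ : 0 < μ) (he : 0 < e) (hs : s < n + 1)
    (hev : Even ((n:ℤ) + 1 + s)) (hall : ∀ x, x + 2 * Real.pi * s ≤ QQ n μ e x) :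
    ∀ᶠ E in 𝓝 e, E < e → ∀ x, x + 2 * Real.pi * s < QQ n μ E x := by
  have h := (isCompact_Icc (a := (0:ℝ)) (b := 2 * Real.pi)).eventually_forall_of_forall_eventually
    (x₀ := e) (P := fun E y => E < e → y + 2 * Real.pi * s < QQ n μ E y) (fun y _ => by
      rcases (hall y).eq_or_lt with h1 | h1
      · filter_upwards [push_E2 hμ he hs hev h1.symm (Or.inl hall)] with p hp hlt
        exact lt_of_le_of_lt (hall p.2) (hp.1 hlt)
      · have hc : Continuous fun p : ℝ × ℝ => QQ n μ p.1 p.2 - (p.2 + 2 * Real.pi * s) :=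
          (QQ_cont n μ).sub (by fun_prop)
        have h2 : 0 < QQ n μ (e, y).1 (e, y).2 - ((e, y).2 + 2 * Real.pi * s) := by
          simp only; linarith
        filter_upwards [hc.continuousAt.eventually_const_lt h2] with p hp _
        linarith)
  filter_upwards [h] with E hE hlt x
  obtain ⟨m, hm1, hm2⟩ := exists_shift 0 x
  have h3 := hE (x + 2 * Real.pi * m) ⟨hm1, by linarith⟩ hlt
  rw [QQ_add] at h3
  linarith

/-- Touching from above, number `< n + 1`. -/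
theorem plus_case {n : ℕ} {μ E0 x0 : ℝ} {s : ℤ} (hμ : 0 < μ) (hs0 : 0 ≤ s) (hs : s < n + 1)
    (hE00 : 0 < E0) (hx0 : QQ n μ E0 x0 = x0 + 2 * Real.pi * s)
    (hall : ∀ x, x + 2 * Real.pi * s ≤ QQ n μ E0 x) {e' : ℝ} (he' : e' < E0) :
    ∃ E ∈ Ioo e' E0, 0 < E ∧ ∀ x, x + 2 * Real.pi * s < QQ n μ E x := by
  by_cases hev : Even ((n:ℤ) + 1 + s)
  · have h1 : ∀ᶠ E in 𝓝[<] E0, E < E0 → ∀ x, x + 2 * Real.pi * s < QQ n μ E x :=
      (even_plus hμ hE00 hs hev hall).filter_mono nhdsWithin_le_nhds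
    obtain ⟨E, hE, hE2⟩ := (h1.and (Ioo_mem_nhdsLT (max_lt he' hE00))).exists
    exact ⟨E, ⟨lt_of_le_of_lt (le_max_left _ _) hE2.1, hE2.2⟩,
      lt_of_le_of_lt (le_max_right _ _) hE2.1, hE hE2.2⟩
  · obtain ⟨e1, h1, h2, h3⟩ := odd_plus hμ hs0 hs hev hE00 hx0 hall
    obtain ⟨E, hE⟩ := nonempty_Ioo.2 (max_lt he' h2)
    exact ⟨E, ⟨lt_of_le_of_lt (le_max_left _ _) hE.1, hE.2⟩,
      lt_of_le_of_lt h1 (lt_of_le_of_lt (le_max_right _ _) hE.1),
      h3 E ⟨lt_of_le_of_lt (le_max_right _ _) hE.1, hE.2⟩⟩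

/-- Touching from below, number `< n + 1`. -/
theorem minus_case {n : ℕ} {μ E0 x0 : ℝ} {s : ℤ} (hμ : 0 < μ) (hs : s < n + 1)
    (hE00 : 0 < E0) (hx0 : QQ n μ E0 x0 = x0 + 2 * Real.pi * s)
    (hall : ∀ x, QQ n μ E0 x ≤ x + 2 * Real.pi * s) {e' : ℝ} (he' : e' < E0) :
    ∃ E ∈ Ioo e' E0, 0 < E ∧ ∃ x, x + 2 * Real.pi * s < QQ n μ E x := by
  by_cases hev : Even ((n:ℤ) + 1 + s)
  · have h1 : ∀ᶠ E in 𝓝[<] E0, (E < E0 → x0 + 2 * Real.pi * s < QQ n μ E x0) ∧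
      (E0 < E → QQ n μ E x0 < x0 + 2 * Real.pi * s) :=
      (push_E hμ hE00 hs hev hx0 (Or.inr hall)).filter_mono nhdsWithin_le_nhds
    obtain ⟨E, hE, hE2⟩ := (h1.and (Ioo_mem_nhdsLT (max_lt he' hE00))).exists
    exact ⟨E, ⟨lt_of_le_of_lt (le_max_left _ _) hE2.1, hE2.2⟩,
      lt_of_le_of_lt (le_max_right _ _) hE2.1, x0, hE.1 hE2.2⟩
  · exact odd_minus hμ hs hev hE00 hx0 he'

/-- Identity points move. -/
lemma ident_move {n : ℕ} {a ε : ℝ} (ha : 0 < a) (hε : 0 < ε)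
    (hall : ∀ x, P (n + 1) a ε x = x + 2 * Real.pi * ((n + 1 : ℤ) : ℝ)) :
    (∀ᶠ s in 𝓝[>] (0:ℝ), Real.pi / 2 + 2 * Real.pi * ((n + 1 : ℤ) : ℝ) < P (n + 1) (a + s) ε (Real.pi / 2) ∧
      P (n + 1) (a - s) ε (Real.pi / 2) < Real.pi / 2 + 2 * Real.pi * ((n + 1 : ℤ) : ℝ)) ∨
    (∀ᶠ s in 𝓝[>] (0:ℝ), Real.pi / 2 + 2 * Real.pi * ((n + 1 : ℤ) : ℝ) < P (n + 1) (a - s) ε (Real.pi / 2) ∧
      P (n + 1) (a + s) ε (Real.pi / 2) < Real.pi / 2 + 2 * Real.pi * ((n + 1 : ℤ) : ℝ)) := by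
  have h1 := Ic_ne (n := n) (μ := a / 2) (e := ε / 2) (by positivity) (by positivity) (by
    intro x
    rw [show 2 * (a / 2) = a by ring, show 2 * (ε / 2) = ε by ring]
    exact hall x)
  rw [show 2 * (a / 2) = a by ring, show 2 * (ε / 2) = ε by ring] at h1
  have h0 := hall (Real.pi / 2)
  obtain ⟨hC, hCp⟩ := Cc_per h0
  rw [shift_int (f := fun t => Real.cos t * Real.exp (ε * Cc (fl (n + 1) a ε (Real.pi / 2)) t)) (by
    intro t
    rw [Real.cos_add_two_pi, hCp])] at h1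
  have e1 : ∀ σ : ℝ, ∫ u in (0:ℝ)..(2 * Real.pi), (0 + σ * Real.cos u) *
      Real.exp (ε * Cc (fl (n + 1) a ε (Real.pi / 2)) u) =
      σ * ∫ u in (0:ℝ)..(2 * Real.pi), Real.cos u * Real.exp (ε * Cc (fl (n + 1) a ε (Real.pi / 2)) u) := by
    intro σ
    rw [← intervalIntegral.integral_const_mul]
    congr 1
    funext u; ring
  rcases lt_or_gt_of_ne h1 with h2 | h2
  · right
    have h3 := push_up (b := (n:ℝ) + 1) (a := a) (ε := ε) (x := Real.pi / 2) (η := 0) (σ := -1) hC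
      (by rw [e1]; linarith)
    have h4 := push_down (b := (n:ℝ) + 1) (a := a) (ε := ε) (x := Real.pi / 2) (η := 0) (σ := 1) hC
      (by rw [e1]; linarith)
    filter_upwards [h3, h4] with s hs3 hs4
    rw [h0] at hs3 hs4
    rw [zero_mul, add_zero] at hs3 hs4
    rw [show a + -1 * s = a - s by ring] at hs3
    rw [one_mul] at hs4
    exact ⟨hs3, hs4⟩
  · left
    have h3 := push_up (b := (n:ℝ) + 1) (a := a) (ε := ε) (x := Real.pi / 2) (η := 0) (σ := 1) hC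
      (by rw [e1]; linarith)
    have h4 := push_down (b := (n:ℝ) + 1) (a := a) (ε := ε) (x := Real.pi / 2) (η := 0) (σ := -1) hC
      (by rw [e1]; linarith)
    filter_upwards [h3, h4] with s hs3 hs4
    rw [h0] at hs3 hs4
    rw [zero_mul, add_zero] at hs3 hs4
    rw [show a + -1 * s = a - s by ring] at hs4
    rw [one_mul] at hs3
    exact ⟨hs3, hs4⟩

/-- A parabolic point with number `n + 1` on the axis is at the Perron height. -/
lemma par_MM {n : ℕ} {a ε x : ℝ} (ha : 0 < a) (hε : 0 < ε)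
    (hx : P (n + 1) a ε x = x + 2 * Real.pi * ((n + 1 : ℤ) : ℝ)) (hK : Kx (n + 1) a ε x = 0)
    (hne : ¬ ∀ x, P (n + 1) a ε x = x + 2 * Real.pi * ((n + 1 : ℤ) : ℝ)) :
    a = 2 * MM n (ε / 2) := by
  have h1 : Simple n ε a := frontier_of_parabolic hx hK hne
  have h2 := simple_MM n hε
  exact simple_unique hε ha (by have := MM_pos n (half_pos hε); positivity) h1 h2

/-- The boundary does not contain a segment of the axis. -/
theorem flat_false {n : ℕ} {μ0 ε : ℝ} {s : ℤ} (hε : 0 < ε)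
    (h : ∀ᶠ μ in 𝓝 μ0, ∃ x, P (n + 1) (2 * μ) ε x = x + 2 * Real.pi * s ∧
      Kx (n + 1) (2 * μ) ε x = 0) : False := by
  obtain ⟨δ, hδ, hb⟩ := Metric.eventually_nhds_iff.1 h
  set c : ℝ := (-1 : ℝ) ^ (((n + 1 : ℕ) : ℤ) + s) * 2 with hc
  have hconst : ∀ z : ℂ, NN ((n + 1 : ℕ) : ℂ) z ((ε ^ 2 / 4 : ℝ) : ℂ) = (c : ℂ) := by
    refine entire_eq (NN_diffμ ((n + 1 : ℕ) : ℂ) ((ε ^ 2 / 4 : ℝ) : ℂ)) (a := μ0) (b := μ0 + δ)
      (by linarith) ?_
    intro μ hμ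
    obtain ⟨x, hx, hK⟩ := hb (y := μ) (by
      rw [Real.dist_eq, abs_of_pos (by linarith [hμ.1])]
      linarith [hμ.2])
    have h1 := NN_of_fixed (l := n + 1) (μ := μ) (ε := ε) (x := x) (r := s) (by
      push_cast; exact hx)
    have hK' : Kx ((n + 1 : ℕ) : ℝ) (2 * μ) ε x = 0 := by push_cast; exact hK
    rw [h1, hK', Real.cosh_zero, mul_one, hc]
  have hid : ∀ μ, 0 < μ → MM n (ε / 2) < μ →
      ∀ x, P (n + 1) (2 * μ) ε x = x + 2 * Real.pi * ((n + 1 : ℤ) : ℝ) := by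
    intro μ hμ hM
    obtain ⟨x, hx⟩ := locked_above hμ hε hM
    have h1 := NN_of_fixed (l := n + 1) (μ := μ) (ε := ε) (x := x) (r := (n:ℤ) + 1) (by
      push_cast; push_cast at hx; exact hx)
    rw [hconst] at h1
    have h2 : c = (-1 : ℝ) ^ (((n + 1 : ℕ) : ℤ) + ((n:ℤ) + 1)) *
      (2 * Real.cosh (Kx ((n + 1 : ℕ) : ℝ) (2 * μ) ε x)) := by exact_mod_cast h1
    have he : Even (((n + 1 : ℕ) : ℤ) + ((n:ℤ) + 1)) := ⟨(n:ℤ) + 1, by push_cast; ring⟩
    rw [he.neg_one_zpow, one_mul] at h2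
    have h3 : c ≤ 2 := by
      rw [hc]
      rcases Int.even_or_odd (((n + 1 : ℕ) : ℤ) + s) with h4 | h4
      · rw [h4.neg_one_zpow]; norm_num
      · rw [h4.neg_one_zpow]; norm_num
    have hK : Kx (n + 1) (2 * μ) ε x = 0 := by
      by_contra hK
      have hK' : Kx ((n + 1 : ℕ) : ℝ) (2 * μ) ε x ≠ 0 := by push_cast; exact hK
      have := Real.one_lt_cosh.2 hK'
      linarith
    by_contra hne
    have := par_MM (by positivity) hε hx hK hne
    linarith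
  have hM0 := MM_pos n (half_pos hε)
  have h1 := hid (MM n (ε / 2) + 1) (by positivity) (by linarith)
  rcases ident_move (by positivity) hε h1 with h2 | h2
  · obtain ⟨s, hs, hs0⟩ := (h2.and self_mem_nhdsWithin).exists
    have hs1 : 0 < s := hs0
    have h3 := hid (MM n (ε / 2) + 1 + s / 2) (by positivity) (by linarith) (Real.pi / 2)
    rw [show 2 * (MM n (ε / 2) + 1 + s / 2) = 2 * (MM n (ε / 2) + 1) + s by ring] at h3
    linarith [hs.1]
  · obtain ⟨s, hs, hs0⟩ := (h2.and self_mem_nhdsWithin).exists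
    have hs1 : 0 < s := hs0
    have h3 := hid (MM n (ε / 2) + 1 + s / 2) (by positivity) (by linarith) (Real.pi / 2)
    rw [show 2 * (MM n (ε / 2) + 1 + s / 2) = 2 * (MM n (ε / 2) + 1) + s by ring] at h3
    linarith [hs.2]

end Pool.Agent.W625.JT
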