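import Pool.Agent.W625.JT.I

set_option autoImplicit false

open Set Filter Topology H535R3

namespace Pool.Agent.W625.JT

/-- Minimal displacement. -/
noncomputable def mn (p : ℝ × ℝ × ℝ) : ℝ :=
  sInf ((fun x => P p.1 p.2.1 p.2.2 x - x) '' Icc 0 (2 * Real.pi))
/-- Maximal displacement. -/
noncomputable def mx (p : ℝ × ℝ × ℝ) : ℝ :=
  -sInf ((fun x => x - P p.1 p.2.1 p.2.2 x) '' Icc 0 (2 * Real.pi))

lemma inf_spec {F : ℝ → ℝ} (hF : Continuous F) (hper : ∀ (x : ℝ) (m : ℤ), F (x + 2 * Real.pi * m) = F x) :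
    (∀ x, sInf (F '' Icc 0 (2 * Real.pi)) ≤ F x) ∧ ∃ x, F x = sInf (F '' Icc 0 (2 * Real.pi)) := by
  have hcpt : IsCompact (F '' Icc 0 (2 * Real.pi)) := isCompact_Icc.image hF
  have hne : (F '' Icc 0 (2 * Real.pi)).Nonempty :=
    (nonempty_Icc.2 Real.two_pi_pos.le).image F
  constructor
  · intro x
    obtain ⟨m, hm1, hm2⟩ := exists_shift 0 x
    rw [← hper x m]
    exact csInf_le hcpt.bddBelow ⟨_, ⟨hm1, by linarith⟩, rfl⟩
  · obtain ⟨x, -, hx⟩ := hcpt.sInf_mem hne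
    exact ⟨x, hx⟩

lemma mn_spec (b a ε : ℝ) : (∀ x, mn (b, a, ε) ≤ P b a ε x - x) ∧ ∃ x, P b a ε x - x = mn (b, a, ε) := by
  have h1 := continuous_Px b a ε
  exact inf_spec (F := fun x => P b a ε x - x) (by fun_prop) (fun x m => by
    rw [P_add]; ring)

lemma mx_spec (b a ε : ℝ) : (∀ x, P b a ε x - x ≤ mx (b, a, ε)) ∧ ∃ x, P b a ε x - x = mx (b, a, ε) := by
  have h1 := continuous_Px b a ε
  obtain ⟨h2, x, hx⟩ := inf_spec (F := fun x => x - P b a ε x) (by fun_prop) (fun x m => by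
    rw [P_add]; ring)
  constructor
  · intro y
    have := h2 y
    unfold mx
    simp only at this ⊢
    linarith
  · refine ⟨x, ?_⟩
    unfold mx
    simp only at hx ⊢
    linarith

lemma mn_cont : Continuous mn := by
  apply isCompact_Icc.continuous_sInf
  exact (continuous_P.comp (f := fun q : (ℝ × ℝ × ℝ) × ℝ => (q.1.1, q.1.2.1, q.1.2.2, q.2))
    (by fun_prop)).sub continuous_snd

lemma mx_cont : Continuous mx := by
  apply Continuous.neg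
  apply isCompact_Icc.continuous_sInf
  exact continuous_snd.sub (continuous_P.comp
    (f := fun q : (ℝ × ℝ × ℝ) × ℝ => (q.1.1, q.1.2.1, q.1.2.2, q.2)) (by fun_prop))

lemma mn_lt {b b' a ε : ℝ} (h : b < b') : mn (b, a, ε) < mn (b', a, ε) := by
  obtain ⟨-, x, hx⟩ := mn_spec b' a ε
  rw [← hx]
  have h1 := (mn_spec b a ε).1 x
  have h2 : P b a ε x < P b' a ε x := P_lt_of_b h
  linarith

lemma mx_lt {b b' a ε : ℝ} (h : b < b') : mx (b, a, ε) < mx (b', a, ε) := by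
  obtain ⟨-, x, hx⟩ := mx_spec b a ε
  rw [← hx]
  have h1 := (mx_spec b' a ε).1 x
  have h2 : P b a ε x < P b' a ε x := P_lt_of_b h
  linarith

lemma locked_iff {b a ε : ℝ} {r : ℤ} : (∃ x, P b a ε x = x + 2 * Real.pi * r) ↔
    mn (b, a, ε) ≤ 2 * Real.pi * r ∧ 2 * Real.pi * r ≤ mx (b, a, ε) := by
  constructor
  · rintro ⟨x, hx⟩
    have h1 := (mn_spec b a ε).1 x
    have h2 := (mx_spec b a ε).1 x
    exact ⟨by linarith, by linarith⟩
  · rintro ⟨h1, h2⟩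
    obtain ⟨-, x, hx⟩ := mn_spec b a ε
    obtain ⟨-, y, hy⟩ := mx_spec b a ε
    exact mem_Ls_of (q := (b, a)) (u := y) (v := x) (by simp only; linarith) (by simp only; linarith)

lemma bd_plus {b a ε : ℝ} {r : ℤ} :
    ((∃ x, P b a ε x = x + 2 * Real.pi * r) ∧ ∀ b', b < b' → ¬ ∃ x, P b' a ε x = x + 2 * Real.pi * r) ↔
      mn (b, a, ε) = 2 * Real.pi * r := by
  constructor
  · rintro ⟨h1, h2⟩
    obtain ⟨h3, h4⟩ := locked_iff.1 h1
    apply le_antisymm h3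
    by_contra hcon
    push Not at hcon
    have hc : Continuous fun b' => mn (b', a, ε) :=
      mn_cont.comp (f := fun b' => (b', a, ε)) (by fun_prop)
    have h5 : ∀ᶠ b' in 𝓝[>] b, mn (b', a, ε) < 2 * Real.pi * r :=
      (hc.continuousAt.eventually_lt_const hcon).filter_mono nhdsWithin_le_nhds
    obtain ⟨b', h6, h7⟩ := (h5.and self_mem_nhdsWithin).exists
    exact h2 b' h7 (locked_iff.2 ⟨h6.le, h4.trans (mx_lt (show b < b' from h7)).le⟩)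
  · intro h
    obtain ⟨h1, x, hx⟩ := mn_spec b a ε
    refine ⟨⟨x, by linarith⟩, ?_⟩
    rintro b' hb' h2
    have := (locked_iff.1 h2).1
    have := mn_lt (a := a) (ε := ε) hb'
    linarith

lemma bd_minus {b a ε : ℝ} {r : ℤ} :
    ((∃ x, P b a ε x = x + 2 * Real.pi * r) ∧ ∀ b', b' < b → ¬ ∃ x, P b' a ε x = x + 2 * Real.pi * r) ↔
      mx (b, a, ε) = 2 * Real.pi * r := by
  constructor
  · rintro ⟨h1, h2⟩
    obtain ⟨h3, h4⟩ := locked_iff.1 h1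
    symm
    apply le_antisymm h4
    by_contra hcon
    push Not at hcon
    have hc : Continuous fun b' => mx (b', a, ε) :=
      mx_cont.comp (f := fun b' => (b', a, ε)) (by fun_prop)
    have h5 : ∀ᶠ b' in 𝓝[<] b, 2 * Real.pi * r < mx (b', a, ε) :=
      (hc.continuousAt.eventually_const_lt hcon).filter_mono nhdsWithin_le_nhds
    obtain ⟨b', h6, h7⟩ := (h5.and self_mem_nhdsWithin).exists
    exact h2 b' h7 (locked_iff.2 ⟨(mn_lt (show b' < b from h7)).le.trans h3, h6.le⟩)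
  · intro h
    obtain ⟨h1, x, hx⟩ := mx_spec b a ε
    refine ⟨⟨x, by linarith⟩, ?_⟩
    rintro b' hb' h2
    have := (locked_iff.1 h2).2
    have := mx_lt (a := a) (ε := ε) hb'
    linarith

/-- The abstract argument. -/
lemma core {m : ℝ × ℝ × ℝ → ℝ} (hm : Continuous m) (hmono : ∀ b b' a ε, b < b' → m (b, a, ε) < m (b', a, ε))
    {l a0 ε0 c : ℝ} (h0 : m (l, a0, ε0) = c)
    (germ : ∃ η > 0, ∀ b a, |b - l| < η → |a - a0| < η → m (b, a, ε0) = c → l ≤ b)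
    (no : ∃ η > 0, ∀ ε a, ε0 - η < ε → ε < ε0 → |a - a0| < η → m (l, a, ε) ≠ c)
    (up : ∀ e < ε0, ∃ ε ∈ Ioo e ε0, c < m (l, a0, ε))
    (notflat : ¬ ∀ᶠ a in 𝓝 a0, m (l, a, ε0) = c) : False := by
  obtain ⟨η, hη, hg⟩ := germ
  obtain ⟨η2, hη2, hno⟩ := no
  have h1 : ∀ᶠ a in 𝓝 a0, m (l, a, ε0) ≤ c := by
    have hb1 : m (l - η / 2, a0, ε0) < c := by rw [← h0]; exact hmono _ _ _ _ (by linarith)
    have hc : Continuous fun a => m (l - η / 2, a, ε0) :=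
      hm.comp (f := fun a => (l - η / 2, a, ε0)) (by fun_prop)
    have h2 := hc.continuousAt.eventually_lt_const hb1
    have h3 : ∀ᶠ a in 𝓝 a0, |a - a0| < η := by
      filter_upwards [Metric.ball_mem_nhds a0 hη] with a ha
      rwa [Metric.mem_ball, Real.dist_eq] at ha
    filter_upwards [h2, h3] with a ha1 ha2
    by_contra hcon
    push Not at hcon
    have hcb : Continuous fun b => m (b, a, ε0) :=
      hm.comp (f := fun b => (b, a, ε0)) (by fun_prop)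
    obtain ⟨b, hb, hb2⟩ := intermediate_value_Icc (a := l - η / 2) (b := l) (by linarith)
      hcb.continuousOn (show c ∈ Icc _ _ from ⟨ha1.le, hcon.le⟩)
    have hb3 : m (b, a, ε0) = c := hb2
    have hb4 := hg b a (by rw [abs_lt]; constructor <;> linarith [hb.1, hb.2]) ha2 hb3
    have hb5 : b = l := le_antisymm hb.2 hb4
    rw [hb5] at hb3
    linarith
  have h2 : ∃ᶠ a in 𝓝 a0, ¬ m (l, a, ε0) = c := not_eventually.1 notflat
  have h3 : ∀ᶠ a in 𝓝 a0, |a - a0| < η2 := by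
    filter_upwards [Metric.ball_mem_nhds a0 hη2] with a ha
    rwa [Metric.mem_ball, Real.dist_eq] at ha
  obtain ⟨a1, ha1, ha2, ha3⟩ := (h2.and_eventually (h1.and h3)).exists
  have ha4 : m (l, a1, ε0) < c := lt_of_le_of_ne ha2 ha1
  have hce : Continuous fun ε => m (l, a1, ε) :=
    hm.comp (f := fun ε => (l, a1, ε)) (by fun_prop)
  have h4 := hce.continuousAt.eventually_lt_const ha4
  obtain ⟨δ, hδ, hδ2⟩ := Metric.eventually_nhds_iff.1 h4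
  obtain ⟨ε, hε, hε2⟩ := up (max (ε0 - δ) (ε0 - η2)) (max_lt (by linarith) (by linarith))
  have hε3 : ε0 - δ < ε := lt_of_le_of_lt (le_max_left _ _) hε.1
  have hε4 : ε0 - η2 < ε := lt_of_le_of_lt (le_max_right _ _) hε.1
  have h5 : m (l, a1, ε) < c := hδ2 (by
    rw [Real.dist_eq, abs_lt]; constructor <;> linarith [hε.2])
  have hca : Continuous fun a => m (l, a, ε) :=
    hm.comp (f := fun a => (l, a, ε)) (by fun_prop)
  obtain ⟨a, ha, ha5⟩ := intermediate_value_uIcc (a := a1) (b := a0) hca.continuousOn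
    (show c ∈ uIcc (m (l, a1, ε)) (m (l, a0, ε)) from by
      rw [mem_uIcc]; left; exact ⟨h5.le, hε2.le⟩)
  refine hno ε a hε4 hε.2 ?_ ha5
  rw [mem_uIcc] at ha
  rw [abs_lt] at ha3 ⊢
  rcases ha with ⟨h6, h7⟩ | ⟨h6, h7⟩
  · constructor <;> linarith [ha3.1, ha3.2]
  · constructor <;> linarith [ha3.1, ha3.2]

lemma sqrt_eps {ε : ℝ} (hε : 0 < ε) : 2 * Real.sqrt (ε ^ 2 / 4) = ε := by
  rw [show ε ^ 2 / 4 = (ε / 2) ^ 2 by ring, Real.sqrt_sq (by positivity)]; ring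

lemma QQ_eps {n : ℕ} {μ ε x : ℝ} (hε : 0 < ε) : QQ n μ (ε ^ 2 / 4) x = P (n + 1) (2 * μ) ε x := by
  unfold QQ; rw [sqrt_eps hε]

lemma eps_range {e ε0 E : ℝ} (hE0 : 0 < E) (hE : E ∈ Ioo ((max e 0) ^ 2 / 4) (ε0 ^ 2 / 4))
    (hε0 : 0 < ε0) : 2 * Real.sqrt E ∈ Ioo e ε0 := by
  constructor
  · have h1 : Real.sqrt ((max e 0) ^ 2 / 4) < Real.sqrt E := Real.sqrt_lt_sqrt (by positivity) hE.1
    rw [show (max e 0) ^ 2 / 4 = (max e 0 / 2) ^ 2 by ring, Real.sqrt_sq (by positivity)] at h1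
    have := le_max_left e 0
    linarith
  · have h1 : Real.sqrt E < Real.sqrt (ε0 ^ 2 / 4) := Real.sqrt_lt_sqrt hE0.le hE.2
    rw [show ε0 ^ 2 / 4 = (ε0 / 2) ^ 2 by ring, Real.sqrt_sq (by positivity)] at h1
    linarith

lemma max_lt_sq {e ε0 : ℝ} (hε0 : 0 < ε0) (he : e < ε0) : (max e 0) ^ 2 / 4 < ε0 ^ 2 / 4 := by
  have h1 : max e 0 < ε0 := max_lt he hε0
  have h2 : 0 ≤ max e 0 := le_max_right _ _
  nlinarith

lemma up_plus {n : ℕ} {a0 ε0 : ℝ} {s : ℤ} (ha : 0 < a0) (hε0 : 0 < ε0) (hs0 : 0 ≤ s) (hs : s < n + 1)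
    (h : mn ((n:ℝ) + 1, a0, ε0) = 2 * Real.pi * s) {e : ℝ} (he : e < ε0) :
    ∃ ε ∈ Ioo e ε0, 2 * Real.pi * s < mn ((n:ℝ) + 1, a0, ε) := by
  obtain ⟨h1, x0, hx0⟩ := mn_spec ((n:ℝ) + 1) a0 ε0
  have ha2 : 2 * (a0 / 2) = a0 := by ring
  obtain ⟨E, hE, hE0, hE2⟩ := plus_case (n := n) (μ := a0 / 2) (E0 := ε0 ^ 2 / 4) (x0 := x0) (s := s)
    (by positivity) hs0 hs (by positivity) (by rw [QQ_eps hε0, ha2]; linarith)
    (fun x => by rw [QQ_eps hε0, ha2]; have := h1 x; linarith) (max_lt_sq hε0 he)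
  refine ⟨2 * Real.sqrt E, eps_range hE0 hE hε0, ?_⟩
  obtain ⟨-, x, hx⟩ := mn_spec ((n:ℝ) + 1) a0 (2 * Real.sqrt E)
  rw [← hx]
  have h2 := hE2 x
  unfold QQ at h2
  rw [ha2] at h2
  linarith

lemma up_minus {n : ℕ} {a0 ε0 : ℝ} {s : ℤ} (ha : 0 < a0) (hε0 : 0 < ε0) (hs : s < n + 1)
    (h : mx ((n:ℝ) + 1, a0, ε0) = 2 * Real.pi * s) {e : ℝ} (he : e < ε0) :
    ∃ ε ∈ Ioo e ε0, 2 * Real.pi * s < mx ((n:ℝ) + 1, a0, ε) := by
  obtain ⟨h1, x0, hx0⟩ := mx_spec ((n:ℝ) + 1) a0 ε0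
  have ha2 : 2 * (a0 / 2) = a0 := by ring
  obtain ⟨E, hE, hE0, x, hE2⟩ := minus_case (n := n) (μ := a0 / 2) (E0 := ε0 ^ 2 / 4) (x0 := x0) (s := s)
    (by positivity) hs (by positivity) (by rw [QQ_eps hε0, ha2]; linarith)
    (fun x => by rw [QQ_eps hε0, ha2]; have := h1 x; linarith) (max_lt_sq hε0 he)
  refine ⟨2 * Real.sqrt E, eps_range hE0 hE hε0, ?_⟩
  have h3 := (mx_spec ((n:ℝ) + 1) a0 (2 * Real.sqrt E)).1 x
  unfold QQ at hE2
  rw [ha2] at hE2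
  linarith

lemma notflat_plus {n : ℕ} {a0 ε0 : ℝ} {s : ℤ} (hε0 : 0 < ε0) :
    ¬ ∀ᶠ a in 𝓝 a0, mn ((n:ℝ) + 1, a, ε0) = 2 * Real.pi * s := by
  intro h
  apply flat_false (n := n) (μ0 := a0 / 2) (s := s) hε0
  have hc : Continuous fun μ : ℝ => 2 * μ := by fun_prop
  have h2 := hc.tendsto (a0 / 2)
  rw [show 2 * (a0 / 2) = a0 by ring] at h2
  filter_upwards [h2.eventually h] with μ hμ
  obtain ⟨h3, x, hx⟩ := mn_spec ((n:ℝ) + 1) (2 * μ) ε0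
  have hx' : P ((n:ℝ) + 1) (2 * μ) ε0 x = x + 2 * Real.pi * s := by linarith
  exact ⟨x, hx', one_sided_K hx' (Or.inl fun y => by have := h3 y; linarith)⟩

lemma notflat_minus {n : ℕ} {a0 ε0 : ℝ} {s : ℤ} (hε0 : 0 < ε0) :
    ¬ ∀ᶠ a in 𝓝 a0, mx ((n:ℝ) + 1, a, ε0) = 2 * Real.pi * s := by
  intro h
  apply flat_false (n := n) (μ0 := a0 / 2) (s := s) hε0
  have hc : Continuous fun μ : ℝ => 2 * μ := by fun_prop
  have h2 := hc.tendsto (a0 / 2)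
  rw [show 2 * (a0 / 2) = a0 by ring] at h2
  filter_upwards [h2.eventually h] with μ hμ
  obtain ⟨h3, x, hx⟩ := mx_spec ((n:ℝ) + 1) (2 * μ) ε0
  have hx' : P ((n:ℝ) + 1) (2 * μ) ε0 x = x + 2 * Real.pi * s := by linarith
  exact ⟨x, hx', one_sided_K hx' (Or.inr fun y => by have := h3 y; linarith)⟩

/-- Persistence of identity points. -/
lemma ident_persist {n : ℕ} {a0 ε0 : ℝ} (ha : 0 < a0) (hε0 : 0 < ε0)
    (hall : ∀ x, P (n + 1) a0 ε0 x = x + 2 * Real.pi * ((n + 1 : ℤ) : ℝ)) {η : ℝ} (hη : 0 < η) :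
    ∃ ε ∈ Ioo (ε0 - η) ε0, ∃ a, |a - a0| < η ∧
      ∀ x, P (n + 1) a ε x = x + 2 * Real.pi * ((n + 1 : ℤ) : ℝ) := by
  have hne : a0 ≠ 2 * MM n (ε0 / 2) := by
    have h1 := not_ident_MM (n := n) (μ := a0 / 2) (e := ε0 / 2) (by positivity) (by
      intro x
      rw [show 2 * (a0 / 2) = a0 by ring, show 2 * (ε0 / 2) = ε0 by ring]
      exact hall x)
    intro h2
    apply h1
    linarith
  have hMc : ContinuousAt (fun p : ℝ × ℝ => p.1 - 2 * MM n (p.2 / 2)) (a0, ε0) := by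
    have h1 : ContinuousAt (MM n) (ε0 / 2) :=
      (MM_cont n).continuousAt (Ioi_mem_nhds (half_pos hε0))
    have h2 : ContinuousAt (fun p : ℝ × ℝ => MM n (p.2 / 2)) (a0, ε0) :=
      ContinuousAt.comp (f := fun p : ℝ × ℝ => p.2 / 2) (g := MM n) h1 (by fun_prop)
    fun_prop
  have hev : ∀ᶠ p : ℝ × ℝ in 𝓝 (a0, ε0), p.1 - 2 * MM n (p.2 / 2) ≠ 0 ∧ 0 < p.1 ∧ 0 < p.2 := by
    have h1 := hMc.eventually_ne (by simp only; exact sub_ne_zero.2 hne)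
    have h2 : ∀ᶠ p : ℝ × ℝ in 𝓝 (a0, ε0), 0 < p.1 :=
      continuous_fst.continuousAt.eventually_const_lt ha
    have h3 : ∀ᶠ p : ℝ × ℝ in 𝓝 (a0, ε0), 0 < p.2 :=
      continuous_snd.continuousAt.eventually_const_lt hε0
    filter_upwards [h1, h2, h3] with p h1 h2 h3 using ⟨h1, h2, h3⟩
  obtain ⟨δ, hδ, hδ2⟩ := Metric.eventually_nhds_iff.1 hev
  -- a crossing in the `a` direction
  obtain ⟨s, hs0, hs1, u, v, hu, hv, h1, h2⟩ : ∃ s : ℝ, 0 < s ∧ s < min η δ ∧ ∃ u v : ℝ,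
      |u - a0| ≤ s ∧ |v - a0| ≤ s ∧
      P (n + 1) u ε0 (Real.pi / 2) < Real.pi / 2 + 2 * Real.pi * ((n + 1 : ℤ) : ℝ) ∧
      Real.pi / 2 + 2 * Real.pi * ((n + 1 : ℤ) : ℝ) < P (n + 1) v ε0 (Real.pi / 2) := by
    rcases ident_move ha hε0 hall with h | h
    · obtain ⟨s, hs, hs2⟩ := (h.and (Ioo_mem_nhdsGT (lt_min hη hδ))).exists
      exact ⟨s, hs2.1, hs2.2, a0 - s, a0 + s, by
        rw [show a0 - s - a0 = -s by ring, abs_neg, abs_of_pos hs2.1], by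
        rw [show a0 + s - a0 = s by ring, abs_of_pos hs2.1], hs.2, hs.1⟩
    · obtain ⟨s, hs, hs2⟩ := (h.and (Ioo_mem_nhdsGT (lt_min hη hδ))).exists
      exact ⟨s, hs2.1, hs2.2, a0 + s, a0 - s, by
        rw [show a0 + s - a0 = s by ring, abs_of_pos hs2.1], by
        rw [show a0 - s - a0 = -s by ring, abs_neg, abs_of_pos hs2.1], hs.2, hs.1⟩
  have hcε : ∀ a, Continuous fun ε => P ((n:ℝ) + 1) a ε (Real.pi / 2) := fun a =>
    continuous_P.comp (f := fun ε => ((n:ℝ) + 1, a, ε, Real.pi / 2)) (by fun_prop)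
  have h3 := ((hcε u).continuousAt (x := ε0)).eventually_lt_const h1
  have h4 := ((hcε v).continuousAt (x := ε0)).eventually_const_lt h2
  have h5 : ∀ᶠ ε in 𝓝[<] ε0, P ((n:ℝ) + 1) u ε (Real.pi / 2) < Real.pi / 2 + 2 * Real.pi * ((n + 1 : ℤ) : ℝ) ∧
      Real.pi / 2 + 2 * Real.pi * ((n + 1 : ℤ) : ℝ) < P ((n:ℝ) + 1) v ε (Real.pi / 2) :=
    (h3.and h4).filter_mono nhdsWithin_le_nhds
  obtain ⟨ε, hε, hε2⟩ := (h5.and (Ioo_mem_nhdsLT
    (show ε0 - min η δ < ε0 by have := lt_min hη hδ; linarith))).exists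
  have hca : Continuous fun a => P ((n:ℝ) + 1) a ε (Real.pi / 2) :=
    continuous_P.comp (f := fun a => ((n:ℝ) + 1, a, ε, Real.pi / 2)) (by fun_prop)
  obtain ⟨a, haI, hax⟩ := intermediate_value_uIcc (a := u) (b := v) hca.continuousOn
    (show Real.pi / 2 + 2 * Real.pi * ((n + 1 : ℤ) : ℝ) ∈ uIcc _ _ from by
      rw [mem_uIcc]; left; exact ⟨hε.1.le, hε.2.le⟩)
  have hax' : P ((n:ℝ) + 1) a ε (Real.pi / 2) = Real.pi / 2 + 2 * Real.pi * ((n + 1 : ℤ) : ℝ) := hax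
  have has : |a - a0| ≤ s := by
    rw [mem_uIcc] at haI
    rw [abs_le] at hu hv ⊢
    rcases haI with ⟨h6, h7⟩ | ⟨h6, h7⟩
    · constructor <;> linarith [hu.1, hu.2, hv.1, hv.2]
    · constructor <;> linarith [hu.1, hu.2, hv.1, hv.2]
  have hm1 := min_le_left η δ
  have hm2 := min_le_right η δ
  have hbox := hδ2 (y := (a, ε)) (by
    rw [Prod.dist_eq, max_lt_iff]
    constructor
    · rw [Real.dist_eq]
      show |a - a0| < δ
      linarith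
    · rw [Real.dist_eq]
      show |ε - ε0| < δ
      rw [abs_lt]; constructor <;> linarith [hε2.1, hε2.2])
  refine ⟨ε, ⟨by linarith [hε2.1], hε2.2⟩, a, by linarith, ?_⟩
  by_contra hcon
  have h6 := par_MM hbox.2.1 hbox.2.2 hax' (Kx_sym hax') hcon
  apply hbox.1
  simp only
  linarith

/-- At the Perron point the displacement is nonpositive. -/
lemma at_MM_le {n : ℕ} {ε : ℝ} (hε : 0 < ε) (x : ℝ) :
    P (n + 1) (2 * MM n (ε / 2)) ε x ≤ x + 2 * Real.pi * ((n + 1 : ℤ) : ℝ) := by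
  have hM := MM_pos n (half_pos hε)
  have hc : Continuous fun μ : ℝ => P ((n:ℝ) + 1) (2 * μ) ε x :=
    continuous_P.comp (f := fun μ => ((n:ℝ) + 1, 2 * μ, ε, x)) (by fun_prop)
  refine le_of_tendsto ((hc.tendsto (MM n (ε / 2))).mono_left
    (nhdsWithin_le_nhds (s := Iio (MM n (ε / 2))))) ?_
  filter_upwards [Ioo_mem_nhdsLT hM] with μ hμ
  exact (below hμ.1 hε hμ.2 x).le

/-- The case `s = n + 1`. -/
lemma eq_case_plus {n : ℕ} {a0 ε0 : ℝ} (ha : 0 < a0) (hε0 : 0 < ε0)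
    (h : mn ((n:ℝ) + 1, a0, ε0) = 2 * Real.pi * ((n + 1 : ℤ) : ℝ)) {η : ℝ} (hη : 0 < η) :
    ∃ ε ∈ Ioo (ε0 - η) ε0, ∃ a, |a - a0| < η ∧
      mn ((n:ℝ) + 1, a, ε) = 2 * Real.pi * ((n + 1 : ℤ) : ℝ) := by
  obtain ⟨h1, x, hx⟩ := mn_spec ((n:ℝ) + 1) a0 ε0
  have hx' : P ((n:ℝ) + 1) a0 ε0 x = x + 2 * Real.pi * ((n + 1 : ℤ) : ℝ) := by linarith
  have hge : ∀ y, y + 2 * Real.pi * ((n + 1 : ℤ) : ℝ) ≤ P ((n:ℝ) + 1) a0 ε0 y := fun y => by
    have := h1 y; linarith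
  by_cases hid : ∀ x, P (n + 1) a0 ε0 x = x + 2 * Real.pi * ((n + 1 : ℤ) : ℝ)
  · obtain ⟨ε, hε, a, ha2, h2⟩ := ident_persist ha hε0 hid hη
    refine ⟨ε, hε, a, ha2, ?_⟩
    obtain ⟨-, y, hy⟩ := mn_spec ((n:ℝ) + 1) a ε
    rw [← hy, h2]; ring
  · exfalso
    have h2 := par_MM ha hε0 hx' (one_sided_K hx' (Or.inl hge)) hid
    apply hid
    intro y
    apply le_antisymm _ (hge y)
    have := at_MM_le (n := n) hε0 y
    rwa [← h2] at this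

lemma eq_case_minus {n : ℕ} {a0 ε0 : ℝ} (ha : 0 < a0) (hε0 : 0 < ε0)
    (h : mx ((n:ℝ) + 1, a0, ε0) = 2 * Real.pi * ((n + 1 : ℤ) : ℝ)) {η : ℝ} (hη : 0 < η) :
    ∃ ε ∈ Ioo (ε0 - η) ε0, ∃ a, |a - a0| < η ∧
      mx ((n:ℝ) + 1, a, ε) = 2 * Real.pi * ((n + 1 : ℤ) : ℝ) := by
  obtain ⟨h1, x, hx⟩ := mx_spec ((n:ℝ) + 1) a0 ε0
  have hx' : P ((n:ℝ) + 1) a0 ε0 x = x + 2 * Real.pi * ((n + 1 : ℤ) : ℝ) := by linarith
  have hge : ∀ y, P ((n:ℝ) + 1) a0 ε0 y ≤ y + 2 * Real.pi * ((n + 1 : ℤ) : ℝ) := fun y => by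
    have := h1 y; linarith
  by_cases hid : ∀ x, P (n + 1) a0 ε0 x = x + 2 * Real.pi * ((n + 1 : ℤ) : ℝ)
  · obtain ⟨ε, hε, a, ha2, h2⟩ := ident_persist ha hε0 hid hη
    refine ⟨ε, hε, a, ha2, ?_⟩
    obtain ⟨-, y, hy⟩ := mx_spec ((n:ℝ) + 1) a ε
    rw [← hy, h2]; ring
  · have h2 := par_MM ha hε0 hx' (one_sided_K hx' (Or.inr hge)) hid
    have hMc : ContinuousAt (fun ε : ℝ => 2 * MM n (ε / 2)) ε0 := by
      have h1 : ContinuousAt (MM n) (ε0 / 2) :=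
        (MM_cont n).continuousAt (Ioi_mem_nhds (half_pos hε0))
      have h2 : ContinuousAt (fun ε : ℝ => MM n (ε / 2)) ε0 :=
        ContinuousAt.comp (f := fun ε : ℝ => ε / 2) (g := MM n) h1 (by fun_prop)
      fun_prop
    have h3 : ∀ᶠ ε in 𝓝 ε0, |2 * MM n (ε / 2) - a0| < η := by
      have h4 : Tendsto (fun ε : ℝ => 2 * MM n (ε / 2)) (𝓝 ε0) (𝓝 a0) := by
        rw [h2]; exact hMc
      filter_upwards [h4.eventually (Metric.ball_mem_nhds a0 hη)] with ε hε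
      rwa [Real.dist_eq] at hε
    obtain ⟨ε, hε, hε2⟩ := ((h3.filter_mono nhdsWithin_le_nhds).and (Ioo_mem_nhdsLT
      (show max (ε0 - η) 0 < ε0 from max_lt (by linarith) hε0))).exists
    have hεp : 0 < ε := lt_of_le_of_lt (le_max_right _ _) hε2.1
    refine ⟨ε, ⟨lt_of_le_of_lt (le_max_left _ _) hε2.1, hε2.2⟩, 2 * MM n (ε / 2), hε, ?_⟩
    obtain ⟨h5, y, hy⟩ := mx_spec ((n:ℝ) + 1) (2 * MM n (ε / 2)) ε
    apply le_antisymm
    · rw [← hy]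
      have := at_MM_le (n := n) hεp y
      linarith
    · obtain ⟨z, hz⟩ := at_MM n hεp
      have := h5 z
      rw [hz] at this
      linarith

end Pool.Agent.W625.JT
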