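import Pool.Agent.W795.Ode

/-! Analytic dependence of linear ordinary differential equations on a parameter
(time dependent perturbation). -/

set_option autoImplicit false

namespace Pool.Agent.W625.JT

open Set Filter Topology MeasureTheory intervalIntegral Pool.Agent.W795
open scoped Interval

section Param

variable {E : Type*} [NormedAddCommGroup E] [NormedSpace ℂ E] [CompleteSpace E]

/-- Complex differentiability with respect to the spectral parameter. -/
theorem param_diff2 {B0 B1 : ℝ → E →L[ℂ] E} (hB0 : Continuous B0) (hB1 : Continuous B1) {y0 : E}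
    {Y : ℂ → ℝ → E} (h0 : ∀ l, Y l 0 = y0)
    (hY : ∀ l x, HasDerivAt (Y l) (B0 x (Y l x) + l • B1 x (Y l x)) x) (x0 : ℝ) :
    Differentiable ℂ (fun l => Y l x0) := by
  intro l
  -- the variational equation
  set A : ℝ → E →L[ℝ] E := fun x => (B0 x + l • B1 x).restrictScalars ℝ with hA
  have hAc : Continuous A := by
    have h1 : Continuous fun x => B0 x + l • B1 x := by fun_prop
    exact (ContinuousLinearMap.restrictScalarsL ℂ E E ℝ ℝ).continuous.comp h1
  set B1r : ℝ → E →L[ℝ] E := fun x => (B1 x).restrictScalars ℝ with hB1r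
  have hB1rc : Continuous B1r :=
    (ContinuousLinearMap.restrictScalarsL ℂ E E ℝ ℝ).continuous.comp hB1
  set S : ℝ → (E × E) →L[ℝ] (E × E) := fun x =>
    ((A x).comp (ContinuousLinearMap.fst ℝ E E)).prod
      ((A x).comp (ContinuousLinearMap.snd ℝ E E) + (B1r x).comp (ContinuousLinearMap.fst ℝ E E))
    with hS
  have hSc : Continuous S := by
    have e1 : Continuous fun x => (A x).comp (ContinuousLinearMap.fst ℝ E E) := by fun_prop
    have e2 : Continuous fun x => (A x).comp (ContinuousLinearMap.snd ℝ E E)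
        + (B1r x).comp (ContinuousLinearMap.fst ℝ E E) := by fun_prop
    exact (ContinuousLinearMap.prodL (𝕜 := ℝ) (E := E × E) (F := E) (G := E) (S := ℝ)).continuous.comp
      (e1.prodMk e2)
  obtain ⟨W, hW0, hW⟩ := exists_linear hSc (y0, (0 : E))
  have hW1 : ∀ x, HasDerivAt (fun x => (W x).1) (A x (W x).1) x := fun x => by
    have := (hW x).fst
    exact this
  have hW2 : ∀ x, HasDerivAt (fun x => (W x).2) (A x (W x).2 + B1 x (W x).1) x := fun x => by
    have := (hW x).snd
    exact this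
  have hYl : ∀ x, HasDerivAt (Y l) (A x (Y l x)) x := fun x => hY l x
  have hWY : (fun x => (W x).1) = Y l := linear_unique hAc hW1 hYl (by
    show (W 0).1 = Y l 0
    rw [hW0, h0])
  set Z : ℝ → E := fun x => (W x).2 with hZdef
  have hZ : ∀ x, HasDerivAt Z (B0 x (Z x) + l • B1 x (Z x) + B1 x (Y l x)) x := by
    intro x
    have := hW2 x
    have e : (W x).1 = Y l x := congrFun hWY x
    rw [e] at this
    exact this
  have hZ0 : Z 0 = 0 := by show (W 0).2 = 0; rw [hW0]
  set R : ℝ := |x0| with hR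
  have hYc : Continuous (Y l) := continuous_iff_continuousAt.2 fun x => (hY l x).continuousAt
  obtain ⟨CY, hCY⟩ : ∃ C, ∀ s ∈ Icc (-R) R, ‖Y l s‖ ≤ C :=
    (isCompact_Icc (a := -R) (b := R)).exists_bound_of_continuousOn hYc.continuousOn
  obtain ⟨KB, hKB⟩ : ∃ C, ∀ s ∈ Icc (-R) R, ‖B0 s‖ ≤ C :=
    (isCompact_Icc (a := -R) (b := R)).exists_bound_of_continuousOn hB0.continuousOn
  have hR0 : 0 ≤ R := abs_nonneg _
  have h0mem : (0:ℝ) ∈ Icc (-R) R := ⟨by linarith, hR0⟩
  have hCY0 : 0 ≤ CY := (norm_nonneg _).trans (hCY 0 h0mem)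
  have hKB0 : 0 ≤ KB := (norm_nonneg _).trans (hKB 0 h0mem)
  obtain ⟨L, hL⟩ : ∃ C, ∀ s ∈ Icc (-R) R, ‖B1 s‖ ≤ C :=
    (isCompact_Icc (a := -R) (b := R)).exists_bound_of_continuousOn hB1.continuousOn
  have hL0 : 0 ≤ L := (norm_nonneg _).trans (hL 0 h0mem)
  set K : ℝ := KB + (‖l‖ + 1) * L + 1 with hK
  have hKpos : 0 < K := by positivity
  have hbd : ∀ s, |s| ≤ R → ∀ (c : ℂ), ‖c‖ ≤ ‖l‖ + 1 → ∀ v : E,
      ‖B0 s v + c • B1 s v‖ ≤ K * ‖v‖ := by
    intro s hs c hc v
    have e1 : ‖B0 s v‖ ≤ KB * ‖v‖ :=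
      ((B0 s).le_opNorm v).trans (mul_le_mul_of_nonneg_right (hKB s (abs_le.1 hs)) (norm_nonneg _))
    have e2 : ‖c • B1 s v‖ ≤ (‖l‖ + 1) * L * ‖v‖ := by
      rw [norm_smul, mul_assoc]
      exact mul_le_mul hc (((B1 s).le_opNorm v).trans (mul_le_mul_of_nonneg_right (hL s (abs_le.1 hs))
        (norm_nonneg _))) (norm_nonneg _) (by positivity)
    calc ‖B0 s v + c • B1 s v‖ ≤ ‖B0 s v‖ + ‖c • B1 s v‖ := norm_add_le _ _
      _ ≤ KB * ‖v‖ + (‖l‖ + 1) * L * ‖v‖ := add_le_add e1 e2
      _ ≤ K * ‖v‖ := by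
          rw [hK]; nlinarith [norm_nonneg v]
  have hgb : ∀ (ε s : ℝ), 0 ≤ ε → |s| ≤ R → gronwallBound 0 K ε |s| ≤ ε * (Real.exp (K * R) / K) := by
    intro ε s hε hs
    rw [gronwallBound_of_K_ne_0 hKpos.ne']
    simp only [zero_mul, zero_add]
    have : Real.exp (K * |s|) ≤ Real.exp (K * R) := Real.exp_le_exp.2 (by gcongr)
    calc ε / K * (Real.exp (K * |s|) - 1) ≤ ε / K * Real.exp (K * R) := by
          apply mul_le_mul_of_nonneg_left _ (by positivity)
          linarith
      _ = ε * (Real.exp (K * R) / K) := by ring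
  set C1 : ℝ := L * CY * (Real.exp (K * R) / K) with hC1
  set C2 : ℝ := L * C1 * (Real.exp (K * R) / K) with hC2
  have hC10 : 0 ≤ C1 := by positivity
  have hD : ∀ h : ℂ, ‖h‖ ≤ 1 → ∀ s, |s| ≤ R → ‖Y (l + h) s - Y l s‖ ≤ ‖h‖ * C1 := by
    intro h hh s hs
    have hlh : ‖l + h‖ ≤ ‖l‖ + 1 := (norm_add_le _ _).trans (by linarith)
    have hd : ∀ x, HasDerivAt (fun x => Y (l + h) x - Y l x)
        ((B0 x (Y (l + h) x - Y l x) + (l + h) • B1 x (Y (l + h) x - Y l x))
          + h • B1 x (Y l x)) x := by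
      intro x
      refine ((hY (l + h) x).sub (hY l x)).congr_deriv ?_
      rw [map_sub, map_sub]
      module
    have hb := gronwall_two (δ := 0) (K := K) (ε := ‖h‖ * (L * CY)) (R := R) hd
      (by simp [h0]) (fun x hx => by
        refine (norm_add_le _ _).trans (add_le_add (hbd x hx _ hlh _) ?_)
        rw [norm_smul]
        apply mul_le_mul_of_nonneg_left _ (norm_nonneg _)
        exact ((B1 x).le_opNorm _).trans (mul_le_mul (hL x (abs_le.1 hx)) (hCY x (abs_le.1 hx))
          (norm_nonneg _) hL0)) s hs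
    refine hb.trans ((hgb _ s (by positivity) hs).trans (le_of_eq ?_))
    rw [hC1]; ring
  have hG : ∀ h : ℂ, ‖h‖ ≤ 1 → ‖Y (l + h) x0 - Y l x0 - h • Z x0‖ ≤ ‖h‖ ^ 2 * C2 := by
    intro h hh
    have hd : ∀ x, HasDerivAt (fun x => Y (l + h) x - Y l x - h • Z x)
        ((B0 x (Y (l + h) x - Y l x - h • Z x) + l • B1 x (Y (l + h) x - Y l x - h • Z x))
          + h • B1 x (Y (l + h) x - Y l x)) x := by
      intro x
      refine (((hY (l + h) x).sub (hY l x)).sub ((hZ x).const_smul h)).congr_deriv ?_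
      simp only [map_sub, map_smul]
      module
    have hb := gronwall_two (δ := 0) (K := K) (ε := ‖h‖ ^ 2 * (L * C1)) (R := R) hd
      (by simp [h0, hZ0]) (fun x hx => by
        refine (norm_add_le _ _).trans (add_le_add (hbd x hx _ (by linarith) _) ?_)
        rw [norm_smul, pow_two, mul_assoc]
        apply mul_le_mul_of_nonneg_left _ (norm_nonneg _)
        refine ((B1 x).le_opNorm _).trans ?_
        calc ‖B1 x‖ * ‖Y (l + h) x - Y l x‖ ≤ L * (‖h‖ * C1) :=
              mul_le_mul (hL x (abs_le.1 hx)) (hD h hh x hx) (norm_nonneg _) hL0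
          _ = ‖h‖ * (L * C1) := by ring) x0 le_rfl
    refine hb.trans ((hgb _ x0 (by positivity) le_rfl).trans (le_of_eq ?_))
    rw [hC2]; ring
  have hder : HasDerivAt (fun l => Y l x0) (Z x0) l := by
    rw [hasDerivAt_iff_isLittleO_nhds_zero]
    have hO : (fun h : ℂ => Y (l + h) x0 - Y l x0 - h • Z x0) =O[𝓝 0] fun h : ℂ => h ^ 2 := by
      refine Asymptotics.IsBigO.of_bound C2 ?_
      have : Metric.closedBall (0:ℂ) 1 ∈ 𝓝 (0:ℂ) := Metric.closedBall_mem_nhds _ one_pos
      filter_upwards [this] with h hh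
      rw [norm_pow, mul_comm]
      exact hG h (by simpa using hh)
    refine hO.trans_isLittleO ?_
    have : (fun h : ℂ => h ^ 2) =o[𝓝 0] fun h : ℂ => h ^ 1 :=
      Asymptotics.isLittleO_pow_pow (by norm_num)
    simpa using this
  exact hder.differentiableAt

end Param

end Pool.Agent.W625.JT
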